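import Mathlib

/-!
# The two-step nilpotent Lie groups `Gp lam`

`Gp lam` has horizontal space `J → ℝ` (four Heisenberg pairs) and two-dimensional centre, the
commutators of the four pairs being proportional to `(1,0), (0,1), (1,1), (1,lam)`.
-/

namespace Pool.Agent.Lib.MP_616471_al

/-- Index set of the horizontal directions. -/
abbrev J : Type := Fin 4 × Fin 2

/-- Horizontal space. -/
abbrev Vh : Type := J → ℝ

/-- Parameters. -/
abbrev Par : Type := Set.Ioo (0 : ℝ) 1

/-- The four symplectic components. -/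
def sy (v w : Vh) (i : Fin 4) : ℝ := v (i, 0) * w (i, 1) - v (i, 1) * w (i, 0)

/-- The alternating form defining the group. -/
noncomputable def om (lam : Par) (v w : Vh) : ℝ × ℝ :=
  ((sy v w 0 + sy v w 2 + sy v w 3) / 8, (sy v w 1 + sy v w 2 + lam.1 * sy v w 3) / 8)

theorem sy_add_left (u v w : Vh) (i : Fin 4) : sy (u + v) w i = sy u w i + sy v w i := by
  simp only [sy, Pi.add_apply]; ring

theorem sy_add_right (u v w : Vh) (i : Fin 4) : sy u (v + w) i = sy u v i + sy u w i := by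
  simp only [sy, Pi.add_apply]; ring

theorem sy_smul_left (c : ℝ) (v w : Vh) (i : Fin 4) : sy (c • v) w i = c * sy v w i := by
  simp only [sy, Pi.smul_apply, smul_eq_mul]; ring

theorem sy_smul_right (c : ℝ) (v w : Vh) (i : Fin 4) : sy v (c • w) i = c * sy v w i := by
  simp only [sy, Pi.smul_apply, smul_eq_mul]; ring

theorem sy_self (v : Vh) (i : Fin 4) : sy v v i = 0 := by
  simp only [sy]; ring

theorem sy_swap (v w : Vh) (i : Fin 4) : sy w v i = - sy v w i := by
  simp only [sy]; ring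

theorem abs_sy_le (v w : Vh) (i : Fin 4) : |sy v w i| ≤ 2 * (‖v‖ * ‖w‖) := by
  have h1 : ∀ j : J, |v j| ≤ ‖v‖ := fun j => by
    have := norm_le_pi_norm v j
    rwa [Real.norm_eq_abs] at this
  have h2 : ∀ j : J, |w j| ≤ ‖w‖ := fun j => by
    have := norm_le_pi_norm w j
    rwa [Real.norm_eq_abs] at this
  have h3 : ∀ j j' : J, |v j * w j'| ≤ ‖v‖ * ‖w‖ := fun j j' => by
    rw [abs_mul]
    exact mul_le_mul (h1 j) (h2 j') (abs_nonneg _) (norm_nonneg _)
  calc |sy v w i| ≤ |v (i, 0) * w (i, 1)| + |v (i, 1) * w (i, 0)| := abs_sub _ _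
    _ ≤ ‖v‖ * ‖w‖ + ‖v‖ * ‖w‖ := add_le_add (h3 _ _) (h3 _ _)
    _ = 2 * (‖v‖ * ‖w‖) := by ring

section om

variable (lam : Par)

theorem om_add_left (u v w : Vh) : om lam (u + v) w = om lam u w + om lam v w := by
  simp only [om, sy_add_left]
  ext
  · simp only [Prod.fst_add]; ring
  · simp only [Prod.snd_add]; ring

theorem om_add_right (u v w : Vh) : om lam u (v + w) = om lam u v + om lam u w := by
  simp only [om, sy_add_right]
  ext
  · simp only [Prod.fst_add]; ring
  · simp only [Prod.snd_add]; ring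

theorem om_smul_left (c : ℝ) (v w : Vh) : om lam (c • v) w = c • om lam v w := by
  simp only [om, sy_smul_left]
  ext
  · simp only [Prod.smul_fst, smul_eq_mul]; ring
  · simp only [Prod.smul_snd, smul_eq_mul]; ring

theorem om_smul_right (c : ℝ) (v w : Vh) : om lam v (c • w) = c • om lam v w := by
  simp only [om, sy_smul_right]
  ext
  · simp only [Prod.smul_fst, smul_eq_mul]; ring
  · simp only [Prod.smul_snd, smul_eq_mul]; ring

@[simp] theorem om_self (v : Vh) : om lam v v = 0 := by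
  simp [om, sy_self]

theorem om_swap (v w : Vh) : om lam w v = - om lam v w := by
  simp only [om, sy_swap v w]
  ext
  · simp only [Prod.fst_neg]; ring
  · simp only [Prod.snd_neg]; ring

@[simp] theorem om_neg_left (v w : Vh) : om lam (-v) w = - om lam v w := by
  have := om_smul_left lam (-1) v w
  rwa [neg_one_smul, neg_one_smul] at this

@[simp] theorem om_neg_right (v w : Vh) : om lam v (-w) = - om lam v w := by
  have := om_smul_right lam (-1) v w
  rwa [neg_one_smul, neg_one_smul] at this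

@[simp] theorem om_zero_left (w : Vh) : om lam 0 w = 0 := by
  have := om_smul_left lam 0 0 w
  rwa [zero_smul, zero_smul] at this

@[simp] theorem om_zero_right (w : Vh) : om lam w 0 = 0 := by
  have := om_smul_right lam 0 w 0
  rwa [zero_smul, zero_smul] at this

theorem om_sub_left (u v w : Vh) : om lam (u - v) w = om lam u w - om lam v w := by
  rw [sub_eq_add_neg, om_add_left, om_neg_left, sub_eq_add_neg]

theorem om_sub_right (u v w : Vh) : om lam u (v - w) = om lam u v - om lam u w := by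
  rw [sub_eq_add_neg, om_add_right, om_neg_right, sub_eq_add_neg]

theorem norm_om_le (v w : Vh) : ‖om lam v w‖ ≤ ‖v‖ * ‖w‖ := by
  have h := abs_sy_le v w
  have hnn : 0 ≤ ‖v‖ * ‖w‖ := by positivity
  have hl0 := lam.2.1
  have hl1 := lam.2.2
  rw [om, Prod.norm_def, Real.norm_eq_abs, Real.norm_eq_abs]
  apply max_le
  · rw [abs_le]
    have h0 := abs_le.mp (h 0)
    have h2 := abs_le.mp (h 2)
    have h3 := abs_le.mp (h 3)
    constructor
    · linarith [h0.1, h2.1, h3.1]
    · linarith [h0.2, h2.2, h3.2]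
  · have h1 := abs_le.mp (h 1)
    have h2 := abs_le.mp (h 2)
    have h3 : |lam.1 * sy v w 3| ≤ 2 * (‖v‖ * ‖w‖) := by
      rw [abs_mul, abs_of_pos hl0]
      calc lam.1 * |sy v w 3| ≤ 1 * |sy v w 3| :=
            mul_le_mul_of_nonneg_right hl1.le (abs_nonneg _)
        _ ≤ 2 * (‖v‖ * ‖w‖) := by rw [one_mul]; exact h 3
    have h3 := abs_le.mp h3
    rw [abs_le]
    constructor
    · linarith [h1.1, h2.1, h3.1]
    · linarith [h1.2, h2.2, h3.2]

end om

/-- The group. -/
@[ext] structure Gp (lam : Par) : Type where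
  /-- horizontal part -/
  v : Vh
  /-- central part -/
  z : ℝ × ℝ

namespace Gp

variable {lam : Par}

noncomputable instance : Mul (Gp lam) := ⟨fun a b => ⟨a.v + b.v, a.z + b.z + om lam a.v b.v⟩⟩

instance : One (Gp lam) := ⟨⟨0, 0⟩⟩

instance : Inv (Gp lam) := ⟨fun a => ⟨-a.v, -a.z⟩⟩

@[simp] theorem mul_v (a b : Gp lam) : (a * b).v = a.v + b.v := rfl
@[simp] theorem mul_z (a b : Gp lam) : (a * b).z = a.z + b.z + om lam a.v b.v := rfl
@[simp] theorem one_v : (1 : Gp lam).v = 0 := rfl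
@[simp] theorem one_z : (1 : Gp lam).z = 0 := rfl
@[simp] theorem inv_v (a : Gp lam) : (a⁻¹).v = -a.v := rfl
@[simp] theorem inv_z (a : Gp lam) : (a⁻¹).z = -a.z := rfl

noncomputable instance : Group (Gp lam) :=
  Group.ofLeftAxioms
    (by
      intro a b c
      ext1
      · simp only [mul_v]; abel
      · simp only [mul_v, mul_z, om_add_left, om_add_right]; abel)
    (by
      intro a
      ext1
      · simp only [mul_v, one_v, zero_add]
      · simp only [mul_z, one_v, one_z, om_zero_left, zero_add, add_zero])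
    (by
      intro a
      ext1
      · simp only [mul_v, inv_v, one_v]; abel
      · simp only [mul_z, inv_v, inv_z, one_z, om_neg_left, om_self]; simp)

/-- The homogeneous norm. -/
noncomputable def N (a : Gp lam) : ℝ := max ‖a.v‖ (√‖a.z‖)

theorem N_nonneg (a : Gp lam) : 0 ≤ N a := le_trans (norm_nonneg _) (le_max_left _ _)

@[simp] theorem N_one : N (1 : Gp lam) = 0 := by simp [N]

@[simp] theorem N_inv (a : Gp lam) : N a⁻¹ = N a := by simp [N]

theorem norm_v_le (a : Gp lam) : ‖a.v‖ ≤ N a := le_max_left _ _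

theorem norm_z_le (a : Gp lam) : ‖a.z‖ ≤ N a ^ 2 := by
  have h : √‖a.z‖ ≤ N a := le_max_right _ _
  calc ‖a.z‖ = √‖a.z‖ ^ 2 := (Real.sq_sqrt (norm_nonneg _)).symm
    _ ≤ N a ^ 2 := pow_le_pow_left₀ (Real.sqrt_nonneg _) h 2

theorem N_le_iff {a : Gp lam} {r : ℝ} (hr : 0 ≤ r) : N a ≤ r ↔ ‖a.v‖ ≤ r ∧ ‖a.z‖ ≤ r ^ 2 := by
  rw [N, max_le_iff, Real.sqrt_le_left hr]

theorem N_mul_le (a b : Gp lam) : N (a * b) ≤ N a + N b := by
  have h1 := N_nonneg a
  have h2 := N_nonneg b
  rw [N_le_iff (by positivity)]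
  constructor
  · rw [mul_v]
    exact (norm_add_le _ _).trans (add_le_add (norm_v_le a) (norm_v_le b))
  · rw [mul_z]
    have h3 : ‖om lam a.v b.v‖ ≤ N a * N b :=
      (norm_om_le lam _ _).trans
        (mul_le_mul (norm_v_le a) (norm_v_le b) (norm_nonneg _) h1)
    calc ‖a.z + b.z + om lam a.v b.v‖ ≤ ‖a.z‖ + ‖b.z‖ + ‖om lam a.v b.v‖ :=
          (norm_add_le _ _).trans (add_le_add (norm_add_le _ _) le_rfl)
      _ ≤ N a ^ 2 + N b ^ 2 + N a * N b :=
          add_le_add (add_le_add (norm_z_le a) (norm_z_le b)) h3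
      _ ≤ (N a + N b) ^ 2 := by nlinarith [mul_nonneg h1 h2]

/-- The left-invariant distance. -/
noncomputable def d (a b : Gp lam) : ℝ := N (a⁻¹ * b)

theorem d_nonneg (a b : Gp lam) : 0 ≤ d a b := N_nonneg _

@[simp] theorem d_self (a : Gp lam) : d a a = 0 := by simp [d]

theorem d_comm (a b : Gp lam) : d a b = d b a := by
  rw [d, d, ← N_inv, mul_inv_rev, inv_inv]

theorem d_triangle (a b c : Gp lam) : d a c ≤ d a b + d b c := by
  have h : a⁻¹ * c = (a⁻¹ * b) * (b⁻¹ * c) := by group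
  rw [d, d, d, h]
  exact N_mul_le _ _

theorem d_mul_left (g a b : Gp lam) : d (g * a) (g * b) = d a b := by
  rw [d, d]
  congr 1
  group

theorem d_mul_right_self (a b : Gp lam) : d a (a * b) = N b := by
  rw [d]
  congr 1
  group

theorem N_le_add (a b : Gp lam) : N a ≤ N (a * b) + N b := by
  have h : a = (a * b) * b⁻¹ := by group
  calc N a = N ((a * b) * b⁻¹) := by rw [← h]
    _ ≤ N (a * b) + N b⁻¹ := N_mul_le _ _
    _ = N (a * b) + N b := by rw [N_inv]

/-- Dilations. -/
noncomputable def dil (s : ℝ) (a : Gp lam) : Gp lam := ⟨s • a.v, s ^ 2 • a.z⟩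

@[simp] theorem dil_v (s : ℝ) (a : Gp lam) : (dil s a).v = s • a.v := rfl
@[simp] theorem dil_z (s : ℝ) (a : Gp lam) : (dil s a).z = s ^ 2 • a.z := rfl

theorem dil_mul (s : ℝ) (a b : Gp lam) : dil s (a * b) = dil s a * dil s b := by
  ext1
  · simp only [dil_v, mul_v, smul_add]
  · simp only [dil_z, mul_z, dil_v, om_smul_left, om_smul_right, smul_add, smul_smul, sq]

@[simp] theorem dil_one' (s : ℝ) : dil s (1 : Gp lam) = 1 := by
  ext1 <;> simp

theorem dil_inv (s : ℝ) (a : Gp lam) : dil s a⁻¹ = (dil s a)⁻¹ := by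
  ext1 <;> simp

@[simp] theorem dil_one (a : Gp lam) : dil 1 a = a := by
  ext1 <;> simp

@[simp] theorem dil_zero (a : Gp lam) : dil 0 a = 1 := by
  ext1 <;> simp

theorem dil_dil (s t : ℝ) (a : Gp lam) : dil s (dil t a) = dil (s * t) a := by
  ext1
  · simp only [dil_v, smul_smul]
  · simp only [dil_z, smul_smul, mul_pow]

theorem N_dil (s : ℝ) (a : Gp lam) : N (dil s a) = |s| * N a := by
  rw [N, N, dil_v, dil_z, norm_smul, norm_smul, Real.norm_eq_abs, Real.norm_eq_abs, abs_pow,
    Real.sqrt_mul (by positivity), Real.sqrt_sq (abs_nonneg _),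
    mul_max_of_nonneg _ _ (abs_nonneg _)]

theorem d_dil (s : ℝ) (a b : Gp lam) : d (dil s a) (dil s b) = |s| * d a b := by
  rw [d, d, ← dil_inv, ← dil_mul, N_dil]

/-- Horizontal elements. -/
def hor (v : Vh) : Gp lam := ⟨v, 0⟩

/-- Central elements. -/
def cen (z : ℝ × ℝ) : Gp lam := ⟨0, z⟩

@[simp] theorem hor_v (v : Vh) : (hor v : Gp lam).v = v := rfl
@[simp] theorem hor_z (v : Vh) : (hor v : Gp lam).z = 0 := rfl
@[simp] theorem cen_v (z : ℝ × ℝ) : (cen z : Gp lam).v = 0 := rfl
@[simp] theorem cen_z (z : ℝ × ℝ) : (cen z : Gp lam).z = z := rfl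

@[simp] theorem N_hor (v : Vh) : N (hor v : Gp lam) = ‖v‖ := by
  simp [N]

@[simp] theorem N_cen (z : ℝ × ℝ) : N (cen z : Gp lam) = √‖z‖ := by
  simp [N]

theorem dil_hor (s : ℝ) (v : Vh) : dil s (hor v : Gp lam) = hor (s • v) := by
  ext1 <;> simp

theorem hor_inv (v : Vh) : (hor v : Gp lam)⁻¹ = hor (-v) := by
  ext1 <;> simp

theorem cen_inv (z : ℝ × ℝ) : (cen z : Gp lam)⁻¹ = cen (-z) := by
  ext1 <;> simp

theorem cen_mul (z w : ℝ × ℝ) : (cen z * cen w : Gp lam) = cen (z + w) := by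
  ext1 <;> simp

theorem hor_pow (v : Vh) (n : ℕ) : (hor v : Gp lam) ^ n = hor ((n : ℝ) • v) := by
  induction n with
  | zero => ext1 <;> simp
  | succ n ih =>
    rw [pow_succ, ih]
    ext1
    · simp only [mul_v, hor_v, Nat.cast_succ, add_smul, one_smul]
    · simp only [mul_z, hor_v, hor_z, om_smul_left, om_self, smul_zero, add_zero]

theorem hor_comm (v w : Vh) :
    (hor v * hor w * hor (-v) * hor (-w) : Gp lam) = cen ((2 : ℝ) • om lam v w) := by
  ext1
  · simp only [mul_v, hor_v, cen_v]; abel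
  · simp only [mul_v, mul_z, hor_v, hor_z, cen_z, om_add_left, om_neg_right, om_neg_left, om_self,
      om_swap lam v w, two_smul, neg_neg, add_zero, zero_add]
    abel

theorem eq_hor_mul_cen (a : Gp lam) : a = hor a.v * cen a.z := by
  ext1 <;> simp

end Gp

end Pool.Agent.Lib.MP_616471_al
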