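import Mathlib
import Pool.Agent.Lib.MP_616471_al.Grp

/-!
# Invariant means on abelian groups and on `Gp lam`
-/

namespace Pool.Agent.Lib.MP_616471_al

/-- Boundedness of a real function. -/
def Bd {A : Type*} (u : A → ℝ) : Prop := ∃ C : ℝ, ∀ x, |u x| ≤ C

theorem Bd.add {A : Type*} {u v : A → ℝ} (hu : Bd u) (hv : Bd v) : Bd (u + v) := by
  obtain ⟨C, hC⟩ := hu
  obtain ⟨D, hD⟩ := hv
  exact ⟨C + D, fun x => (abs_add_le _ _).trans (add_le_add (hC x) (hD x))⟩

theorem Bd.smul {A : Type*} {u : A → ℝ} (c : ℝ) (hu : Bd u) : Bd (c • u) := by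
  obtain ⟨C, hC⟩ := hu
  refine ⟨|c| * C, fun x => ?_⟩
  rw [Pi.smul_apply, smul_eq_mul, abs_mul]
  exact mul_le_mul_of_nonneg_left (hC x) (abs_nonneg _)

theorem Bd.comp {A B : Type*} {u : A → ℝ} (hu : Bd u) (f : B → A) : Bd (fun x => u (f x)) := by
  obtain ⟨C, hC⟩ := hu
  exact ⟨C, fun x => hC _⟩

theorem Bd.zero {A : Type*} : Bd (0 : A → ℝ) := ⟨0, fun _ => by simp⟩

theorem Bd.sum {A ι : Type*} (s : Finset ι) {u : ι → A → ℝ} (hu : ∀ i ∈ s, Bd (u i)) :
    Bd (∑ i ∈ s, u i) := by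
  classical
  induction s using Finset.induction_on with
  | empty => rw [Finset.sum_empty]; exact Bd.zero
  | insert a s has ih =>
    rw [Finset.sum_insert has]
    exact (hu a (Finset.mem_insert_self _ _)).add
      (ih fun i hi => hu i (Finset.mem_insert_of_mem hi))

/-- A mean: a positive normalised linear functional on bounded functions. -/
structure IsMean {A : Type*} (M : (A → ℝ) → ℝ) : Prop where
  add : ∀ u v, Bd u → Bd v → M (u + v) = M u + M v
  smul : ∀ (c : ℝ) u, Bd u → M (c • u) = c * M u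
  le : ∀ u (C : ℝ), Bd u → (∀ x, u x ≤ C) → M u ≤ C

namespace IsMean

variable {A : Type*} {M : (A → ℝ) → ℝ} (hM : IsMean M)

include hM

theorem neg (u : A → ℝ) (hu : Bd u) : M (-u) = - M u := by
  have := hM.smul (-1) u hu
  rwa [neg_one_smul, neg_one_mul] at this

theorem zero : M 0 = 0 := by
  have := hM.smul 0 0 Bd.zero
  rwa [zero_smul, zero_mul] at this

theorem ge (u : A → ℝ) (C : ℝ) (hu : Bd u) (h : ∀ x, C ≤ u x) : C ≤ M u := by
  have h1 : M (-u) ≤ -C := hM.le (-u) (-C) (by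
    have := hu.smul (-1)
    rwa [neg_one_smul] at this) (fun x => neg_le_neg (h x))
  rw [hM.neg u hu] at h1
  linarith

theorem sum {ι : Type*} (s : Finset ι) (u : ι → A → ℝ) (hu : ∀ i ∈ s, Bd (u i)) :
    M (∑ i ∈ s, u i) = ∑ i ∈ s, M (u i) := by
  classical
  induction s using Finset.induction_on with
  | empty => rw [Finset.sum_empty, Finset.sum_empty]; exact hM.zero
  | insert a s has ih =>
    have h1 : ∀ i ∈ s, Bd (u i) := fun i hi => hu i (Finset.mem_insert_of_mem hi)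
    rw [Finset.sum_insert has, Finset.sum_insert has,
      hM.add _ _ (hu a (Finset.mem_insert_self _ _)) (Bd.sum s h1), ih h1]

end IsMean

section Abelian

variable {A : Type*} [AddCommGroup A]

/-- Upper bounds for averages. -/
def PSet (u : A → ℝ) : Set ℝ :=
  {c | ∃ (ι : Type) (_ : Fintype ι) (_ : Nonempty ι) (a : ι → A),
    ∀ x, ∑ i, u (x + a i) ≤ c * Fintype.card ι}

theorem PSet_lower {u : A → ℝ} {C : ℝ} (hu : ∀ x, -C ≤ u x) {c : ℝ} (hc : c ∈ PSet u) :
    -C ≤ c := by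
  obtain ⟨ι, _, _, a, ha⟩ := hc
  have hpos : (0 : ℝ) < Fintype.card ι := by exact_mod_cast Fintype.card_pos
  have h1 : -C * Fintype.card ι ≤ ∑ i, u (0 + a i) := by
    calc -C * Fintype.card ι = ∑ _i : ι, -C := by
          rw [Finset.sum_const, Finset.card_univ, nsmul_eq_mul, mul_comm]
      _ ≤ ∑ i, u (0 + a i) := Finset.sum_le_sum fun i _ => hu _
  exact le_of_mul_le_mul_right (h1.trans (ha 0)) hpos

theorem PSet_bddBelow {u : A → ℝ} (hu : Bd u) : BddBelow (PSet u) := by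
  obtain ⟨C, hC⟩ := hu
  exact ⟨-C, fun c hc => PSet_lower (fun x => (abs_le.mp (hC x)).1) hc⟩

theorem PSet_mem_of_le {u : A → ℝ} {C : ℝ} (hu : ∀ x, u x ≤ C) : C ∈ PSet u :=
  ⟨Unit, inferInstance, inferInstance, fun _ => 0, fun x => by simpa using hu x⟩

theorem PSet_nonempty {u : A → ℝ} (hu : Bd u) : (PSet u).Nonempty := by
  obtain ⟨C, hC⟩ := hu
  exact ⟨C, PSet_mem_of_le fun x => (abs_le.mp (hC x)).2⟩

theorem PSet_add {u v : A → ℝ} {c e : ℝ} (hc : c ∈ PSet u) (he : e ∈ PSet v) :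
    c + e ∈ PSet (u + v) := by
  obtain ⟨ι, _, _, a, ha⟩ := hc
  obtain ⟨κ, _, _, b, hb⟩ := he
  refine ⟨ι × κ, inferInstance, inferInstance, fun p => a p.1 + b p.2, fun x => ?_⟩
  have h1 : ∑ p : ι × κ, u (x + (a p.1 + b p.2)) ≤ c * (Fintype.card ι * Fintype.card κ) := by
    rw [Fintype.sum_prod_type_right]
    calc ∑ y, ∑ i, u (x + (a i + b y)) ≤ ∑ _y : κ, c * Fintype.card ι := by
          refine Finset.sum_le_sum fun y _ => ?_
          have := ha (x + b y)
          refine le_trans (le_of_eq ?_) this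
          refine Finset.sum_congr rfl fun i _ => ?_
          congr 1; abel
      _ = c * (Fintype.card ι * Fintype.card κ) := by
          rw [Finset.sum_const, Finset.card_univ, nsmul_eq_mul]; ring
  have h2 : ∑ p : ι × κ, v (x + (a p.1 + b p.2)) ≤ e * (Fintype.card ι * Fintype.card κ) := by
    rw [Fintype.sum_prod_type]
    calc ∑ i, ∑ y, v (x + (a i + b y)) ≤ ∑ _i : ι, e * Fintype.card κ := by
          refine Finset.sum_le_sum fun i _ => ?_
          have := hb (x + a i)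
          refine le_trans (le_of_eq ?_) this
          refine Finset.sum_congr rfl fun y _ => ?_
          congr 1; abel
      _ = e * (Fintype.card ι * Fintype.card κ) := by
          rw [Finset.sum_const, Finset.card_univ, nsmul_eq_mul]; ring
  simp only [Pi.add_apply, Finset.sum_add_distrib, Fintype.card_prod]
  push_cast
  linarith

theorem PSet_smul {u : A → ℝ} {c t : ℝ} (ht : 0 < t) (hc : c ∈ PSet u) : t * c ∈ PSet (t • u) := by
  obtain ⟨ι, _, _, a, ha⟩ := hc
  refine ⟨ι, inferInstance, inferInstance, a, fun x => ?_⟩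
  simp only [Pi.smul_apply, smul_eq_mul, ← Finset.mul_sum]
  calc t * ∑ i, u (x + a i) ≤ t * (c * Fintype.card ι) := mul_le_mul_of_nonneg_left (ha x) ht.le
    _ = t * c * Fintype.card ι := by ring

/-- The sublinear functional. -/
noncomputable def pf (u : A → ℝ) : ℝ := sInf (PSet u)

theorem pf_add {u v : A → ℝ} (hu : Bd u) (hv : Bd v) : pf (u + v) ≤ pf u + pf v := by
  apply le_of_forall_pos_le_add
  intro ε hε
  obtain ⟨c, hc, hc'⟩ := exists_lt_of_csInf_lt (PSet_nonempty hu)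
    (show sInf (PSet u) < pf u + ε / 2 by rw [pf]; linarith)
  obtain ⟨e, he, he'⟩ := exists_lt_of_csInf_lt (PSet_nonempty hv)
    (show sInf (PSet v) < pf v + ε / 2 by rw [pf]; linarith)
  have h1 : pf (u + v) ≤ c + e := csInf_le (PSet_bddBelow (hu.add hv)) (PSet_add hc he)
  linarith

theorem pf_smul_le {u : A → ℝ} (hu : Bd u) {t : ℝ} (ht : 0 < t) : pf (t • u) ≤ t * pf u := by
  apply le_of_forall_pos_le_add
  intro ε hε
  obtain ⟨c, hc, hc'⟩ := exists_lt_of_csInf_lt (PSet_nonempty hu)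
    (show sInf (PSet u) < pf u + ε / t by
      rw [pf]; have := div_pos hε ht; linarith)
  have h1 : pf (t • u) ≤ t * c := csInf_le (PSet_bddBelow (hu.smul t)) (PSet_smul ht hc)
  have h2 : t * c < t * pf u + ε := by
    have h3 := mul_lt_mul_of_pos_left hc' ht
    rw [mul_add, mul_div_cancel₀ _ ht.ne'] at h3
    exact h3
  linarith

theorem pf_smul {u : A → ℝ} (hu : Bd u) {t : ℝ} (ht : 0 < t) : pf (t • u) = t * pf u := by
  apply le_antisymm (pf_smul_le hu ht)
  have h1 := pf_smul_le (hu.smul t) (inv_pos.mpr ht)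
  rw [smul_smul, inv_mul_cancel₀ ht.ne', one_smul] at h1
  calc t * pf u ≤ t * (t⁻¹ * pf (t • u)) := mul_le_mul_of_nonneg_left h1 ht.le
    _ = pf (t • u) := by rw [← mul_assoc, mul_inv_cancel₀ ht.ne', one_mul]

theorem pf_le {u : A → ℝ} (hu : Bd u) {C : ℝ} (h : ∀ x, u x ≤ C) : pf u ≤ C :=
  csInf_le (PSet_bddBelow hu) (PSet_mem_of_le h)

theorem pf_sub_shift {u : A → ℝ} (hu : Bd u) (b : A) :
    pf (fun x => u x - u (x + b)) ≤ 0 := by
  obtain ⟨C, hC⟩ := id hu
  have hbd : Bd (fun x => u x - u (x + b)) := by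
    have h1 := hu.add ((hu.comp fun x => x + b).smul (-1))
    convert h1 using 1
    funext x
    simp [sub_eq_add_neg]
  apply le_of_forall_pos_le_add
  intro ε hε
  rw [zero_add]
  have hC0 : 0 ≤ C := (abs_nonneg _).trans (hC 0)
  obtain ⟨n, hn⟩ := exists_nat_gt (2 * C / ε)
  have hn0 : (0 : ℝ) < n := lt_of_le_of_lt (by positivity) hn
  have hn0' : 0 < n := by exact_mod_cast hn0
  apply csInf_le (PSet_bddBelow hbd)
  have : Nonempty (Fin n) := ⟨⟨0, hn0'⟩⟩
  refine ⟨Fin n, inferInstance, inferInstance, fun i => (i : ℕ) • b, fun x => ?_⟩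
  have h1 : ∑ i : Fin n, (u (x + (i : ℕ) • b) - u (x + (i : ℕ) • b + b)) = u x - u (x + n • b) := by
    rw [Fin.sum_univ_eq_sum_range (fun i => u (x + i • b) - u (x + i • b + b)) n]
    have h2 : ∀ i ∈ Finset.range n, u (x + i • b) - u (x + i • b + b)
        = u (x + i • b) - u (x + (i + 1) • b) := by
      intro i _
      congr 2
      rw [succ_nsmul]; abel
    rw [Finset.sum_congr rfl h2, Finset.sum_range_sub']
    simp
  rw [h1, Fintype.card_fin]
  have h3 := (abs_le.mp (hC x)).2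
  have h4 := (abs_le.mp (hC (x + n • b))).1
  rw [div_lt_iff₀ hε] at hn
  linarith

/-- The submodule of bounded functions. -/
def bdSub (A : Type*) : Submodule ℝ (A → ℝ) where
  carrier := {u | Bd u}
  add_mem' hu hv := Bd.add hu hv
  zero_mem' := Bd.zero
  smul_mem' c _ hu := Bd.smul c hu

theorem exists_mean (A : Type*) [AddCommGroup A] : ∃ M : (A → ℝ) → ℝ, IsMean M ∧
    ∀ u b, Bd u → M (fun x => u (x + b)) = M u := by
  classical
  obtain ⟨g, _, hg⟩ := exists_extension_of_le_sublinear (E := bdSub A)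
    (⟨⊥, 0⟩ : bdSub A →ₗ.[ℝ] ℝ) (fun u => pf u.1)
    (fun c hc u => pf_smul u.2 hc) (fun u v => pf_add u.2 v.2)
    (by
      rintro ⟨x, hx⟩
      rw [Submodule.mem_bot] at hx
      subst hx
      change (0 : ℝ) ≤ pf (0 : A → ℝ)
      apply le_csInf (PSet_nonempty Bd.zero)
      intro c hc
      have := PSet_lower (u := (0 : A → ℝ)) (C := 0) (fun x => by simp) hc
      simpa using this)
  refine ⟨fun u => if h : Bd u then g ⟨u, h⟩ else 0, ⟨?_, ?_, ?_⟩, ?_⟩
  · intro u v hu hv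
    simp only [dif_pos hu, dif_pos hv, dif_pos (hu.add hv)]
    rw [← map_add]
    rfl
  · intro c u hu
    simp only [dif_pos hu, dif_pos (hu.smul c)]
    rw [← smul_eq_mul, ← map_smul]
    rfl
  · intro u C hu h
    simp only [dif_pos hu]
    exact (hg ⟨u, hu⟩).trans (pf_le hu h)
  · intro u b hu
    have hub : Bd (fun x => u (x + b)) := hu.comp _
    simp only [dif_pos hu, dif_pos hub]
    have h1 : ∀ (w : A → ℝ) (hw : Bd w) (c : A) (hwc : Bd fun x => w (x + c)),
        g ⟨w, hw⟩ ≤ g ⟨fun x => w (x + c), hwc⟩ := by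
      intro w hw c hwc
      have h2 : (⟨w, hw⟩ : bdSub A) - ⟨fun x => w (x + c), hwc⟩
          = ⟨fun x => w x - w (x + c), ((⟨w, hw⟩ : bdSub A) - ⟨fun x => w (x + c), hwc⟩).2⟩ := rfl
      have h3 := hg ((⟨w, hw⟩ : bdSub A) - ⟨fun x => w (x + c), hwc⟩)
      have h4 := pf_sub_shift hw c
      rw [map_sub] at h3
      have h5 : pf (((⟨w, hw⟩ : bdSub A) - ⟨fun x => w (x + c), hwc⟩ : bdSub A) : A → ℝ) ≤ 0 := h4
      linarith
    apply le_antisymm
    · have h6 := h1 (fun x => u (x + b)) hub (-b) (hub.comp _)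
      have h7 : (fun x => u (x + -b + b)) = u := by
        funext x; congr 1; abel
      have h8 : (⟨fun x => u (x + -b + b), hub.comp _⟩ : bdSub A) = ⟨u, hu⟩ := Subtype.ext h7
      rw [h8] at h6
      exact h6
    · exact h1 u hu b hub

end Abelian

/-- The group `Gp lam` carries a mean invariant under right translations. -/
theorem exists_mean_Gp (lam : Par) : ∃ M : (Gp lam → ℝ) → ℝ, IsMean M ∧
    ∀ u (b : Gp lam), Bd u → M (fun x => u (x * b)) = M u := by
  obtain ⟨MV, hV, iV⟩ := exists_mean Vh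
  obtain ⟨MZ, hZ, iZ⟩ := exists_mean (ℝ × ℝ)
  have hb : ∀ u : Gp lam → ℝ, Bd u → Bd (fun v => MZ (fun z => u ⟨v, z⟩)) := by
    rintro u ⟨C, hC⟩
    refine ⟨C, fun v => ?_⟩
    rw [abs_le]
    constructor
    · exact hZ.ge _ _ ⟨C, fun z => hC _⟩ fun z => (abs_le.mp (hC _)).1
    · exact hZ.le _ _ ⟨C, fun z => hC _⟩ fun z => (abs_le.mp (hC _)).2
  have hs : ∀ (u : Gp lam → ℝ) (v : Vh), Bd u → Bd (fun z => u ⟨v, z⟩) := fun u v hu => hu.comp _
  refine ⟨fun u => MV (fun v => MZ (fun z => u ⟨v, z⟩)), ⟨?_, ?_, ?_⟩, ?_⟩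
  · intro u w hu hw
    have h1 : (fun v => MZ (fun z => (u + w) ⟨v, z⟩))
        = (fun v => MZ (fun z => u ⟨v, z⟩)) + (fun v => MZ (fun z => w ⟨v, z⟩)) := by
      funext v
      exact hZ.add _ _ (hs u v hu) (hs w v hw)
    change MV (fun v => MZ (fun z => (u + w) ⟨v, z⟩)) = _
    rw [h1, hV.add _ _ (hb u hu) (hb w hw)]
  · intro c u hu
    have h1 : (fun v => MZ (fun z => (c • u) ⟨v, z⟩)) = c • (fun v => MZ (fun z => u ⟨v, z⟩)) := by
      funext v
      exact hZ.smul c _ (hs u v hu)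
    change MV (fun v => MZ (fun z => (c • u) ⟨v, z⟩)) = _
    rw [h1, hV.smul _ _ (hb u hu)]
  · intro u C hu h
    exact hV.le _ _ (hb u hu) fun v => hZ.le _ _ (hs u v hu) fun z => h _
  · intro u b hu
    have h1 : ∀ v : Vh, MZ (fun z => u ((⟨v, z⟩ : Gp lam) * b)) = MZ (fun z => u ⟨v + b.v, z⟩) := by
      intro v
      have h2 : (fun z => u ((⟨v, z⟩ : Gp lam) * b))
          = fun z => (fun z' => u ⟨v + b.v, z'⟩) (z + (b.z + om lam v b.v)) := by
        funext z
        congr 1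
        ext1
        · rfl
        · simp only [Gp.mul_z]; abel
      rw [h2]
      exact iZ (fun z' => u ⟨v + b.v, z'⟩) (b.z + om lam v b.v) (hs u _ hu)
    have h3 : (fun v => MZ (fun z => u ((⟨v, z⟩ : Gp lam) * b)))
        = fun v => (fun v' => MZ (fun z => u ⟨v', z⟩)) (v + b.v) := by
      funext v; exact h1 v
    change MV (fun v => MZ (fun z => u ((⟨v, z⟩ : Gp lam) * b))) = _
    rw [h3]
    exact iV _ b.v (hb u hu)

end Pool.Agent.Lib.MP_616471_al
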