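import Mathlib
import Pool.Agent.Lib.MP_616471_al.Mean

/-!
# Coarse differentiation

A coarsely Lipschitz vector valued function on `Gp lam` is, at some place and some scale,
close to affine along all horizontal words of bounded length.
-/

namespace Pool.Agent.Lib.MP_616471_al

open Gp

variable {lam : Par}

/-- The horizontal element of length `t` in direction `j`. -/
noncomputable def el (t : ℝ) (j : J) : Gp lam := hor (Pi.single j t)

theorem el_pow (t : ℝ) (j : J) (n : ℕ) : (el t j : Gp lam) ^ n = el (n * t) j := by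
  rw [el, hor_pow, el, ← Pi.single_smul]
  rfl

theorem el_inv (t : ℝ) (j : J) : (el t j : Gp lam)⁻¹ = el (-t) j := by
  rw [el, hor_inv, el, ← Pi.single_neg]

@[simp] theorem N_el (t : ℝ) (j : J) : N (el t j : Gp lam) = |t| := by
  rw [el, N_hor, Pi.norm_single, Real.norm_eq_abs]

open Classical in
/-- Words of length at most `n` in the letters `el (± k) j`. -/
noncomputable def Wd (lam : Par) (k : ℝ) : ℕ → Finset (Gp lam)
  | 0 => {1}
  | n + 1 => Wd lam k n ∪ (((Wd lam k n) ×ˢ (Finset.univ : Finset J)).image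
      (fun p => p.1 * el k p.2)) ∪ (((Wd lam k n) ×ˢ (Finset.univ : Finset J)).image
      (fun p => p.1 * el (-k) p.2))

theorem card_Wd (k : ℝ) (n : ℕ) : (Wd lam k n).card ≤ 17 ^ n := by
  classical
  induction n with
  | zero => simp [Wd]
  | succ n ih =>
    have hJ : (Finset.univ : Finset J).card = 8 := by
      rw [Finset.card_univ, Fintype.card_prod, Fintype.card_fin, Fintype.card_fin]
    have h1 : (((Wd lam k n) ×ˢ (Finset.univ : Finset J)).image
        (fun p => p.1 * el k p.2)).card ≤ (Wd lam k n).card * 8 := by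
      refine Finset.card_image_le.trans ?_
      rw [Finset.card_product, hJ]
    have h2 : (((Wd lam k n) ×ˢ (Finset.univ : Finset J)).image
        (fun p => p.1 * el (-k) p.2)).card ≤ (Wd lam k n).card * 8 := by
      refine Finset.card_image_le.trans ?_
      rw [Finset.card_product, hJ]
    rw [Wd]
    refine (Finset.card_union_le _ _).trans ?_
    have h3 := Finset.card_union_le (Wd lam k n) (((Wd lam k n) ×ˢ (Finset.univ : Finset J)).image
        (fun p => p.1 * el k p.2))
    rw [pow_succ]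
    omega

theorem one_mem_Wd (k : ℝ) (n : ℕ) : (1 : Gp lam) ∈ Wd lam k n := by
  classical
  induction n with
  | zero => simp [Wd]
  | succ n ih =>
    rw [Wd]
    exact Finset.mem_union_left _ (Finset.mem_union_left _ ih)

theorem N_Wd {k : ℝ} (hk : 0 ≤ k) {n : ℕ} {w : Gp lam} (hw : w ∈ Wd lam k n) : N w ≤ n * k := by
  classical
  induction n generalizing w with
  | zero =>
    rw [Wd, Finset.mem_singleton] at hw
    subst hw
    simp
  | succ n ih =>
    rw [Wd, Finset.mem_union, Finset.mem_union, Finset.mem_image, Finset.mem_image] at hw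
    push_cast
    rcases hw with (hw | ⟨p, hp, rfl⟩) | ⟨p, hp, rfl⟩
    · have := ih hw
      linarith
    · rw [Finset.mem_product] at hp
      have h1 := ih hp.1
      have h2 := N_mul_le p.1 (el k p.2)
      rw [N_el, abs_of_nonneg hk] at h2
      linarith
    · rw [Finset.mem_product] at hp
      have h1 := ih hp.1
      have h2 := N_mul_le p.1 (el (-k) p.2)
      rw [N_el, abs_neg, abs_of_nonneg hk] at h2
      linarith

theorem Wd_mul_pos {k : ℝ} {n : ℕ} {w : Gp lam} (hw : w ∈ Wd lam k n) (j : J) :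
    w * el k j ∈ Wd lam k (n + 1) := by
  classical
  rw [Wd]
  apply Finset.mem_union_left
  apply Finset.mem_union_right
  rw [Finset.mem_image]
  exact ⟨(w, j), by simp [hw], rfl⟩

theorem Wd_mul_neg {k : ℝ} {n : ℕ} {w : Gp lam} (hw : w ∈ Wd lam k n) (j : J) :
    w * el (-k) j ∈ Wd lam k (n + 1) := by
  classical
  rw [Wd]
  apply Finset.mem_union_right
  rw [Finset.mem_image]
  exact ⟨(w, j), by simp [hw], rfl⟩

theorem Wd_mono {k : ℝ} {m n : ℕ} (h : m ≤ n) : Wd lam k m ⊆ Wd lam k n := by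
  classical
  induction h with
  | refl => exact Finset.Subset.refl _
  | step _ ih =>
    refine ih.trans ?_
    intro w hw
    rw [Wd]
    exact Finset.mem_union_left _ (Finset.mem_union_left _ hw)

/-- Conjugation by a horizontal element moves a point sublinearly. -/
theorem N_conj_el {w : Gp lam} {t : ℝ} (ht : 0 ≤ t) (j : J) :
    N ((el t j)⁻¹ * w * el t j) ≤ N w + √(2 * ‖w.v‖ * t) := by
  have h0 := N_nonneg w
  have h1 := Real.sqrt_nonneg (2 * ‖w.v‖ * t)
  rw [N_le_iff (by positivity)]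
  constructor
  · have h2 : ((el t j)⁻¹ * w * el t j).v = w.v := by
      simp only [el, mul_v, inv_v, hor_v]; abel
    rw [h2]
    have := norm_v_le w
    linarith
  · have h2 : ((el t j)⁻¹ * w * el t j).z = w.z + (2 : ℝ) • om lam w.v (Pi.single j t) := by
      simp only [el, mul_z, mul_v, inv_v, inv_z, hor_v, hor_z, om_add_left, om_neg_left, om_self,
        om_swap lam w.v (Pi.single j t), neg_neg, neg_zero, zero_add, add_zero, two_smul]
      abel
    rw [h2]
    have h3 : ‖(2 : ℝ) • om lam w.v (Pi.single j t)‖ ≤ 2 * ‖w.v‖ * t := by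
      rw [norm_smul, Real.norm_eq_abs, abs_of_pos (by norm_num : (0:ℝ) < 2), mul_assoc]
      refine mul_le_mul_of_nonneg_left ?_ (by norm_num)
      have := norm_om_le lam w.v (Pi.single j t)
      rwa [Pi.norm_single, Real.norm_eq_abs, abs_of_nonneg ht] at this
    calc ‖w.z + (2 : ℝ) • om lam w.v (Pi.single j t)‖
        ≤ ‖w.z‖ + ‖(2 : ℝ) • om lam w.v (Pi.single j t)‖ := norm_add_le _ _
      _ ≤ N w ^ 2 + 2 * ‖w.v‖ * t := add_le_add (norm_z_le w) h3
      _ = N w ^ 2 + √(2 * ‖w.v‖ * t) ^ 2 := by rw [Real.sq_sqrt (by positivity)]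
      _ ≤ (N w + √(2 * ‖w.v‖ * t)) ^ 2 := by nlinarith [mul_nonneg h0 h1]

/-- The variance identity. -/
theorem variance_id (x : ℕ → ℝ) {q : ℕ} (hq : 0 < q) :
    ∑ i ∈ Finset.range q, (x i - (∑ i ∈ Finset.range q, x i) / q) ^ 2
      = ∑ i ∈ Finset.range q, x i ^ 2 - (∑ i ∈ Finset.range q, x i) ^ 2 / q := by
  have hq' : (q : ℝ) ≠ 0 := by exact_mod_cast hq.ne'
  set S := ∑ i ∈ Finset.range q, x i with hS
  have h1 : ∀ i, (x i - S / q) ^ 2 = x i ^ 2 - 2 * (S / q) * x i + (S / q) ^ 2 := fun i => by ring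
  simp only [h1]
  rw [Finset.sum_add_distrib, Finset.sum_sub_distrib, ← Finset.mul_sum, ← hS, Finset.sum_const,
    Finset.card_range, nsmul_eq_mul]
  field_simp
  ring

section Diff

variable (F : Gp lam → J → ℝ)

/-- Increments. -/
noncomputable def De (t : ℝ) (j c : J) (g : Gp lam) : ℝ := F (g * el t j) c - F g c

theorem De_sum (k : ℝ) (q : ℕ) (j c : J) (g : Gp lam) :
    ∑ i ∈ Finset.range q, De F k j c (g * (el k j) ^ i) = De F (q * k) j c g := by
  have h1 : ∀ i, De F k j c (g * (el k j) ^ i)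
      = (fun i => F (g * (el k j) ^ i) c) (i + 1) - (fun i => F (g * (el k j) ^ i) c) i := by
    intro i
    simp only [De, pow_succ, mul_assoc]
  simp only [h1]
  rw [Finset.sum_range_sub (fun i => F (g * (el k j) ^ i) c), De, el_pow, pow_zero, mul_one]

/-- The variance along a segment. -/
noncomputable def Va (k : ℝ) (q : ℕ) (j c : J) (g : Gp lam) : ℝ :=
  ∑ i ∈ Finset.range q, (De F k j c (g * (el k j) ^ i) - De F (q * k) j c g / q) ^ 2

theorem Va_eq (k : ℝ) {q : ℕ} (hq : 0 < q) (j c : J) (g : Gp lam) :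
    Va F k q j c g = ∑ i ∈ Finset.range q, De F k j c (g * (el k j) ^ i) ^ 2
      - De F (q * k) j c g ^ 2 / q := by
  rw [Va, ← De_sum F k q j c g]
  exact variance_id (fun i => De F k j c (g * (el k j) ^ i)) hq

theorem le_Va (k : ℝ) {q : ℕ} (hq : 0 < q) (j c : J) (g : Gp lam) :
    (De F k j c g - De F (q * k) j c g / q) ^ 2 ≤ Va F k q j c g := by
  rw [Va]
  have h1 : (De F k j c g - De F (q * k) j c g / q) ^ 2
      = (fun i => (De F k j c (g * (el k j) ^ i) - De F (q * k) j c g / q) ^ 2) 0 := by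
    simp
  rw [h1]
  exact Finset.single_le_sum (f := fun i =>
    (De F k j c (g * (el k j) ^ i) - De F (q * k) j c g / q) ^ 2)
    (fun i _ => sq_nonneg _) (Finset.mem_range.mpr hq)

theorem Va_nonneg (k : ℝ) (q : ℕ) (j c : J) (g : Gp lam) : 0 ≤ Va F k q j c g :=
  Finset.sum_nonneg fun _ _ => sq_nonneg _

theorem le_sum_Va (k : ℝ) (q : ℕ) (j c : J) (g w : Gp lam) :
    Va F k q j c (g * w) ≤ ∑ p : J × J, Va F k q p.1 p.2 (g * w) := by
  have h : ∀ p : J × J, p ∈ (Finset.univ : Finset (J × J)) →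
      0 ≤ Va F k q p.1 p.2 (g * w) := fun p _ => Va_nonneg F _ _ _ _ _
  exact Finset.single_le_sum (f := fun p : J × J => Va F k q p.1 p.2 (g * w)) (a := (j, c)) h
    (Finset.mem_univ _)

variable {F} {K C : ℝ} (hF : ∀ g h c, |F g c - F h c| ≤ K * d g h + C)

include hF

theorem abs_De_le {t : ℝ} (ht : 0 ≤ t) (j c : J) (g : Gp lam) : |De F t j c g| ≤ K * t + C := by
  have h := hF (g * el t j) g c
  rw [d_comm, d_mul_right_self, N_el, abs_of_nonneg ht] at h
  exact h

theorem bd_De_sq {t : ℝ} (ht : 0 ≤ t) (j c : J) : Bd (fun g => De F t j c g ^ 2) := by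
  refine ⟨(K * t + C) ^ 2, fun g => ?_⟩
  rw [abs_of_nonneg (sq_nonneg _)]
  exact sq_le_sq' (abs_le.mp (abs_De_le hF ht j c g)).1 (abs_le.mp (abs_De_le hF ht j c g)).2

theorem bd_Va {k : ℝ} (hk : 0 ≤ k) {q : ℕ} (hq : 0 < q) (j c : J) :
    Bd (fun g => Va F k q j c g) := by
  have h1 : Bd (∑ i ∈ Finset.range q, fun g => De F k j c (g * (el k j) ^ i) ^ 2) :=
    Bd.sum _ fun i _ => (bd_De_sq hF hk j c).comp fun g => g * (el k j) ^ i
  have h2 := h1.add ((bd_De_sq hF (t := q * k) (by positivity) j c).smul (-(1 / (q : ℝ))))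
  convert h2 using 1
  funext g
  rw [Va_eq F k hq]
  simp only [Pi.add_apply, Finset.sum_apply, Pi.smul_apply, smul_eq_mul]
  ring

theorem mean_Va {M : (Gp lam → ℝ) → ℝ} (hM : IsMean M)
    (hi : ∀ u (b : Gp lam), Bd u → M (fun x => u (x * b)) = M u)
    {k : ℝ} (hk : 0 ≤ k) {q : ℕ} (hq : 0 < q) (j c : J) :
    M (fun g => Va F k q j c g) = q * M (fun g => De F k j c g ^ 2)
      - M (fun g => De F (q * k) j c g ^ 2) / q := by
  have hb1 := bd_De_sq hF hk j c
  have hb2 := bd_De_sq hF (t := q * k) (by positivity) j c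
  have h1 : (fun g => Va F k q j c g)
      = (∑ i ∈ Finset.range q, fun g => De F k j c (g * (el k j) ^ i) ^ 2)
        + (-(1 / (q : ℝ))) • (fun g => De F (q * k) j c g ^ 2) := by
    funext g
    rw [Va_eq F k hq]
    simp only [Pi.add_apply, Finset.sum_apply, Pi.smul_apply, smul_eq_mul]
    ring
  have hbi : ∀ i ∈ Finset.range q, Bd (fun g => De F k j c (g * (el k j) ^ i) ^ 2) :=
    fun i _ => hb1.comp fun g => g * (el k j) ^ i
  rw [h1, hM.add _ _ (Bd.sum _ hbi) (hb2.smul _), hM.sum _ _ hbi, hM.smul _ _ hb2]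
  have h2 : ∀ i ∈ Finset.range q, M (fun g => De F k j c (g * (el k j) ^ i) ^ 2)
      = M (fun g => De F k j c g ^ 2) := fun i _ =>
    hi (fun g => De F k j c g ^ 2) ((el k j) ^ i) hb1
  rw [Finset.sum_congr rfl h2, Finset.sum_const, Finset.card_range, nsmul_eq_mul]
  ring

/-- Choice of a good scale. -/
theorem exists_scale {M : (Gp lam → ℝ) → ℝ} (hM : IsMean M)
    (hi : ∀ u (b : Gp lam), Bd u → M (fun x => u (x * b)) = M u)
    {q : ℕ} (hq : 0 < q) {ε : ℝ} (hε : 0 < ε) :
    ∃ t : ℕ, ∑ p : J × J, M (fun g => Va F ((q : ℝ) ^ t) q p.1 p.2 g)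
      < q * ((q : ℝ) ^ t) ^ 2 * ε := by
  set E : ℕ → ℝ := fun t => ∑ p : J × J, M (fun g => De F ((q : ℝ) ^ t) p.1 p.2 g ^ 2)
    / ((q : ℝ) ^ t) ^ 2 with hE
  have hq' : (0 : ℝ) < q := by exact_mod_cast hq
  have hqt : ∀ t : ℕ, (0 : ℝ) < (q : ℝ) ^ t := fun t => pow_pos hq' t
  have hdiff : ∀ t, ∑ p : J × J, M (fun g => Va F ((q : ℝ) ^ t) q p.1 p.2 g)
      = q * ((q : ℝ) ^ t) ^ 2 * (E t - E (t + 1)) := by
    intro t
    rw [hE]
    simp only
    rw [← Finset.sum_sub_distrib, Finset.mul_sum]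
    refine Finset.sum_congr rfl fun p _ => ?_
    rw [mean_Va hF hM hi (hqt t).le hq, pow_succ (q : ℝ) t, mul_comm ((q : ℝ) ^ t) (q : ℝ)]
    have h1 := (hqt t).ne'
    have h2 := hq'.ne'
    field_simp
  have hnn : ∀ t, 0 ≤ E t - E (t + 1) := by
    intro t
    have h1 : 0 ≤ ∑ p : J × J, M (fun g => Va F ((q : ℝ) ^ t) q p.1 p.2 g) :=
      Finset.sum_nonneg fun p _ => hM.ge _ _ (bd_Va hF (hqt t).le hq _ _)
        fun g => Va_nonneg F _ _ _ _ _
    rw [hdiff] at h1
    have h2 : 0 < q * ((q : ℝ) ^ t) ^ 2 := by have := hqt t; positivity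
    exact nonneg_of_mul_nonneg_right h1 h2
  have hE0 : ∀ t, 0 ≤ E t := by
    intro t
    refine Finset.sum_nonneg fun p _ => div_nonneg ?_ (sq_nonneg _)
    exact hM.ge _ _ (bd_De_sq hF (hqt t).le _ _) fun g => sq_nonneg _
  obtain ⟨t, ht⟩ : ∃ t, E t - E (t + 1) < ε := by
    by_contra hcon
    push Not at hcon
    have h1 : ∀ t : ℕ, E t ≤ E 0 - t * ε := by
      intro t
      induction t with
      | zero => simp
      | succ t ih =>
        have := hcon t
        push_cast
        linarith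
    obtain ⟨t, ht⟩ := exists_nat_gt (E 0 / ε)
    rw [div_lt_iff₀ hε] at ht
    have := h1 t
    have := hE0 t
    linarith
  refine ⟨t, ?_⟩
  rw [hdiff]
  have h2 : 0 < q * ((q : ℝ) ^ t) ^ 2 := by have := hqt t; positivity
  exact mul_lt_mul_of_pos_left ht h2

theorem coarse_diff (hK : 0 ≤ K) (hC : 0 ≤ C) (n : ℕ) {δ : ℝ} (hδ : 0 < δ) :
    ∃ k : ℝ, 1 ≤ k ∧ ∃ (g : Gp lam) (a : J → J → ℝ), (∀ j c, |a j c| ≤ K + C) ∧
      ∀ w ∈ Wd lam k n, ∀ j c,
        |F (g * w * el k j) c - F (g * w) c - k * a j c| ≤ δ * k := by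
  obtain ⟨M, hM, hi⟩ := exists_mean_Gp lam
  -- choice of q
  obtain ⟨q₀, hq₀⟩ := exists_nat_ge (16 * K * n / δ + 128 * K ^ 2 * n / δ ^ 2 + 16 * C / δ)
  set q : ℕ := q₀ + 1 with hqdef
  have hq : 0 < q := Nat.succ_pos _
  have hq' : (0 : ℝ) < q := by exact_mod_cast hq
  have hqge : 16 * K * n / δ + 128 * K ^ 2 * n / δ ^ 2 + 16 * C / δ ≤ q := by
    rw [hqdef]; push_cast; linarith
  have hA : 0 ≤ 16 * K * n / δ := by positivity
  have hB : 0 ≤ 128 * K ^ 2 * n / δ ^ 2 := by positivity
  have hD : 0 ≤ 16 * C / δ := by positivity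
  have hq1 : 16 * K * n ≤ q * δ := by
    rw [← div_le_iff₀ hδ]; linarith
  have hq2 : 128 * K ^ 2 * n ≤ q * δ ^ 2 := by
    rw [← div_le_iff₀ (by positivity)]; linarith
  have hq3 : 16 * C ≤ q * δ := by
    rw [← div_le_iff₀ hδ]; linarith
  set ε : ℝ := δ ^ 2 / (4 * 17 ^ n * q) with hε
  have hε0 : 0 < ε := by positivity
  obtain ⟨t, ht⟩ := exists_scale hF hM hi hq hε0
  set k : ℝ := (q : ℝ) ^ t with hk
  have hq1' : (1 : ℝ) ≤ q := by exact_mod_cast hq
  have hk1 : 1 ≤ k := one_le_pow₀ hq1'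
  have hk0 : 0 < k := by linarith
  -- find g
  have hbV : ∀ (p : J × J) (w : Gp lam), Bd (fun g => Va F k q p.1 p.2 (g * w)) := fun p w =>
    (bd_Va hF hk0.le hq p.1 p.2).comp fun g => g * w
  set U : Gp lam → ℝ := ∑ w ∈ Wd lam k n, ∑ p : J × J, fun g => Va F k q p.1 p.2 (g * w) with hU
  have hbU : Bd U := Bd.sum _ fun w _ => Bd.sum _ fun p _ => hbV p w
  have hMU : M U < q * k ^ 2 * ε * 17 ^ n := by
    have h1 : M U = (Wd lam k n).card * ∑ p : J × J, M (fun g => Va F k q p.1 p.2 g) := by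
      rw [hU, hM.sum _ _ fun w _ => Bd.sum _ fun p _ => hbV p w]
      have h2 : ∀ w ∈ Wd lam k n, M (∑ p : J × J, fun g => Va F k q p.1 p.2 (g * w))
          = ∑ p : J × J, M (fun g => Va F k q p.1 p.2 g) := by
        intro w _
        rw [hM.sum _ _ fun p _ => hbV p w]
        exact Finset.sum_congr rfl fun p _ => hi _ w (bd_Va hF hk0.le hq p.1 p.2)
      rw [Finset.sum_congr rfl h2, Finset.sum_const, nsmul_eq_mul]
    rw [h1]
    have h3 : 0 ≤ ∑ p : J × J, M (fun g => Va F k q p.1 p.2 g) :=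
      Finset.sum_nonneg fun p _ => hM.ge _ _ (bd_Va hF hk0.le hq _ _)
        fun g => Va_nonneg F _ _ _ _ _
    have h4 : ((Wd lam k n).card : ℝ) ≤ 17 ^ n := by exact_mod_cast card_Wd (lam := lam) k n
    calc ((Wd lam k n).card : ℝ) * ∑ p : J × J, M (fun g => Va F k q p.1 p.2 g)
        ≤ 17 ^ n * ∑ p : J × J, M (fun g => Va F k q p.1 p.2 g) :=
          mul_le_mul_of_nonneg_right h4 h3
      _ < 17 ^ n * (q * k ^ 2 * ε) := mul_lt_mul_of_pos_left ht (by positivity)
      _ = q * k ^ 2 * ε * 17 ^ n := by ring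
  obtain ⟨g, hg⟩ : ∃ g, U g < q * k ^ 2 * ε * 17 ^ n := by
    by_contra hcon
    push Not at hcon
    exact absurd (hM.ge _ _ hbU hcon) (not_le.mpr hMU)
  have hconst : q * k ^ 2 * ε * 17 ^ n = (δ * k / 2) ^ 2 := by
    rw [hε]
    field_simp
    ring
  rw [hconst] at hg
  have hstep : ∀ w ∈ Wd lam k n, ∀ j c,
      |De F k j c (g * w) - De F (q * k) j c (g * w) / q| ≤ δ * k / 2 := by
    intro w hw j c
    have h1 : Va F k q j c (g * w) ≤ U g := by
      have hUg : U g = ∑ w ∈ Wd lam k n, ∑ p : J × J, Va F k q p.1 p.2 (g * w) := by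
        rw [hU, Finset.sum_apply]
        exact Finset.sum_congr rfl fun w _ => Finset.sum_apply _ _ _
      rw [hUg]
      exact (le_sum_Va F k q j c g w).trans
        (Finset.single_le_sum (f := fun w => ∑ p : J × J, Va F k q p.1 p.2 (g * w)) (a := w)
          (fun w _ => Finset.sum_nonneg fun p _ => Va_nonneg F _ _ _ _ _) hw)
    have h2 := (le_Va F k hq j c (g * w)).trans (h1.trans hg.le)
    have h3 : |De F k j c (g * w) - De F (q * k) j c (g * w) / q| ≤ |δ * k / 2| :=
      sq_le_sq.mp h2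
    rwa [abs_of_pos (by positivity : 0 < δ * k / 2)] at h3
  refine ⟨k, hk1, g, fun j c => De F (q * k) j c g / (q * k), ?_, ?_⟩
  · intro j c
    have h1 := abs_De_le hF (t := q * k) (by positivity) j c g
    rw [abs_div, abs_of_pos (by positivity : 0 < q * k), div_le_iff₀ (by positivity)]
    have h2 : 1 ≤ (q : ℝ) * k := by nlinarith
    nlinarith
  · intro w hw j c
    have h1 := hstep w hw j c
    have h2 : |De F (q * k) j c (g * w) / q - De F (q * k) j c g / q| ≤ δ * k / 2 := by
      have hqk : 0 ≤ (q : ℝ) * k := by positivity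
      have e1 : De F (q * k) j c (g * w) / q - De F (q * k) j c g / q
          = ((F (g * w * el (q * k) j) c - F (g * el (q * k) j) c)
            - (F (g * w) c - F g c)) / q := by
        simp only [De]; ring
      rw [e1, abs_div, abs_of_pos hq', div_le_iff₀ hq']
      have h3 := hF (g * w * el (q * k) j) (g * el (q * k) j) c
      have h4 := hF (g * w) g c
      have hNw : N w ≤ n * k := N_Wd hk0.le hw
      have h5 : d (g * w) g ≤ n * k := by
        rw [d_comm, d_mul_right_self]; exact hNw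
      have h6 : d (g * w * el (q * k) j) (g * el (q * k) j) ≤ n * k + √(2 * (n * k) * (q * k)) := by
        rw [d_comm]
        have e2 : d (g * el (q * k) j) (g * w * el (q * k) j)
            = N ((el (q * k) j)⁻¹ * w * el (q * k) j) := by
          rw [d]; congr 1; group
        rw [e2]
        refine (N_conj_el hqk j).trans (add_le_add hNw ?_)
        apply Real.sqrt_le_sqrt
        have h7 := (norm_v_le w).trans hNw
        refine mul_le_mul_of_nonneg_right ?_ hqk
        linarith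
      have h7 : K * √(2 * (n * k) * (q * k)) ≤ q * k * (δ / 8) := by
        have h8 : (K * √(2 * (n * k) * (q * k))) ^ 2 ≤ (q * k * (δ / 8)) ^ 2 := by
          rw [mul_pow, Real.sq_sqrt (by positivity)]
          have h9 : 0 ≤ (q : ℝ) * k ^ 2 := by positivity
          nlinarith [mul_le_mul_of_nonneg_left hq2 h9]
        exact (abs_le_of_sq_le_sq' h8 (by positivity)).2
      have h8 : K * (n * k) ≤ q * k * (δ / 16) := by nlinarith
      have h9 : C ≤ q * k * (δ / 16) := by nlinarith [mul_nonneg hq'.le hδ.le]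
      have h10 : K * d (g * w * el (q * k) j) (g * el (q * k) j)
          ≤ K * (n * k + √(2 * (n * k) * (q * k))) := mul_le_mul_of_nonneg_left h6 hK
      have h11 : K * d (g * w) g ≤ K * (n * k) := mul_le_mul_of_nonneg_left h5 hK
      calc |(F (g * w * el (q * k) j) c - F (g * el (q * k) j) c) - (F (g * w) c - F g c)|
          ≤ |F (g * w * el (q * k) j) c - F (g * el (q * k) j) c| + |F (g * w) c - F g c| :=
            abs_sub _ _
        _ ≤ δ * k / 2 * q := by nlinarith
    have e3 : F (g * w * el k j) c - F (g * w) c - k * (De F (q * k) j c g / (q * k))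
        = (De F k j c (g * w) - De F (q * k) j c (g * w) / q)
          + (De F (q * k) j c (g * w) / q - De F (q * k) j c g / q) := by
      have e4 : k * (De F (q * k) j c g / (q * k)) = De F (q * k) j c g / q := by
        field_simp
      have e5 : De F k j c (g * w) = F (g * w * el k j) c - F (g * w) c := rfl
      rw [e4, e5]
      ring
    rw [e3]
    calc _ ≤ _ := abs_add_le _ _
      _ ≤ δ * k := by linarith

end Diff

end Pool.Agent.Lib.MP_616471_al
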