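import Mathlib
import Pool.Agent.Lib.MP_616471_al.CoarseDiff

/-!
# Blow-up of a quasi-isometry between the groups `Gp lam`
-/

namespace Pool.Agent.Lib.MP_616471_al

open Gp Filter Topology

variable {lam lam' : Par}

theorem dil_el (s t : ℝ) (j : J) : dil s (el t j : Gp lam) = el (s * t) j := by
  rw [el, dil_hor, el, ← Pi.single_smul]
  rfl

/-- Parallel words: `w` is a word of length `n` in the unit horizontal letters, `u` the
corresponding word in the horizontal letters `hor (± a j)`. -/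
inductive Wp (a : J → Vh) : ℕ → Gp lam → Gp lam' → Prop
  | nil : Wp a 0 1 1
  | pos {n : ℕ} {w : Gp lam} {u : Gp lam'} (j : J) : Wp a n w u →
      Wp a (n + 1) (w * el 1 j) (u * hor (a j))
  | neg {n : ℕ} {w : Gp lam} {u : Gp lam'} (j : J) : Wp a n w u →
      Wp a (n + 1) (w * el (-1) j) (u * hor (-a j))

theorem Wp.mul {a : J → Vh} {m n : ℕ} {w w' : Gp lam} {u u' : Gp lam'} (h : Wp a m w u)
    (h' : Wp a n w' u') : Wp a (m + n) (w * w') (u * u') := by
  induction h' with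
  | nil => rw [mul_one, mul_one]; exact h
  | pos j _ ih => rw [← mul_assoc, ← mul_assoc, ← add_assoc]; exact Wp.pos j ih
  | neg j _ ih => rw [← mul_assoc, ← mul_assoc, ← add_assoc]; exact Wp.neg j ih

theorem Wp.mem_Wd {a : J → Vh} {n : ℕ} {w : Gp lam} {u : Gp lam'} (h : Wp a n w u) (k : ℝ) :
    dil k w ∈ Wd lam k n := by
  induction h with
  | nil => rw [dil_one']; exact one_mem_Wd _ _
  | pos j _ ih =>
    rw [dil_mul, dil_el, mul_one]
    exact Wd_mul_pos ih j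
  | neg j _ ih =>
    rw [dil_mul, dil_el, mul_neg_one]
    exact Wd_mul_neg ih j

/-- One step of the comparison between a path and its affine model. -/
theorem step_bound {k δ K' T : ℝ} (hk : 0 ≤ k) (hδ1 : δ ≤ 1) (hK' : 1 ≤ K')
    (hTδ : T * δ ≤ 1)
    {b κ : Vh} (hb : ‖b‖ ≤ K') (hκ : ‖κ‖ ≤ δ * k) {E P : Gp lam'} (hPv : P.v = k • b + κ)
    (hPz : ‖P.z‖ ≤ (K' * k) ^ 2) (hEv : ‖E.v‖ ≤ T * (δ * k)) (hEz : ‖E.z‖ ≤ 7 * K' ^ 2 * k ^ 2 * T) :
    ‖(hor (-(k • b)) * E * P).v‖ ≤ (T + 1) * (δ * k) ∧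
      ‖(hor (-(k • b)) * E * P).z‖ ≤ 7 * K' ^ 2 * k ^ 2 * (T + 1) := by
  have hEk : ‖E.v‖ ≤ k := by
    calc ‖E.v‖ ≤ T * (δ * k) := hEv
      _ = (T * δ) * k := by ring
      _ ≤ 1 * k := mul_le_mul_of_nonneg_right hTδ hk
      _ = k := one_mul k
  have hκk : ‖κ‖ ≤ k := by
    calc ‖κ‖ ≤ δ * k := hκ
      _ ≤ 1 * k := mul_le_mul_of_nonneg_right hδ1 hk
      _ = k := one_mul k
  have hkb : ‖k • b‖ ≤ K' * k := by
    rw [norm_smul, Real.norm_eq_abs, abs_of_nonneg hk, mul_comm]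
    exact mul_le_mul_of_nonneg_right hb hk
  constructor
  · have h1 : (hor (-(k • b)) * E * P).v = E.v + κ := by
      simp only [mul_v, hor_v, hPv]; abel
    rw [h1]
    calc ‖E.v + κ‖ ≤ ‖E.v‖ + ‖κ‖ := norm_add_le _ _
      _ ≤ T * (δ * k) + δ * k := add_le_add hEv hκ
      _ = (T + 1) * (δ * k) := by ring
  · have h1 : (hor (-(k • b)) * E * P).z = E.z + P.z + (-om lam' (k • b) E.v)
        + (-om lam' (k • b) κ) + om lam' E.v (k • b) + om lam' E.v κ := by
      simp only [mul_z, mul_v, hor_v, hor_z, hPv, om_add_left, om_add_right, om_neg_left,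
        om_self, neg_zero, zero_add]
      abel
    rw [h1]
    have e1 : ‖om lam' (k • b) E.v‖ ≤ K' * k ^ 2 := by
      refine (norm_om_le _ _ _).trans ?_
      calc ‖k • b‖ * ‖E.v‖ ≤ (K' * k) * k :=
            mul_le_mul hkb hEk (norm_nonneg _) (by positivity)
        _ = K' * k ^ 2 := by ring
    have e2 : ‖om lam' (k • b) κ‖ ≤ K' * k ^ 2 := by
      refine (norm_om_le _ _ _).trans ?_
      calc ‖k • b‖ * ‖κ‖ ≤ (K' * k) * k :=
            mul_le_mul hkb hκk (norm_nonneg _) (by positivity)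
        _ = K' * k ^ 2 := by ring
    have e3 : ‖om lam' E.v (k • b)‖ ≤ K' * k ^ 2 := by
      refine (norm_om_le _ _ _).trans ?_
      calc ‖E.v‖ * ‖k • b‖ ≤ k * (K' * k) :=
            mul_le_mul hEk hkb (norm_nonneg _) hk
        _ = K' * k ^ 2 := by ring
    have e4 : ‖om lam' E.v κ‖ ≤ k ^ 2 := by
      refine (norm_om_le _ _ _).trans ?_
      calc ‖E.v‖ * ‖κ‖ ≤ k * k := mul_le_mul hEk hκk (norm_nonneg _) hk
        _ = k ^ 2 := by ring
    have n1 := norm_add_le (E.z + P.z + (-om lam' (k • b) E.v) + (-om lam' (k • b) κ)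
      + om lam' E.v (k • b)) (om lam' E.v κ)
    have n2 := norm_add_le (E.z + P.z + (-om lam' (k • b) E.v) + (-om lam' (k • b) κ))
      (om lam' E.v (k • b))
    have n3 := norm_add_le (E.z + P.z + (-om lam' (k • b) E.v)) (-om lam' (k • b) κ)
    have n4 := norm_add_le (E.z + P.z) (-om lam' (k • b) E.v)
    have n5 := norm_add_le E.z P.z
    rw [norm_neg] at n3 n4
    have hk2 : 0 ≤ k ^ 2 := sq_nonneg k
    have hKK : K' ≤ K' ^ 2 := by nlinarith
    have hK1 : 1 ≤ K' ^ 2 := by nlinarith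
    have m1 : K' * k ^ 2 ≤ K' ^ 2 * k ^ 2 := mul_le_mul_of_nonneg_right hKK hk2
    have m2 : k ^ 2 ≤ K' ^ 2 * k ^ 2 := by nlinarith
    have m3 : (K' * k) ^ 2 = K' ^ 2 * k ^ 2 := by ring
    rw [m3] at hPz
    have m4 : 7 * K' ^ 2 * k ^ 2 * (T + 1) = 7 * K' ^ 2 * k ^ 2 * T + 7 * (K' ^ 2 * k ^ 2) := by
      ring
    have m5 : 0 ≤ K' ^ 2 * k ^ 2 := by positivity
    rw [m4]
    linarith

section Word

variable {f : Gp lam → Gp lam'} {K C : ℝ}
  (hup : ∀ g h, d (f g) (f h) ≤ K * d g h + C)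
  (hlo : ∀ g h, d g h ≤ K * d (f g) (f h) + C)

include hup

/-- The comparison for words. -/
theorem word_bound (hK : 0 ≤ K) (hC : 0 ≤ C) (hK' : 1 ≤ K + C) {n : ℕ} {δ : ℝ} (hδ : 0 ≤ δ)
    (hδn : (n : ℝ) * δ ≤ 1) (hδ1 : δ ≤ 1) {k : ℝ} (hk : 1 ≤ k) {g : Gp lam} {a : J → Vh}
    (ha : ∀ j, ‖a j‖ ≤ K + C)
    (hg : ∀ w ∈ Wd lam k n, ∀ j, ‖(f (g * w * el k j)).v - (f (g * w)).v - k • a j‖ ≤ δ * k)
    {m : ℕ} {w : Gp lam} {u : Gp lam'} (hw : Wp a m w u) (hmn : m ≤ n) :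
    ‖((dil k u)⁻¹ * (f g)⁻¹ * f (g * dil k w)).v‖ ≤ m * (δ * k) ∧
      ‖((dil k u)⁻¹ * (f g)⁻¹ * f (g * dil k w)).z‖ ≤ 7 * (K + C) ^ 2 * k ^ 2 * m := by
  have hk0 : 0 ≤ k := by linarith
  have hstepz : ∀ p p' : Gp lam, d p p' ≤ k → ‖((f p)⁻¹ * f p').z‖ ≤ ((K + C) * k) ^ 2 := by
    intro p p' hpp
    refine (norm_z_le _).trans ?_
    refine pow_le_pow_left₀ (N_nonneg _) ?_ 2
    have h1 := hup p p'
    have h2 : K * d p p' ≤ K * k := mul_le_mul_of_nonneg_left hpp hK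
    have h3 : C ≤ C * k := by nlinarith
    calc N ((f p)⁻¹ * f p') ≤ K * d p p' + C := h1
      _ ≤ (K + C) * k := by linarith
  induction hw with
  | nil => simp
  | @pos m w u j hw ih =>
    have hm : m ≤ n := by omega
    obtain ⟨i1, i2⟩ := ih hm
    have hTδ : (m : ℝ) * δ ≤ 1 :=
      le_trans (mul_le_mul_of_nonneg_right (by exact_mod_cast hm) hδ) hδn
    have hmem : dil k w ∈ Wd lam k n := Wd_mono hm (hw.mem_Wd k)
    have hκ := hg _ hmem j
    have hPz := hstepz (g * dil k w) (g * dil k w * el k j)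
      (by rw [d_mul_right_self, N_el, abs_of_nonneg hk0])
    have hstep := step_bound (lam' := lam') (k := k) (δ := δ) (K' := K + C) (T := m) (b := a j)
      (κ := (f (g * dil k w * el k j)).v - (f (g * dil k w)).v - k • a j)
      (E := (dil k u)⁻¹ * (f g)⁻¹ * f (g * dil k w))
      (P := (f (g * dil k w))⁻¹ * f (g * dil k w * el k j))
      hk0 hδ1 hK' hTδ (ha j) hκ
      (by simp only [mul_v, inv_v]; abel) hPz i1 i2
    have heq : (dil k (u * hor (a j)))⁻¹ * (f g)⁻¹ * f (g * dil k (w * el 1 j))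
        = hor (-(k • a j)) * ((dil k u)⁻¹ * (f g)⁻¹ * f (g * dil k w))
          * ((f (g * dil k w))⁻¹ * f (g * dil k w * el k j)) := by
      rw [dil_mul, dil_mul, dil_hor, dil_el, mul_one, mul_inv_rev, hor_inv]
      group
    rw [heq]
    push_cast
    exact hstep
  | @neg m w u j hw ih =>
    have hm : m ≤ n := by omega
    obtain ⟨i1, i2⟩ := ih hm
    have hTδ : (m : ℝ) * δ ≤ 1 :=
      le_trans (mul_le_mul_of_nonneg_right (by exact_mod_cast hm) hδ) hδn
    have hmem : dil k (w * el (-1) j) ∈ Wd lam k n := Wd_mono hmn ((Wp.neg j hw).mem_Wd k)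
    have hback : g * dil k (w * el (-1) j) * el k j = g * dil k w := by
      rw [dil_mul, dil_el, mul_neg_one, ← el_inv]
      group
    have hκ := hg _ hmem j
    rw [hback] at hκ
    have hfw : g * dil k (w * el (-1) j) = g * dil k w * el (-k) j := by
      rw [dil_mul, dil_el, mul_neg_one, mul_assoc]
    rw [hfw] at hκ
    have hPz := hstepz (g * dil k w) (g * dil k w * el (-k) j)
      (by rw [d_mul_right_self, N_el, abs_neg, abs_of_nonneg hk0])
    have hκ' : ‖(f (g * dil k w * el (-k) j)).v - (f (g * dil k w)).v - k • (-a j)‖ ≤ δ * k := by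
      have h1 : (f (g * dil k w * el (-k) j)).v - (f (g * dil k w)).v - k • (-a j)
          = -((f (g * dil k w)).v - (f (g * dil k w * el (-k) j)).v - k • a j) := by
        rw [smul_neg]; abel
      rw [h1, norm_neg]
      exact hκ
    have hstep := step_bound (lam' := lam') (k := k) (δ := δ) (K' := K + C) (T := m) (b := -a j)
      (κ := (f (g * dil k w * el (-k) j)).v - (f (g * dil k w)).v - k • (-a j))
      (E := (dil k u)⁻¹ * (f g)⁻¹ * f (g * dil k w))
      (P := (f (g * dil k w))⁻¹ * f (g * dil k w * el (-k) j))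
      hk0 hδ1 hK' hTδ (by rw [norm_neg]; exact ha j) hκ'
      (by simp only [mul_v, inv_v]; abel) hPz i1 i2
    have heq : (dil k (u * hor (-a j)))⁻¹ * (f g)⁻¹ * f (g * dil k (w * el (-1) j))
        = hor (-(k • (-a j))) * ((dil k u)⁻¹ * (f g)⁻¹ * f (g * dil k w))
          * ((f (g * dil k w))⁻¹ * f (g * dil k w * el (-k) j)) := by
      rw [hfw, dil_mul, dil_hor, mul_inv_rev, hor_inv]
      group
    rw [heq]
    push_cast
    exact hstep

end Word

end Pool.Agent.Lib.MP_616471_al
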