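import Mathlib
import Pool.Agent.Lib.MP_616471_al.Blowup

/-!
# The limit relation: a quasi-isometry forces an isomorphism of the graded data
-/

namespace Pool.Agent.Lib.MP_616471_al

open Gp Filter Topology

variable {lam lam' : Par}

section Slopes

variable {f : Gp lam → Gp lam'} {K C : ℝ}
  (hup : ∀ g h, d (f g) (f h) ≤ K * d g h + C)
  (hlo : ∀ g h, d g h ≤ K * d (f g) (f h) + C)

include hup hlo

theorem good_slopes (hK : 1 ≤ K) (hC : 0 ≤ C) {n : ℕ} (hn : 1 ≤ n) :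
    ∃ a : J → Vh, (∀ j, ‖a j‖ ≤ K + C) ∧ ∀ (m : ℕ) (w : Gp lam) (u : Gp lam'), m ≤ n →
      Wp a m w u → N u ≤ K * N w + C + 3 * (K + C) * √n ∧
        N w ≤ K * (N u + 3 * (K + C) * √n) + C := by
  have hK0 : 0 ≤ K := by linarith
  have hn0 : (0 : ℝ) < n := by exact_mod_cast hn
  have hn1 : (1 : ℝ) ≤ n := by exact_mod_cast hn
  have hF : ∀ g h (c : J), |(fun g c => (f g).v c) g c - (fun g c => (f g).v c) h c|
      ≤ K * d g h + C := by
    intro g h c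
    have h1 : ‖((f h)⁻¹ * f g).v c‖ ≤ ‖((f h)⁻¹ * f g).v‖ := norm_le_pi_norm _ c
    have h2 := norm_v_le ((f h)⁻¹ * f g)
    have h3 := hup h g
    have h4 : ((f h)⁻¹ * f g).v c = (f g).v c - (f h).v c := by
      simp only [mul_v, inv_v, Pi.add_apply, Pi.neg_apply]; ring
    rw [h4, Real.norm_eq_abs] at h1
    rw [d_comm h g] at h3
    exact h1.trans (h2.trans h3)
  obtain ⟨k, hk, g, a, ha, hg⟩ := coarse_diff (F := fun g c => (f g).v c) hF hK0 hC n
    (δ := 1 / n) (by positivity)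
  have hk0 : 0 < k := by linarith
  have haN : ∀ j, ‖a j‖ ≤ K + C := fun j => by
    rw [pi_norm_le_iff_of_nonneg (by linarith)]
    intro c
    rw [Real.norm_eq_abs]
    exact ha j c
  refine ⟨a, haN, ?_⟩
  intro m w u hmn hw
  have hg' : ∀ w ∈ Wd lam k n, ∀ j,
      ‖(f (g * w * el k j)).v - (f (g * w)).v - k • a j‖ ≤ 1 / n * k := by
    intro w hw j
    rw [pi_norm_le_iff_of_nonneg (by positivity)]
    intro c
    rw [Real.norm_eq_abs]
    exact hg w hw j c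
  obtain ⟨b1, b2⟩ := word_bound hup hK0 hC (by linarith) (n := n) (δ := 1 / n)
    (by positivity) (by rw [mul_one_div_cancel hn0.ne'])
    (by rw [div_le_one hn0]; exact hn1) hk haN hg' hw hmn
  set E := (dil k u)⁻¹ * (f g)⁻¹ * f (g * dil k w) with hE
  have hmn' : (m : ℝ) ≤ n := by exact_mod_cast hmn
  have hsq : 1 ≤ √(n : ℝ) := by rw [Real.one_le_sqrt]; exact hn1
  have hKC : 1 ≤ K + C := by linarith
  have hNE : N E ≤ 3 * (K + C) * k * √n := by
    rw [N_le_iff (by positivity)]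
    constructor
    · calc ‖E.v‖ ≤ m * (1 / n * k) := b1
        _ ≤ n * (1 / n * k) := mul_le_mul_of_nonneg_right hmn' (by positivity)
        _ = k := by field_simp
        _ ≤ 3 * (K + C) * k * √n := by
          have h1 : 1 ≤ 3 * (K + C) * √n := by nlinarith
          nlinarith
    · calc ‖E.z‖ ≤ 7 * (K + C) ^ 2 * k ^ 2 * m := b2
        _ ≤ 7 * (K + C) ^ 2 * k ^ 2 * n := mul_le_mul_of_nonneg_left hmn' (by positivity)
        _ ≤ 9 * (K + C) ^ 2 * k ^ 2 * n := by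
          have : 0 ≤ (K + C) ^ 2 * k ^ 2 * n := by positivity
          nlinarith
        _ = (3 * (K + C) * k * √n) ^ 2 := by
          rw [mul_pow, Real.sq_sqrt hn0.le]; ring
  have hprod : (f g)⁻¹ * f (g * dil k w) = dil k u * E := by
    rw [hE]; group
  have hd : d g (g * dil k w) = k * N w := by
    rw [d_mul_right_self, N_dil, abs_of_pos hk0]
  have hNu : N (dil k u) = k * N u := by rw [N_dil, abs_of_pos hk0]
  have h1 := hup g (g * dil k w)
  have h2 := hlo g (g * dil k w)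
  have e1 : d (f g) (f (g * dil k w)) = N (dil k u * E) := by rw [d, hprod]
  rw [e1, hd] at h1 h2
  have h3 := N_le_add (dil k u) E
  have h4 := N_mul_le (dil k u) E
  rw [hNu] at h3 h4
  have hCk : C ≤ C * k := by nlinarith
  constructor
  · have h5 : k * N u ≤ k * (K * N w + C + 3 * (K + C) * √n) := by nlinarith
    exact le_of_mul_le_mul_left h5 hk0
  · have h6 : K * N (dil k u * E) ≤ K * (k * N u + 3 * (K + C) * k * √n) :=
      mul_le_mul_of_nonneg_left (by linarith) hK0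
    have h5 : k * N w ≤ k * (K * (N u + 3 * (K + C) * √n) + C) := by nlinarith
    exact le_of_mul_le_mul_left h5 hk0

end Slopes

/-! ### Commutator words -/

theorem Wp.pow_pos (a : J → Vh) (j : J) (m : ℕ) :
    Wp (lam := lam) (lam' := lam') a m (el m j) (hor ((m : ℝ) • a j)) := by
  induction m with
  | zero =>
    have h1 : (el ((0 : ℕ) : ℝ) j : Gp lam) = 1 := by
      ext1 <;> simp [el]
    have h2 : (hor (((0 : ℕ) : ℝ) • a j) : Gp lam') = 1 := by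
      ext1 <;> simp
    rw [h1, h2]
    exact Wp.nil
  | succ m ih =>
    have h := Wp.pos j ih
    have h1 : (el (m : ℝ) j * el 1 j : Gp lam) = el ((m + 1 : ℕ) : ℝ) j := by
      have e1 : (el (m : ℝ) j : Gp lam) = (el 1 j) ^ m := by rw [el_pow, mul_one]
      have e2 : (el ((m + 1 : ℕ) : ℝ) j : Gp lam) = (el 1 j) ^ (m + 1) := by rw [el_pow, mul_one]
      rw [e1, e2, pow_succ]
    have h2 : (hor ((m : ℝ) • a j) * hor (a j) : Gp lam') = hor (((m + 1 : ℕ) : ℝ) • a j) := by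
      rw [← hor_pow, ← hor_pow, pow_succ]
    rw [h1, h2] at h
    exact h

theorem Wp.pow_neg (a : J → Vh) (j : J) (m : ℕ) :
    Wp (lam := lam) (lam' := lam') a m (el (-(m : ℝ)) j) (hor (-((m : ℝ) • a j))) := by
  induction m with
  | zero =>
    have h1 : (el (-((0 : ℕ) : ℝ)) j : Gp lam) = 1 := by
      ext1 <;> simp [el]
    have h2 : (hor (-(((0 : ℕ) : ℝ) • a j)) : Gp lam') = 1 := by
      ext1 <;> simp
    rw [h1, h2]
    exact Wp.nil
  | succ m ih =>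
    have h := Wp.neg j ih
    have h1 : (el (-(m : ℝ)) j * el (-1) j : Gp lam) = el (-((m + 1 : ℕ) : ℝ)) j := by
      have e1 : (el (-(m : ℝ)) j : Gp lam) = (el (-1) j) ^ m := by rw [el_pow, mul_neg_one]
      have e2 : (el (-((m + 1 : ℕ) : ℝ)) j : Gp lam) = (el (-1) j) ^ (m + 1) := by
        rw [el_pow, mul_neg_one]
      rw [e1, e2, pow_succ]
    have h2 : (hor (-((m : ℝ) • a j)) * hor (-a j) : Gp lam')
        = hor (-(((m + 1 : ℕ) : ℝ) • a j)) := by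
      rw [← smul_neg, ← smul_neg, ← hor_pow, ← hor_pow, pow_succ]
    rw [h1, h2] at h
    exact h

theorem Wp.zpow (a : J → Vh) (j : J) (m : ℤ) :
    Wp (lam := lam) (lam' := lam') a m.natAbs (el m j) (hor ((m : ℝ) • a j)) := by
  rcases Int.natAbs_eq m with h | h
  · have h1 := Wp.pow_pos (lam := lam) (lam' := lam') a j m.natAbs
    have h2 : ((m.natAbs : ℕ) : ℝ) = (m : ℝ) := by
      conv_rhs => rw [h]
      simp
    rw [h2] at h1
    exact h1
  · have h1 := Wp.pow_neg (lam := lam) (lam' := lam') a j m.natAbs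
    have h2 : -((m.natAbs : ℕ) : ℝ) = (m : ℝ) := by
      conv_rhs => rw [h]
      simp
    rw [← neg_smul, h2] at h1
    exact h1

/-- The unit vectors. -/
noncomputable def ee (j : J) : Vh := Pi.single j 1

theorem el_eq (t : ℝ) (j : J) : (el t j : Gp lam) = hor (t • ee j) := by
  rw [el, ee, ← Pi.single_smul, smul_eq_mul, mul_one]

theorem Wp.comm (a : J → Vh) (j j' : J) (m m' : ℤ) :
    Wp (lam := lam) (lam' := lam') a (2 * m.natAbs + 2 * m'.natAbs)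
      (cen ((2 * (m : ℝ) * (m' : ℝ)) • om lam (ee j) (ee j')))
      (cen ((2 * (m : ℝ) * (m' : ℝ)) • om lam' (a j) (a j'))) := by
  have h1 := (((Wp.zpow (lam := lam) (lam' := lam') a j m).mul (Wp.zpow a j' m')).mul
    (Wp.zpow a j (-m))).mul (Wp.zpow a j' (-m'))
  have h2 : (el (m : ℝ) j * el (m' : ℝ) j' * el ((-m : ℤ) : ℝ) j * el ((-m' : ℤ) : ℝ) j' : Gp lam)
      = cen ((2 * (m : ℝ) * (m' : ℝ)) • om lam (ee j) (ee j')) := by
    rw [el_eq, el_eq, el_eq, el_eq]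
    push_cast
    rw [neg_smul, neg_smul, hor_comm, om_smul_left, om_smul_right, smul_smul, smul_smul]
  have h3 : (hor ((m : ℝ) • a j) * hor ((m' : ℝ) • a j') * hor (((-m : ℤ) : ℝ) • a j)
      * hor (((-m' : ℤ) : ℝ) • a j') : Gp lam')
      = cen ((2 * (m : ℝ) * (m' : ℝ)) • om lam' (a j) (a j')) := by
    push_cast
    rw [neg_smul, neg_smul, hor_comm, om_smul_left, om_smul_right, smul_smul, smul_smul]
  rw [h2, h3] at h1
  have h4 : m.natAbs + m'.natAbs + (-m).natAbs + (-m').natAbs = 2 * m.natAbs + 2 * m'.natAbs := by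
    rw [Int.natAbs_neg, Int.natAbs_neg]; ring
  rw [h4] at h1
  exact h1

theorem Wp.sum_comm (a : J → Vh) (m m' : J × J → ℤ) (s : Finset (J × J)) :
    Wp (lam := lam) (lam' := lam') a (∑ p ∈ s, (2 * (m p).natAbs + 2 * (m' p).natAbs))
      (cen (∑ p ∈ s, (2 * (m p : ℝ) * (m' p : ℝ)) • om lam (ee p.1) (ee p.2)))
      (cen (∑ p ∈ s, (2 * (m p : ℝ) * (m' p : ℝ)) • om lam' (a p.1) (a p.2))) := by
  classical
  induction s using Finset.induction_on with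
  | empty =>
    simp only [Finset.sum_empty]
    have h1 : (cen 0 : Gp lam) = 1 := by ext1 <;> simp
    have h2 : (cen 0 : Gp lam') = 1 := by ext1 <;> simp
    rw [h1, h2]
    exact Wp.nil
  | insert p s hp ih =>
    rw [Finset.sum_insert hp, Finset.sum_insert hp, Finset.sum_insert hp, ← cen_mul, ← cen_mul]
    exact (Wp.comm a p.1 p.2 (m p) (m' p)).mul ih

theorem continuous_om (lam : Par) : Continuous fun p : Vh × Vh => om lam p.1 p.2 := by
  unfold om sy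
  fun_prop

theorem tendsto_om (lam : Par) {ι : Type*} {l : Filter ι} {u v : ι → Vh} {a b : Vh}
    (hu : Tendsto u l (𝓝 a)) (hv : Tendsto v l (𝓝 b)) :
    Tendsto (fun n => om lam (u n) (v n)) l (𝓝 (om lam a b)) := by
  have h : Tendsto (fun p : Vh × Vh => om lam p.1 p.2) (𝓝 (a, b)) (𝓝 (om lam a b)) :=
    Continuous.tendsto' (continuous_om lam) (a, b) _ rfl
  have h2 : Tendsto (fun n => (u n, v n)) l (𝓝 (a, b)) := Filter.Tendsto.prodMk_nhds hu hv
  have h3 := h.comp h2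
  simp only [Function.comp_def] at h3
  exact h3

section Lim

variable {f : Gp lam → Gp lam'} {K C : ℝ}
  (hup : ∀ g h, d (f g) (f h) ≤ K * d g h + C)
  (hlo : ∀ g h, d g h ≤ K * d (f g) (f h) + C)

include hup hlo

omit hup hlo in
/-- The comparison for commutator words of size `n₀`. -/
theorem comm_bound (hK : 1 ≤ K) (hC : 0 ≤ C) {n n₀ L : ℕ} (hn₀ : 1 ≤ n₀) (hL : L * n₀ ≤ n)
    (hL2 : n ≤ 2 * L * n₀) {a : J → Vh}
    (ha : ∀ (m : ℕ) (w : Gp lam) (u : Gp lam'), m ≤ n →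
      Wp a m w u → N u ≤ K * N w + C + 3 * (K + C) * √n ∧
        N w ≤ K * (N u + 3 * (K + C) * √n) + C)
    {c : J × J → ℝ} {B : ℕ} (hc : ∀ p, |c p| ≤ B) (hLB : 64 * (2 * B + 4) ≤ L) :
    √‖∑ p, (2 * ((⌊c p * n₀⌋ : ℤ) : ℝ) / n₀) • om lam' (a p.1) (a p.2)‖
      ≤ K * √‖∑ p, (2 * ((⌊c p * n₀⌋ : ℤ) : ℝ) / n₀) • om lam (ee p.1) (ee p.2)‖
        + (K * (3 * (K + C) * √(2 * L)) + C) / √n₀ ∧
    √‖∑ p, (2 * ((⌊c p * n₀⌋ : ℤ) : ℝ) / n₀) • om lam (ee p.1) (ee p.2)‖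
      ≤ K * √‖∑ p, (2 * ((⌊c p * n₀⌋ : ℤ) : ℝ) / n₀) • om lam' (a p.1) (a p.2)‖
        + (K * (3 * (K + C) * √(2 * L)) + C) / √n₀ := by
  have hn₀' : (0 : ℝ) < n₀ := by exact_mod_cast hn₀
  have hn₀1 : (1 : ℝ) ≤ n₀ := by exact_mod_cast hn₀
  have hW := Wp.sum_comm (lam := lam) (lam' := lam') a (fun p => ⌊c p * n₀⌋) (fun _ => (n₀ : ℤ))
    Finset.univ
  have hlen : ∑ p : J × J, (2 * (⌊c p * n₀⌋ : ℤ).natAbs + 2 * (n₀ : ℤ).natAbs) ≤ n := by
    have h1 : ∀ p : J × J, 2 * (⌊c p * n₀⌋ : ℤ).natAbs + 2 * (n₀ : ℤ).natAbs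
        ≤ (2 * B + 4) * n₀ := by
      intro p
      have h2 : ((⌊c p * n₀⌋ : ℤ).natAbs : ℝ) ≤ B * n₀ + 1 := by
        have h3 : ((⌊c p * n₀⌋ : ℤ).natAbs : ℝ) = |((⌊c p * n₀⌋ : ℤ) : ℝ)| := by
          rw [Nat.cast_natAbs]; push_cast; rfl
        rw [h3]
        have h4 := Int.floor_le (c p * n₀)
        have h5 := Int.lt_floor_add_one (c p * n₀)
        have h6 := abs_le.mp (hc p)
        have h7 : c p * n₀ ≤ B * n₀ := mul_le_mul_of_nonneg_right h6.2 hn₀'.le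
        have h8 : -(B * n₀ : ℝ) ≤ c p * n₀ := by
          have := mul_le_mul_of_nonneg_right h6.1 hn₀'.le
          linarith
        rw [abs_le]
        constructor <;> linarith
      have h3 : (⌊c p * n₀⌋ : ℤ).natAbs ≤ B * n₀ + 1 := by exact_mod_cast h2
      rw [Int.natAbs_natCast]
      nlinarith
    calc ∑ p : J × J, (2 * (⌊c p * n₀⌋ : ℤ).natAbs + 2 * (n₀ : ℤ).natAbs)
        ≤ ∑ _p : J × J, (2 * B + 4) * n₀ := Finset.sum_le_sum fun p _ => h1 p
      _ = 64 * (2 * B + 4) * n₀ := by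
          rw [Finset.sum_const, Finset.card_univ]
          simp only [Fintype.card_prod, Fintype.card_fin, smul_eq_mul]
          ring
      _ ≤ L * n₀ := Nat.mul_le_mul_right _ hLB
      _ ≤ n := hL
  obtain ⟨h1, h2⟩ := ha _ _ _ hlen hW
  rw [N_cen, N_cen] at h1 h2
  have hsc : ∀ (g : J × J → ℝ × ℝ),
      √‖∑ p, (2 * ((⌊c p * n₀⌋ : ℤ) : ℝ) * ((n₀ : ℤ) : ℝ)) • g p‖
        = n₀ * √‖∑ p, (2 * ((⌊c p * n₀⌋ : ℤ) : ℝ) / n₀) • g p‖ := by
    intro g
    have h3 : ∑ p, (2 * ((⌊c p * n₀⌋ : ℤ) : ℝ) * ((n₀ : ℤ) : ℝ)) • g p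
        = ((n₀ : ℝ) ^ 2) • ∑ p, (2 * ((⌊c p * n₀⌋ : ℤ) : ℝ) / n₀) • g p := by
      rw [Finset.smul_sum]
      refine Finset.sum_congr rfl fun p _ => ?_
      rw [smul_smul]
      congr 1
      push_cast
      field_simp
    rw [h3, norm_smul, Real.norm_eq_abs, abs_of_nonneg (by positivity),
      Real.sqrt_mul (by positivity), Real.sqrt_sq hn₀'.le]
  rw [hsc (fun p => om lam (ee p.1) (ee p.2)), hsc (fun p => om lam' (a p.1) (a p.2))] at h1 h2
  set U := √‖∑ p, (2 * ((⌊c p * n₀⌋ : ℤ) : ℝ) / n₀) • om lam' (a p.1) (a p.2)‖ with hU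
  set V := √‖∑ p, (2 * ((⌊c p * n₀⌋ : ℤ) : ℝ) / n₀) • om lam (ee p.1) (ee p.2)‖ with hV
  have hs0 : 0 < √(n₀ : ℝ) := Real.sqrt_pos.mpr hn₀'
  have hs1 : 1 ≤ √(n₀ : ℝ) := by rw [Real.one_le_sqrt]; exact hn₀1
  have hss : √(n₀ : ℝ) * √(n₀ : ℝ) = n₀ := Real.mul_self_sqrt hn₀'.le
  have hsn : √(n : ℝ) ≤ √(2 * L) * √n₀ := by
    rw [← Real.sqrt_mul (by positivity)]
    apply Real.sqrt_le_sqrt
    exact_mod_cast hL2
  have hKC : 0 ≤ 3 * (K + C) := by linarith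
  have hS : 0 ≤ √(2 * (L : ℝ)) := Real.sqrt_nonneg _
  have e1 : 3 * (K + C) * √(n : ℝ) ≤ 3 * (K + C) * √(2 * L) * √n₀ := by
    rw [mul_assoc (3 * (K + C))]
    exact mul_le_mul_of_nonneg_left hsn hKC
  have e2 : C ≤ C * √n₀ := by nlinarith
  have hP : 0 ≤ 3 * (K + C) * √(2 * (L : ℝ)) := mul_nonneg hKC hS
  have e3 : 3 * (K + C) * √(2 * L) * √n₀ ≤ K * (3 * (K + C) * √(2 * L)) * √n₀ := by
    refine mul_le_mul_of_nonneg_right ?_ hs0.le
    nlinarith
  have e4 : (n₀ : ℝ) * ((K * (3 * (K + C) * √(2 * L)) + C) / √n₀)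
      = K * (3 * (K + C) * √(2 * L)) * √n₀ + C * √n₀ := by
    have e5 : (n₀ : ℝ) * ((K * (3 * (K + C) * √(2 * L)) + C) / √n₀)
        = (K * (3 * (K + C) * √(2 * L)) + C) * ((n₀ : ℝ) / √n₀) := by ring
    rw [e5, Real.div_sqrt]
    ring
  constructor
  · refine le_of_mul_le_mul_left ?_ hn₀'
    rw [mul_add, e4]
    nlinarith
  · refine le_of_mul_le_mul_left ?_ hn₀'
    rw [mul_add, e4]
    have e5 : K * (3 * (K + C) * √(n : ℝ)) ≤ K * (3 * (K + C) * √(2 * L) * √n₀) :=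
      mul_le_mul_of_nonneg_left e1 (by linarith)
    nlinarith

theorem limit_relation (hK : 1 ≤ K) (hC : 0 ≤ C) :
    ∃ a : J → Vh, ∀ c : J × J → ℝ,
      (∑ p, c p • om lam (ee p.1) (ee p.2) = 0 ↔ ∑ p, c p • om lam' (a p.1) (a p.2) = 0) := by
  have hex : ∀ n : ℕ, ∃ a : J → Vh, (∀ j, ‖a j‖ ≤ K + C) ∧
      ∀ (m : ℕ) (w : Gp lam) (u : Gp lam'), m ≤ n + 1 →
      Wp a m w u → N u ≤ K * N w + C + 3 * (K + C) * √((n + 1 : ℕ) : ℝ) ∧
        N w ≤ K * (N u + 3 * (K + C) * √((n + 1 : ℕ) : ℝ)) + C := fun n =>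
    good_slopes hup hlo hK hC (Nat.succ_le_succ (Nat.zero_le n))
  choose A hA1 hA2 using hex
  have hKC : 0 ≤ K + C := by linarith
  have hball : ∀ n, A n ∈ Metric.closedBall (0 : J → Vh) (K + C) := by
    intro n
    rw [mem_closedBall_zero_iff, pi_norm_le_iff_of_nonneg hKC]
    exact hA1 n
  obtain ⟨a, _, ha⟩ := (isCompact_closedBall (0 : J → Vh) (K + C)).ultrafilter_le_nhds
    ((Filter.hyperfilter ℕ).map A)
    (by
      rw [Filter.le_principal_iff, Ultrafilter.mem_coe, Ultrafilter.mem_map]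
      exact Filter.univ_mem' hball)
  obtain ⟨ℱ, hne, hle, hA⟩ : ∃ ℱ : Filter ℕ, ℱ.NeBot ∧ ℱ ≤ atTop ∧ Tendsto A ℱ (𝓝 a) := by
    refine ⟨(Filter.hyperfilter ℕ : Filter ℕ), inferInstance, ?_, ha⟩
    rw [← Nat.cofinite_eq_atTop]
    exact Filter.hyperfilter_le_cofinite
  refine ⟨a, fun c => ?_⟩
  obtain ⟨B, hB⟩ : ∃ B : ℕ, ∀ p, |c p| ≤ B := by
    obtain ⟨B, hB⟩ := exists_nat_ge (∑ p, |c p|)
    exact ⟨B, fun p => (Finset.single_le_sum (f := fun p => |c p|) (a := p)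
      (fun _ _ => abs_nonneg _) (Finset.mem_univ p)).trans hB⟩
  set L : ℕ := 64 * (2 * B + 4) with hL
  have hL0 : 0 < L := by omega
  set n₀ : ℕ → ℕ := fun n => (n + 1) / L with hn₀
  have hn₀t : Tendsto n₀ atTop atTop := by
    rw [tendsto_atTop]
    intro b
    filter_upwards [eventually_ge_atTop (b * L)] with n hn
    rw [hn₀]
    simp only
    rw [Nat.le_div_iff_mul_le hL0]
    omega
  have hn₀h : Tendsto n₀ ℱ atTop := hn₀t.mono_left hle
  have hn₀r : Tendsto (fun n => (n₀ n : ℝ)) ℱ atTop :=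
    tendsto_natCast_atTop_atTop.comp hn₀h
  have hs : ∀ p, Tendsto (fun n => 2 * ((⌊c p * n₀ n⌋ : ℤ) : ℝ) / n₀ n)
      ℱ (𝓝 (2 * c p)) := by
    intro p
    have h1 : Tendsto (fun n => 2 * c p + (-2) * ((1 : ℝ) / n₀ n))
        ℱ (𝓝 (2 * c p + (-2) * 0)) :=
      tendsto_const_nhds.add (tendsto_const_nhds.mul (by
        simp only [one_div]
        exact tendsto_inv_atTop_zero.comp hn₀r))
    rw [mul_zero, add_zero] at h1
    refine tendsto_of_tendsto_of_tendsto_of_le_of_le' h1 tendsto_const_nhds ?_ ?_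
    · filter_upwards [hn₀h.eventually (eventually_ge_atTop 1)] with n hn
      have h0 : (0 : ℝ) < n₀ n := by exact_mod_cast hn
      rw [le_div_iff₀ h0]
      have h2 := Int.lt_floor_add_one (c p * n₀ n)
      have h3 : (2 * c p + -2 * (1 / (n₀ n : ℝ))) * n₀ n = 2 * (c p * n₀ n) - 2 := by
        field_simp
        ring
      rw [h3]
      linarith
    · filter_upwards [hn₀h.eventually (eventually_ge_atTop 1)] with n hn
      have h0 : (0 : ℝ) < n₀ n := by exact_mod_cast hn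
      rw [div_le_iff₀ h0]
      have h2 := Int.floor_le (c p * n₀ n)
      linarith
  have hV : Tendsto (fun n => √‖∑ p, (2 * ((⌊c p * n₀ n⌋ : ℤ) : ℝ) / n₀ n) •
      om lam (ee p.1) (ee p.2)‖) ℱ
      (𝓝 √‖∑ p, (2 * c p) • om lam (ee p.1) (ee p.2)‖) := by
    refine (Real.continuous_sqrt.tendsto _).comp (Tendsto.norm ?_)
    exact tendsto_finsetSum _ fun p _ => (hs p).smul tendsto_const_nhds
  have hU : Tendsto (fun n => √‖∑ p, (2 * ((⌊c p * n₀ n⌋ : ℤ) : ℝ) / n₀ n) •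
      om lam' (A n p.1) (A n p.2)‖) ℱ
      (𝓝 √‖∑ p, (2 * c p) • om lam' (a p.1) (a p.2)‖) := by
    refine (Real.continuous_sqrt.tendsto _).comp (Tendsto.norm ?_)
    refine tendsto_finsetSum _ fun p _ => (hs p).smul ?_
    have h1 : ∀ j, Tendsto (fun n => A n j) ℱ (𝓝 (a j)) :=
      fun j => (tendsto_pi_nhds.mp hA) j
    exact tendsto_om lam' (h1 p.1) (h1 p.2)
  have hE : Tendsto (fun n => (K * (3 * (K + C) * √(2 * (L : ℝ))) + C) / √(n₀ n : ℝ))
      ℱ (𝓝 0) :=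
    tendsto_const_nhds.div_atTop (Real.tendsto_sqrt_atTop.comp hn₀r)
  have hbound : ∀ᶠ n in ℱ,
      √‖∑ p, (2 * ((⌊c p * n₀ n⌋ : ℤ) : ℝ) / n₀ n) • om lam' (A n p.1) (A n p.2)‖
      ≤ K * √‖∑ p, (2 * ((⌊c p * n₀ n⌋ : ℤ) : ℝ) / n₀ n) • om lam (ee p.1) (ee p.2)‖
        + (K * (3 * (K + C) * √(2 * (L : ℝ))) + C) / √(n₀ n : ℝ) ∧
      √‖∑ p, (2 * ((⌊c p * n₀ n⌋ : ℤ) : ℝ) / n₀ n) • om lam (ee p.1) (ee p.2)‖
      ≤ K * √‖∑ p, (2 * ((⌊c p * n₀ n⌋ : ℤ) : ℝ) / n₀ n) • om lam' (A n p.1) (A n p.2)‖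
        + (K * (3 * (K + C) * √(2 * (L : ℝ))) + C) / √(n₀ n : ℝ) := by
    filter_upwards [hn₀h.eventually (eventually_ge_atTop 1)] with n hn
    have hdiv1 : L * n₀ n ≤ n + 1 := Nat.mul_div_le _ _
    have hdiv2 : n + 1 ≤ 2 * L * n₀ n := by
      have h1 := Nat.lt_mul_div_succ (n + 1) hL0
      have h2 : L * ((n + 1) / L + 1) ≤ L * (2 * n₀ n) := by
        refine Nat.mul_le_mul_left _ ?_
        have : n₀ n = (n + 1) / L := rfl
        omega
      calc n + 1 ≤ L * ((n + 1) / L + 1) := h1.le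
        _ ≤ L * (2 * n₀ n) := h2
        _ = 2 * L * n₀ n := by ring
    exact comm_bound hK hC hn hdiv1 hdiv2 (hA2 n) hB le_rfl
  have l1 : √‖∑ p, (2 * c p) • om lam' (a p.1) (a p.2)‖
      ≤ K * √‖∑ p, (2 * c p) • om lam (ee p.1) (ee p.2)‖ + 0 :=
    le_of_tendsto_of_tendsto hU ((hV.const_mul K).add hE) (hbound.mono fun n h => h.1)
  have l2 : √‖∑ p, (2 * c p) • om lam (ee p.1) (ee p.2)‖
      ≤ K * √‖∑ p, (2 * c p) • om lam' (a p.1) (a p.2)‖ + 0 :=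
    le_of_tendsto_of_tendsto hV ((hU.const_mul K).add hE) (hbound.mono fun n h => h.2)
  have two : ∀ g : J × J → ℝ × ℝ, ∑ p, (2 * c p) • g p = (2 : ℝ) • ∑ p, c p • g p := by
    intro g
    rw [Finset.smul_sum]
    exact Finset.sum_congr rfl fun p _ => by rw [smul_smul]
  rw [two (fun p => om lam (ee p.1) (ee p.2)), two (fun p => om lam' (a p.1) (a p.2))] at l1 l2
  constructor
  · intro h
    rw [h, smul_zero, norm_zero, Real.sqrt_zero, mul_zero, add_zero] at l1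
    have h1 : √‖(2 : ℝ) • ∑ p, c p • om lam' (a p.1) (a p.2)‖ = 0 :=
      le_antisymm l1 (Real.sqrt_nonneg _)
    rw [Real.sqrt_eq_zero (norm_nonneg _), norm_eq_zero] at h1
    exact (smul_eq_zero.mp h1).resolve_left two_ne_zero
  · intro h
    rw [h, smul_zero, norm_zero, Real.sqrt_zero, mul_zero, add_zero] at l2
    have h1 : √‖(2 : ℝ) • ∑ p, c p • om lam (ee p.1) (ee p.2)‖ = 0 :=
      le_antisymm l2 (Real.sqrt_nonneg _)
    rw [Real.sqrt_eq_zero (norm_nonneg _), norm_eq_zero] at h1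
    exact (smul_eq_zero.mp h1).resolve_left two_ne_zero

end Lim

end Pool.Agent.Lib.MP_616471_al
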