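import Mathlib
import Pool.Agent.Lib.MP_616471_al.Grp

/-!
# The integer net of `Gp lam` and its graph
-/

namespace Pool.Agent.Lib.MP_616471_al

open Gp

/-- The vertex set. -/
abbrev V0 : Type := (J → ℤ) × (ℤ × ℤ)

/-- The horizontal coordinates of a vertex. -/
def iv (x : V0) : Vh := fun j => (x.1 j : ℝ)

/-- The central coordinates of a vertex. -/
def iz (x : V0) : ℝ × ℝ := ((x.2.1 : ℝ), (x.2.2 : ℝ))

/-- The embedding of the net. -/
def io (lam : Par) (x : V0) : Gp lam := ⟨iv x, iz x⟩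

@[simp] theorem io_v (lam : Par) (x : V0) : (io lam x).v = iv x := rfl
@[simp] theorem io_z (lam : Par) (x : V0) : (io lam x).z = iz x := rfl

/-- Integer parts of the horizontal coordinates. -/
noncomputable def fl (v : Vh) : J → ℤ := fun j => ⌊v j⌋

/-- Rounding to the net. -/
noncomputable def rd {lam : Par} (g : Gp lam) : V0 :=
  (fl g.v, (⌊(g.z - om lam (fun j => (fl g.v j : ℝ)) g.v).1⌋,
    ⌊(g.z - om lam (fun j => (fl g.v j : ℝ)) g.v).2⌋))

theorem rd_io (lam : Par) (x : V0) : rd (io lam x) = x := by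
  have h1 : fl (iv x) = x.1 := by
    funext j; simp [fl, iv]
  have h2 : (fun j => ((x.1 j : ℤ) : ℝ)) = iv x := rfl
  apply Prod.ext
  · simp only [rd, io_v, h1]
  · simp only [rd, io_v, io_z, h1, h2, om_self, sub_zero]
    simp [iz]

theorem d_io_rd {lam : Par} (g : Gp lam) : d (io lam (rd g)) g ≤ 1 := by
  rw [d, N_le_iff zero_le_one]
  have h1 : iv (rd g) = fun j => (fl g.v j : ℝ) := rfl
  constructor
  · rw [mul_v, inv_v, io_v, pi_norm_le_iff_of_nonneg zero_le_one]
    intro j
    rw [Real.norm_eq_abs, h1]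
    simp only [Pi.add_apply, Pi.neg_apply, fl]
    rw [neg_add_eq_sub, abs_le]
    constructor
    · linarith [Int.floor_le (g.v j)]
    · linarith [Int.lt_floor_add_one (g.v j)]
  · rw [mul_z, inv_z, inv_v, io_v, io_z, om_neg_left, h1, one_pow]
    have h2 : iz (rd g) = (((⌊(g.z - om lam (fun j => (fl g.v j : ℝ)) g.v).1⌋ : ℤ) : ℝ),
      ((⌊(g.z - om lam (fun j => (fl g.v j : ℝ)) g.v).2⌋ : ℤ) : ℝ)) := rfl
    rw [h2]
    set w := g.z - om lam (fun j => (fl g.v j : ℝ)) g.v with hw
    have h3 : -((⌊w.1⌋ : ℝ), (⌊w.2⌋ : ℝ)) + g.z + -om lam (fun j => (fl g.v j : ℝ)) g.v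
        = w - ((⌊w.1⌋ : ℝ), (⌊w.2⌋ : ℝ)) := by
      rw [hw]; abel
    rw [h3, Prod.norm_def, max_le_iff]
    simp only [Prod.fst_sub, Prod.snd_sub, Real.norm_eq_abs]
    constructor
    · rw [abs_le]
      constructor
      · linarith [Int.floor_le w.1]
      · linarith [Int.lt_floor_add_one w.1]
    · rw [abs_le]
      constructor
      · linarith [Int.floor_le w.2]
      · linarith [Int.lt_floor_add_one w.2]

theorem d_io_rd' {lam : Par} (g : Gp lam) : d g (io lam (rd g)) ≤ 1 := by
  rw [d_comm]; exact d_io_rd g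

/-- The graph. -/
noncomputable def X (lam : Par) : SimpleGraph V0 where
  Adj x y := x ≠ y ∧ d (io lam x) (io lam y) ≤ 3
  symm := ⟨fun _ _ h => ⟨h.1.symm, by rw [d_comm]; exact h.2⟩⟩
  loopless := ⟨fun _ h => h.1 rfl⟩

/-! ### Reachability by unit steps -/

/-- `Rch n g`: `g` is a product of `n` elements of norm at most one. -/
inductive Rch {lam : Par} : ℕ → Gp lam → Prop
  | zero : Rch 0 1
  | step {n : ℕ} {g b : Gp lam} : Rch n g → N b ≤ 1 → Rch (n + 1) (g * b)

theorem Rch.add {lam : Par} {m n : ℕ} {g h : Gp lam} (hg : Rch m g) (hh : Rch n h) :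
    Rch (m + n) (g * h) := by
  induction hh with
  | zero => rw [mul_one]; exact hg
  | step _ hb ih =>
    rw [← mul_assoc, ← add_assoc]
    exact Rch.step ih hb

theorem Rch.mono {lam : Par} {m n : ℕ} {g : Gp lam} (hg : Rch m g) (h : m ≤ n) : Rch n g := by
  induction h with
  | refl => exact hg
  | step _ ih =>
    have := Rch.step (b := 1) ih (by rw [N_one]; exact zero_le_one)
    rwa [mul_one] at this

theorem Rch.pow {lam : Par} {b : Gp lam} (hb : N b ≤ 1) (n : ℕ) : Rch n (b ^ n) := by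
  induction n with
  | zero => rw [pow_zero]; exact Rch.zero
  | succ n ih => rw [pow_succ]; exact Rch.step ih hb

theorem rch_hor {lam : Par} {n : ℕ} (hn : 0 < n) {v : Vh} (hv : ‖v‖ ≤ n) :
    Rch n (hor v : Gp lam) := by
  have hn' : (0 : ℝ) < n := by exact_mod_cast hn
  have h1 : (hor v : Gp lam) = (hor ((n : ℝ)⁻¹ • v)) ^ n := by
    rw [hor_pow, smul_smul, mul_inv_cancel₀ hn'.ne', one_smul]
  rw [h1]
  apply Rch.pow
  rw [N_hor, norm_smul, norm_inv, Real.norm_natCast, inv_mul_le_iff₀ hn', mul_one]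
  exact hv

theorem rch_comm {lam : Par} {m n : ℕ} (hm : 0 < m) (hn : 0 < n) {v w : Vh} (hv : ‖v‖ ≤ m)
    (hw : ‖w‖ ≤ n) : Rch (m + n + m + n) (cen ((2 : ℝ) • om lam v w) : Gp lam) := by
  rw [← hor_comm]
  exact (((rch_hor hm hv).add (rch_hor hn hw)).add (rch_hor hm (by rwa [norm_neg]))).add
    (rch_hor hn (by rwa [norm_neg]))

theorem norm_single (j : J) (t : ℝ) : ‖(Pi.single j t : Vh)‖ = |t| := by
  rw [Pi.norm_single, Real.norm_eq_abs]

theorem om_single_zero (lam : Par) (s t : ℝ) :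
    om lam (Pi.single (0, 0) s) (Pi.single (0, 1) t) = (s * t / 8, 0) := by
  simp [om, sy]

theorem om_single_one (lam : Par) (s t : ℝ) :
    om lam (Pi.single (1, 0) s) (Pi.single (1, 1) t) = (0, s * t / 8) := by
  simp [om, sy]

theorem om_single_two (lam : Par) (s t : ℝ) :
    om lam (Pi.single (2, 0) s) (Pi.single (2, 1) t) = (s * t / 8, s * t / 8) := by
  simp [om, sy]

theorem om_single_three (lam : Par) (s t : ℝ) :
    om lam (Pi.single (3, 0) s) (Pi.single (3, 1) t) = (s * t / 8, lam.1 * (s * t) / 8) := by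
  simp [om, sy]

theorem rch_of_N_le {lam : Par} {n : ℕ} {g : Gp lam} (hg : N g ≤ n) : Rch (21 * n) g := by
  rcases Nat.eq_zero_or_pos n with rfl | hn
  · have h0 : N g ≤ 0 := by simpa using hg
    have hv : g.v = 0 := by
      have := (norm_v_le g).trans h0
      exact norm_le_zero_iff.mp this
    have hz : g.z = 0 := by
      have h1 := norm_z_le g
      have h2 : N g = 0 := le_antisymm h0 (N_nonneg g)
      rw [h2] at h1
      exact norm_le_zero_iff.mp (by simpa using h1)
    have : g = 1 := by ext1; exacts [hv, hz]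
    rw [this]
    exact Rch.zero
  · have hn' : (0 : ℝ) < n := by exact_mod_cast hn
    have hv : ‖g.v‖ ≤ n := (norm_v_le g).trans hg
    have hz : ‖g.z‖ ≤ (n : ℝ) ^ 2 :=
      (norm_z_le g).trans (pow_le_pow_left₀ (N_nonneg g) hg 2)
    rw [Prod.norm_def, max_le_iff, Real.norm_eq_abs, Real.norm_eq_abs] at hz
    have key : ∀ t : ℝ, |t| ≤ (n : ℝ) ^ 2 → |4 * t / n| ≤ ((4 * n : ℕ) : ℝ) := by
      intro t ht
      rw [abs_div, abs_mul, abs_of_pos hn', div_le_iff₀ hn', abs_of_pos (by norm_num : (0:ℝ) < 4)]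
      push_cast
      nlinarith
    have e1 : g = hor g.v * (cen (g.z.1, 0) * cen (0, g.z.2)) := by
      rw [cen_mul]
      conv_lhs => rw [eq_hor_mul_cen g]
      congr 2
      ext <;> simp
    have h1 : Rch (10 * n) (cen (g.z.1, 0) : Gp lam) := by
      have h := rch_comm (lam := lam) (m := n) (n := 4 * n) hn (by omega)
        (v := Pi.single (0, 0) (n : ℝ)) (w := Pi.single (0, 1) (4 * g.z.1 / n))
        (by rw [norm_single, abs_of_pos hn']) (by rw [norm_single]; exact key _ hz.1)
      rw [om_single_zero] at h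
      have h2 : ((2 : ℝ) • ((n : ℝ) * (4 * g.z.1 / n) / 8, (0 : ℝ))) = (g.z.1, 0) := by
        ext
        · simp only [Prod.smul_fst, smul_eq_mul]; field_simp; ring
        · simp
      rw [h2] at h
      exact h.mono (by omega)
    have h2 : Rch (10 * n) (cen (0, g.z.2) : Gp lam) := by
      have h := rch_comm (lam := lam) (m := n) (n := 4 * n) hn (by omega)
        (v := Pi.single (1, 0) (n : ℝ)) (w := Pi.single (1, 1) (4 * g.z.2 / n))
        (by rw [norm_single, abs_of_pos hn']) (by rw [norm_single]; exact key _ hz.2)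
      rw [om_single_one] at h
      have h2 : ((2 : ℝ) • ((0 : ℝ), (n : ℝ) * (4 * g.z.2 / n) / 8)) = (0, g.z.2) := by
        ext
        · simp
        · simp only [Prod.smul_snd, smul_eq_mul]; field_simp; ring
      rw [h2] at h
      exact h.mono (by omega)
    rw [e1]
    exact ((rch_hor hn hv).add (h1.add h2)).mono (by omega)

theorem d_rd_rd_le {lam : Par} (g h : Gp lam) : d (io lam (rd g)) (io lam (rd h)) ≤ d g h + 2 := by
  have h1 := d_triangle (io lam (rd g)) g (io lam (rd h))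
  have h2 := d_triangle g h (io lam (rd h))
  have h3 := d_io_rd g
  have h4 := d_io_rd' h
  linarith

theorem le_d_rd_rd {lam : Par} (g h : Gp lam) : d g h ≤ d (io lam (rd g)) (io lam (rd h)) + 2 := by
  have h1 := d_triangle g (io lam (rd g)) h
  have h2 := d_triangle (io lam (rd g)) (io lam (rd h)) h
  have h3 := d_io_rd' g
  have h4 := d_io_rd h
  linarith

theorem exists_walk {lam : Par} {n : ℕ} {g : Gp lam} (hg : Rch n g) (h : Gp lam) :
    ∃ p : (X lam).Walk (rd h) (rd (h * g)), p.length ≤ n := by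
  induction hg with
  | zero =>
    rw [mul_one]
    exact ⟨SimpleGraph.Walk.nil, le_rfl⟩
  | @step n g b _ hb ih =>
    obtain ⟨p, hp⟩ := ih
    rw [← mul_assoc]
    have h1 : d (io lam (rd (h * g))) (io lam (rd (h * g * b))) ≤ 3 := by
      have := d_rd_rd_le (h * g) (h * g * b)
      rw [d_mul_right_self] at this
      linarith
    by_cases heq : rd (h * g) = rd (h * g * b)
    · refine ⟨p.copy rfl heq, ?_⟩
      rw [SimpleGraph.Walk.length_copy]
      omega
    · have hadj : (X lam).Adj (rd (h * g)) (rd (h * g * b)) := ⟨heq, h1⟩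
      refine ⟨p.concat hadj, ?_⟩
      rw [SimpleGraph.Walk.length_concat]
      omega

theorem exists_walk_io {lam : Par} (x y : V0) {n : ℕ} (h : d (io lam x) (io lam y) ≤ n) :
    ∃ p : (X lam).Walk x y, p.length ≤ 21 * n := by
  have h1 : Rch (21 * n) ((io lam x)⁻¹ * io lam y) := rch_of_N_le h
  obtain ⟨p, hp⟩ := exists_walk h1 (io lam x)
  have e1 : rd (io lam x) = x := rd_io lam x
  have e2 : rd (io lam x * ((io lam x)⁻¹ * io lam y)) = y := by
    rw [mul_inv_cancel_left, rd_io]
  refine ⟨p.copy e1 e2, ?_⟩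
  rwa [SimpleGraph.Walk.length_copy]

theorem X_connected (lam : Par) : (X lam).Connected := by
  have : Nonempty V0 := ⟨(0, 0)⟩
  refine ⟨fun x y => ?_⟩
  obtain ⟨n, hn⟩ := exists_nat_ge (d (io lam x) (io lam y))
  obtain ⟨p, _⟩ := exists_walk_io x y hn
  exact p.reachable

theorem dist_le {lam : Par} {x y : V0} {n : ℕ} (h : d (io lam x) (io lam y) ≤ n) :
    (X lam).dist x y ≤ 21 * n := by
  obtain ⟨p, hp⟩ := exists_walk_io x y h
  exact (SimpleGraph.dist_le p).trans hp

theorem dist_le_real (lam : Par) (x y : V0) :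
    ((X lam).dist x y : ℝ) ≤ 21 * d (io lam x) (io lam y) + 21 := by
  have h1 : d (io lam x) (io lam y) ≤ (⌈d (io lam x) (io lam y)⌉₊ : ℕ) := Nat.le_ceil _
  have h2 := dist_le h1
  have h3 : ((X lam).dist x y : ℝ) ≤ 21 * (⌈d (io lam x) (io lam y)⌉₊ : ℕ) := by exact_mod_cast h2
  have h4 := Nat.ceil_lt_add_one (d_nonneg (io lam x) (io lam y))
  linarith

theorem d_le_walk {lam : Par} {x y : V0} (p : (X lam).Walk x y) :
    d (io lam x) (io lam y) ≤ 3 * p.length := by
  induction p with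
  | nil => simp
  | @cons a b c hab p ih =>
    rw [SimpleGraph.Walk.length_cons]
    have h1 := d_triangle (io lam a) (io lam b) (io lam c)
    have h2 := hab.2
    push_cast
    linarith

theorem d_le_dist (lam : Par) (x y : V0) :
    d (io lam x) (io lam y) ≤ 3 * ((X lam).dist x y : ℝ) := by
  obtain ⟨p, hp⟩ := (X_connected lam).exists_walk_length_eq_dist x y
  rw [← hp]
  exact d_le_walk p

end Pool.Agent.Lib.MP_616471_al
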