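import Mathlib
import Pool.Agent.Lib.MP_616471_al.Net
import Pool.Agent.Lib.MP_616471_al.Limit

/-!
# The cross ratio is determined up to finitely many values
-/

namespace Pool.Agent.Lib.MP_616471_al

open Gp

/-- The four central directions. -/
noncomputable def zt (lam : Par) (i : Fin 4) : ℝ × ℝ := om lam (ee (i, 0)) (ee (i, 1))

theorem zt_zero (lam : Par) : zt lam 0 = (1 / 8, 0) := by
  rw [zt, ee, ee, om_single_zero]; norm_num

theorem zt_one (lam : Par) : zt lam 1 = (0, 1 / 8) := by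
  rw [zt, ee, ee, om_single_one]; norm_num

theorem zt_two (lam : Par) : zt lam 2 = (1 / 8, 1 / 8) := by
  rw [zt, ee, ee, om_single_two]; norm_num

theorem zt_three (lam : Par) : zt lam 3 = (1 / 8, lam.1 / 8) := by
  rw [zt, ee, ee, om_single_three]; norm_num

theorem om_eq (lam : Par) (u v : Vh) : om lam u v = ∑ i, sy u v i • zt lam i := by
  rw [Fin.sum_univ_four, zt_zero, zt_one, zt_two, zt_three, om]
  ext
  · simp only [Prod.fst_add, Prod.smul_fst, smul_eq_mul]; ring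
  · simp only [Prod.snd_add, Prod.smul_snd, smul_eq_mul]; ring

theorem zt_ne_zero (lam : Par) (i : Fin 4) : zt lam i ≠ 0 := by
  intro h
  have h1 := congrArg Prod.fst h
  have h2 := congrArg Prod.snd h
  fin_cases i
  · simp [zt_zero] at h1
  · simp [zt_one] at h2
  · simp [zt_two] at h1
  · simp [zt_three] at h1

theorem om_ee_one (lam : Par) (u : Vh) (i : Fin 4) : om lam u (ee (i, 1)) = u (i, 0) • zt lam i := by
  rw [om_eq, Finset.sum_eq_single i]
  · congr 1
    simp [sy, ee]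
  · intro k _ hk
    have h : sy u (ee (i, 1)) k = 0 := by
      simp [sy, ee, hk]
    rw [h, zero_smul]
  · intro h; exact absurd (Finset.mem_univ _) h

theorem om_ee_zero (lam : Par) (u : Vh) (i : Fin 4) :
    om lam u (ee (i, 0)) = (-u (i, 1)) • zt lam i := by
  rw [om_eq, Finset.sum_eq_single i]
  · congr 1
    simp [sy, ee]
  · intro k _ hk
    have h : sy u (ee (i, 0)) k = 0 := by
      simp [sy, ee, hk]
    rw [h, zero_smul]
  · intro h; exact absurd (Finset.mem_univ _) h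

theorem om_sum_left {ι : Type*} (lam : Par) (s : Finset ι) (u : ι → Vh) (w : Vh) :
    om lam (∑ j ∈ s, u j) w = ∑ j ∈ s, om lam (u j) w := by
  classical
  induction s using Finset.induction_on with
  | empty => simp
  | insert a s ha ih => rw [Finset.sum_insert ha, Finset.sum_insert ha, om_add_left, ih]

theorem om_sum_right {ι : Type*} (lam : Par) (s : Finset ι) (u : ι → Vh) (w : Vh) :
    om lam w (∑ j ∈ s, u j) = ∑ j ∈ s, om lam w (u j) := by
  classical
  induction s using Finset.induction_on with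
  | empty => simp
  | insert a s ha ih => rw [Finset.sum_insert ha, Finset.sum_insert ha, om_add_right, ih]

/-- The linear map with prescribed values. -/
noncomputable def Al (a : J → Vh) : Vh →ₗ[ℝ] Vh := ∑ j, (LinearMap.proj j).smulRight (a j)

theorem Al_apply (a : J → Vh) (u : Vh) : Al a u = ∑ j, u j • a j := by
  simp [Al]

theorem Al_ee (a : J → Vh) (j : J) : Al a (ee j) = a j := by
  rw [Al_apply, Finset.sum_eq_single j]
  · simp [ee]
  · intro k _ hk; simp [ee, hk]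
  · intro h; exact absurd (Finset.mem_univ _) h

theorem om_Al (lam : Par) (a : J → Vh) (u v : Vh) :
    om lam (Al a u) (Al a v) = ∑ p : J × J, (u p.1 * v p.2) • om lam (a p.1) (a p.2) := by
  rw [Al_apply, Al_apply, om_sum_left,
    Fintype.sum_prod_type (f := fun p : J × J => (u p.1 * v p.2) • om lam (a p.1) (a p.2))]
  apply Finset.sum_congr rfl
  intro j _
  rw [om_sum_right]
  apply Finset.sum_congr rfl
  intro k _
  rw [om_smul_left, om_smul_right, smul_smul]

theorem Al_id (u : Vh) : Al ee u = u := by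
  rw [Al_apply]
  funext j
  simp [ee, Finset.sum_apply, Pi.single_apply]

theorem om_ee (lam : Par) (u v : Vh) :
    om lam u v = ∑ p : J × J, (u p.1 * v p.2) • om lam (ee p.1) (ee p.2) := by
  conv_lhs => rw [← Al_id u, ← Al_id v]
  exact om_Al lam ee u v

/-- Determinant in the centre. -/
def dt (u v : ℝ × ℝ) : ℝ := u.1 * v.2 - u.2 * v.1

/-- The finitely many candidate values of the parameter. -/
noncomputable def crs (lam : Par) (σ : Fin 4 → Fin 4) : ℝ :=
  dt (zt lam (σ 0)) (zt lam (σ 3)) * dt (zt lam (σ 2)) (zt lam (σ 1)) /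
    (dt (zt lam (σ 0)) (zt lam (σ 2)) * dt (zt lam (σ 3)) (zt lam (σ 1)))

theorem cross_ratio {lam lam' : Par} {a : J → Vh}
    (hrel : ∀ c : J × J → ℝ,
      (∑ p, c p • om lam (ee p.1) (ee p.2) = 0 ↔ ∑ p, c p • om lam' (a p.1) (a p.2) = 0)) :
    ∃ σ : Fin 4 → Fin 4, lam.1 = crs lam' σ := by
  have rel3 : ∀ (s t r : ℝ) (u v u' v' u'' v'' : Vh),
      (s • om lam u v + t • om lam u' v' + r • om lam u'' v'' = 0 ↔
        s • om lam' (Al a u) (Al a v) + t • om lam' (Al a u') (Al a v')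
          + r • om lam' (Al a u'') (Al a v'') = 0) := by
    intro s t r u v u' v' u'' v''
    have h := hrel (fun p => s * (u p.1 * v p.2) + t * (u' p.1 * v' p.2) + r * (u'' p.1 * v'' p.2))
    have e1 : ∀ g : J × J → ℝ × ℝ,
        ∑ p, (s * (u p.1 * v p.2) + t * (u' p.1 * v' p.2) + r * (u'' p.1 * v'' p.2)) • g p
        = s • ∑ p, (u p.1 * v p.2) • g p + t • ∑ p, (u' p.1 * v' p.2) • g p
          + r • ∑ p, (u'' p.1 * v'' p.2) • g p := by
      intro g
      simp only [add_smul, Finset.sum_add_distrib, Finset.smul_sum, smul_smul]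
    rw [e1 (fun p => om lam (ee p.1) (ee p.2)), e1 (fun p => om lam' (a p.1) (a p.2)),
      ← om_ee, ← om_ee, ← om_ee, ← om_Al, ← om_Al, ← om_Al] at h
    exact h
  have hinj : Function.Injective (Al a) := by
    rw [← LinearMap.ker_eq_bot, LinearMap.ker_eq_bot']
    intro u hu
    have h1 : ∀ v, om lam u v = 0 := by
      intro v
      have h2 := (rel3 1 0 0 u v u v u v).mpr (by rw [hu]; simp)
      simpa using h2
    funext ⟨i, b⟩
    fin_cases b
    · have h2 := h1 (ee (i, 1))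
      rw [om_ee_one, smul_eq_zero] at h2
      exact h2.resolve_right (zt_ne_zero lam i)
    · have h2 := h1 (ee (i, 0))
      rw [om_ee_zero, smul_eq_zero] at h2
      exact neg_eq_zero.mp (h2.resolve_right (zt_ne_zero lam i))
  have hsurj : Function.Surjective (Al a) := LinearMap.injective_iff_surjective.mp hinj
  set ξ : Fin 4 → ℝ × ℝ := fun i => om lam' (Al a (ee (i, 0))) (Al a (ee (i, 1))) with hξ
  have hpar : ∀ (i : Fin 4) (v : Vh), om lam' (Al a (ee (i, 0))) (Al a v) = v (i, 1) • ξ i := by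
    intro i v
    have h1 : om lam (ee (i, 0)) v = v (i, 1) • zt lam i := by
      rw [om_swap lam v (ee (i, 0)), om_ee_zero, neg_smul, neg_neg]
    have h2 := (rel3 1 (-v (i, 1)) 0 (ee (i, 0)) v (ee (i, 0)) (ee (i, 1)) 0 0).mp (by
      have h3 : om lam (ee (i, 0)) (ee (i, 1)) = zt lam i := rfl
      rw [h1, h3]; simp)
    simp only [one_smul, zero_smul, add_zero, neg_smul] at h2
    exact sub_eq_zero.mp (by rw [sub_eq_add_neg]; exact h2)
  have hσ : ∀ i : Fin 4, ∃ (m : Fin 4) (τ : ℝ), τ ≠ 0 ∧ ξ i = τ • zt lam' m := by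
    intro i
    have hne : Al a (ee (i, 0)) ≠ 0 := by
      intro h
      have h1 : ee (i, 0) = 0 := hinj (by rw [h, map_zero])
      have h2 := congrFun h1 (i, 0)
      simp [ee] at h2
    obtain ⟨⟨m, b⟩, hmb⟩ : ∃ j, (Al a (ee (i, 0))) j ≠ 0 := by
      by_contra hcon
      push Not at hcon
      exact hne (funext hcon)
    have hfin : ∀ (c : ℝ) (v' : Vh), c ≠ 0 → om lam' (Al a (ee (i, 0))) v' = c • zt lam' m →
        ∃ (m : Fin 4) (τ : ℝ), τ ≠ 0 ∧ ξ i = τ • zt lam' m := by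
      intro c v' hc h
      obtain ⟨v, rfl⟩ := hsurj v'
      rw [hpar] at h
      have hv : v (i, 1) ≠ 0 := by
        intro h0
        rw [h0, zero_smul] at h
        rcases smul_eq_zero.mp h.symm with h1 | h1
        · exact hc h1
        · exact zt_ne_zero lam' m h1
      refine ⟨m, c / v (i, 1), div_ne_zero hc hv, ?_⟩
      rw [div_eq_inv_mul, mul_smul, ← h, smul_smul, inv_mul_cancel₀ hv, one_smul]
    fin_cases b
    · exact hfin _ (ee (m, 1)) hmb (om_ee_one lam' _ m)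
    · exact hfin _ (ee (m, 0)) (neg_ne_zero.mpr hmb) (om_ee_zero lam' _ m)
  choose σ τ hτ0 hτ using hσ
  have h2 : ξ 2 = ξ 0 + ξ 1 := by
    have h := (rel3 1 1 (-1) (ee (0, 0)) (ee (0, 1)) (ee (1, 0)) (ee (1, 1)) (ee (2, 0))
      (ee (2, 1))).mp (by
        change (1 : ℝ) • zt lam 0 + (1 : ℝ) • zt lam 1 + (-1 : ℝ) • zt lam 2 = 0
        rw [zt_zero, zt_one, zt_two]
        ext <;> simp)
    simp only [one_smul, neg_smul] at h
    have h' : ξ 0 + ξ 1 + -ξ 2 = 0 := h
    rw [← sub_eq_add_neg, sub_eq_zero] at h'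
    exact h'.symm
  have h3 : ξ 3 = ξ 0 + lam.1 • ξ 1 := by
    have h := (rel3 1 lam.1 (-1) (ee (0, 0)) (ee (0, 1)) (ee (1, 0)) (ee (1, 1)) (ee (3, 0))
      (ee (3, 1))).mp (by
        change (1 : ℝ) • zt lam 0 + lam.1 • zt lam 1 + (-1 : ℝ) • zt lam 3 = 0
        rw [zt_zero, zt_one, zt_three]
        ext
        · simp
        · simp only [Prod.snd_add, Prod.smul_snd, smul_eq_mul, Prod.snd_zero]; ring)
    simp only [one_smul, neg_smul] at h
    have h' : ξ 0 + lam.1 • ξ 1 + -ξ 3 = 0 := h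
    rw [← sub_eq_add_neg, sub_eq_zero] at h'
    exact h'.symm
  have hind : ∀ s t : ℝ, s • ξ 0 + t • ξ 1 = 0 → s = 0 ∧ t = 0 := by
    intro s t h
    have h1 := (rel3 s t 0 (ee (0, 0)) (ee (0, 1)) (ee (1, 0)) (ee (1, 1)) 0 0).mpr (by
      rw [zero_smul, add_zero]; exact h)
    rw [zero_smul, add_zero] at h1
    have h2 : s • zt lam 0 + t • zt lam 1 = 0 := h1
    rw [zt_zero, zt_one] at h2
    have h3 := congrArg Prod.fst h2
    have h4 := congrArg Prod.snd h2
    simp at h3 h4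
    exact ⟨h3, h4⟩
  have hD : dt (ξ 0) (ξ 1) ≠ 0 := by
    intro h0
    rw [dt] at h0
    have e1 := hind (ξ 1).1 (-(ξ 0).1) (by
      ext
      · simp only [Prod.fst_add, Prod.smul_fst, smul_eq_mul, Prod.fst_zero]; ring
      · simp only [Prod.snd_add, Prod.smul_snd, smul_eq_mul, Prod.snd_zero]
        linear_combination -h0)
    have e2 := hind (ξ 1).2 (-(ξ 0).2) (by
      ext
      · simp only [Prod.fst_add, Prod.smul_fst, smul_eq_mul, Prod.fst_zero]
        linear_combination h0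
      · simp only [Prod.snd_add, Prod.smul_snd, smul_eq_mul, Prod.snd_zero]; ring)
    have e3 := hind 0 1 (by
      rw [zero_smul, zero_add, one_smul]
      exact Prod.ext e1.1 e2.1)
    exact one_ne_zero e3.2
  have d03 : τ 0 * τ 3 * dt (zt lam' (σ 0)) (zt lam' (σ 3)) = lam.1 * dt (ξ 0) (ξ 1) := by
    have : dt (ξ 0) (ξ 3) = lam.1 * dt (ξ 0) (ξ 1) := by
      rw [h3]; simp only [dt, Prod.fst_add, Prod.snd_add, Prod.smul_fst, Prod.smul_snd,
        smul_eq_mul]; ring
    rw [← this, hτ 0, hτ 3]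
    simp only [dt, Prod.smul_fst, Prod.smul_snd, smul_eq_mul]; ring
  have d21 : τ 2 * τ 1 * dt (zt lam' (σ 2)) (zt lam' (σ 1)) = dt (ξ 0) (ξ 1) := by
    have : dt (ξ 2) (ξ 1) = dt (ξ 0) (ξ 1) := by
      rw [h2]; simp only [dt, Prod.fst_add, Prod.snd_add]; ring
    rw [← this, hτ 2, hτ 1]
    simp only [dt, Prod.smul_fst, Prod.smul_snd, smul_eq_mul]; ring
  have d02 : τ 0 * τ 2 * dt (zt lam' (σ 0)) (zt lam' (σ 2)) = dt (ξ 0) (ξ 1) := by
    have : dt (ξ 0) (ξ 2) = dt (ξ 0) (ξ 1) := by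
      rw [h2]; simp only [dt, Prod.fst_add, Prod.snd_add]; ring
    rw [← this, hτ 0, hτ 2]
    simp only [dt, Prod.smul_fst, Prod.smul_snd, smul_eq_mul]; ring
  have d31 : τ 3 * τ 1 * dt (zt lam' (σ 3)) (zt lam' (σ 1)) = dt (ξ 0) (ξ 1) := by
    have : dt (ξ 3) (ξ 1) = dt (ξ 0) (ξ 1) := by
      rw [h3]; simp only [dt, Prod.fst_add, Prod.snd_add, Prod.smul_fst, Prod.smul_snd,
        smul_eq_mul]; ring
    rw [← this, hτ 3, hτ 1]
    simp only [dt, Prod.smul_fst, Prod.smul_snd, smul_eq_mul]; ring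
  refine ⟨σ, ?_⟩
  rw [crs]
  set D := dt (ξ 0) (ξ 1) with hDdef
  set P := dt (zt lam' (σ 0)) (zt lam' (σ 3)) with hP
  set Q := dt (zt lam' (σ 2)) (zt lam' (σ 1)) with hQ
  set R := dt (zt lam' (σ 0)) (zt lam' (σ 2)) with hR
  set S := dt (zt lam' (σ 3)) (zt lam' (σ 1)) with hS
  have hR0 : R ≠ 0 := by
    intro h0; rw [h0, mul_zero] at d02; exact hD d02.symm
  have hS0 : S ≠ 0 := by
    intro h0; rw [h0, mul_zero] at d31; exact hD d31.symm
  rw [eq_div_iff (mul_ne_zero hR0 hS0)]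
  have hT : τ 0 * τ 1 * τ 2 * τ 3 ≠ 0 :=
    mul_ne_zero (mul_ne_zero (mul_ne_zero (hτ0 0) (hτ0 1)) (hτ0 2)) (hτ0 3)
  apply mul_left_cancel₀ hT
  have e1 : τ 0 * τ 1 * τ 2 * τ 3 * (P * Q) = lam.1 * D * D := by
    rw [← d03]; conv_rhs => rw [← d21]
    ring
  have e2 : τ 0 * τ 1 * τ 2 * τ 3 * (R * S) = D * D := by
    conv_rhs => rw [← d02]
    rw [show τ 0 * τ 2 * R * (τ 0 * τ 2 * R) = (τ 0 * τ 2 * R) * (τ 0 * τ 2 * R) from rfl]
    rw [d02, ← d31]
    have h5 : τ 0 * τ 2 * R = τ 3 * τ 1 * S := by rw [d02, d31]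
    linear_combination (τ 3 * τ 1 * S) * h5
  calc τ 0 * τ 1 * τ 2 * τ 3 * (lam.1 * (R * S)) = lam.1 * (τ 0 * τ 1 * τ 2 * τ 3 * (R * S)) := by
        ring
    _ = lam.1 * D * D := by rw [e2]; ring
    _ = τ 0 * τ 1 * τ 2 * τ 3 * (P * Q) := e1.symm

end Pool.Agent.Lib.MP_616471_al
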