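import Mathlib
import Pool.Agent.Lib.MP_616471_al.Net

/-!
# Growth, asymptotic dimension and coarse transitivity of the net graph
-/

namespace Pool.Agent.Lib.MP_616471_al

open Gp

/-- A finite box. -/
noncomputable def box (r : ℕ) : Finset V0 :=
  (Fintype.piFinset fun _ : J => Finset.Icc (-(r : ℤ)) r) ×ˢ
    (Finset.Icc (-((r : ℤ) ^ 2 + 1)) ((r : ℤ) ^ 2 + 1) ×ˢ
      Finset.Icc (-((r : ℤ) ^ 2 + 1)) ((r : ℤ) ^ 2 + 1))

theorem card_box (r : ℕ) : (box r).card = (2 * r + 1) ^ 8 * (2 * r ^ 2 + 3) ^ 2 := by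
  have h1 : (Finset.Icc (-(r : ℤ)) r).card = 2 * r + 1 := by
    rw [Int.card_Icc]; omega
  have h2 : (Finset.Icc (-((r : ℤ) ^ 2 + 1)) ((r : ℤ) ^ 2 + 1)).card = 2 * r ^ 2 + 3 := by
    rw [Int.card_Icc]
    have : (r : ℤ) ^ 2 + 1 + 1 - -((r : ℤ) ^ 2 + 1) = ((2 * r ^ 2 + 3 : ℕ) : ℤ) := by
      push_cast; ring
    rw [this, Int.toNat_natCast]
  rw [box, Finset.card_product, Finset.card_product, Fintype.card_piFinset, h2]
  simp only [h1, Finset.prod_const, Finset.card_univ, Fintype.card_prod, Fintype.card_fin]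
  ring

/-- Relative coordinates. -/
noncomputable def rel (lam : Par) (x y : V0) : V0 :=
  (y.1 - x.1, (y.2.1 - x.2.1 - ⌊(om lam (iv x) (iv y)).1⌋,
    y.2.2 - x.2.2 - ⌊(om lam (iv x) (iv y)).2⌋))

theorem rel_mem_box {lam : Par} {x y : V0} {r : ℕ} (h : d (io lam x) (io lam y) ≤ r) :
    rel lam x y ∈ box r := by
  rw [d, N_le_iff (by positivity)] at h
  obtain ⟨h1, h2⟩ := h
  rw [mul_v, inv_v, io_v, io_v, pi_norm_le_iff_of_nonneg (by positivity)] at h1
  rw [mul_z, inv_z, inv_v, io_z, io_z, io_v, io_v, om_neg_left, Prod.norm_def, max_le_iff] at h2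
  simp only [Prod.fst_add, Prod.fst_neg, Prod.snd_add, Prod.snd_neg, iz, Real.norm_eq_abs,
    abs_le] at h2
  rw [box, Finset.mem_product, Finset.mem_product, Fintype.mem_piFinset]
  simp only [rel, Finset.mem_Icc, Pi.sub_apply]
  refine ⟨fun j => ?_, ?_, ?_⟩
  · have h3 := h1 j
    simp only [Pi.add_apply, Pi.neg_apply, iv, Real.norm_eq_abs, abs_le] at h3
    constructor
    · have : (-(r : ℝ)) ≤ ((y.1 j - x.1 j : ℤ) : ℝ) := by push_cast; linarith
      exact_mod_cast this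
    · have : ((y.1 j - x.1 j : ℤ) : ℝ) ≤ r := by push_cast; linarith
      exact_mod_cast this
  · obtain ⟨⟨h3, h4⟩, _⟩ := h2
    have h5 := Int.floor_le (om lam (iv x) (iv y)).1
    have h6 := Int.lt_floor_add_one (om lam (iv x) (iv y)).1
    constructor
    · have : (-((r : ℝ) ^ 2 + 1)) ≤
          ((y.2.1 - x.2.1 - ⌊(om lam (iv x) (iv y)).1⌋ : ℤ) : ℝ) := by push_cast; linarith
      exact_mod_cast this
    · have : ((y.2.1 - x.2.1 - ⌊(om lam (iv x) (iv y)).1⌋ : ℤ) : ℝ) ≤ (r : ℝ) ^ 2 + 1 := by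
        push_cast; linarith
      exact_mod_cast this
  · obtain ⟨_, ⟨h3, h4⟩⟩ := h2
    have h5 := Int.floor_le (om lam (iv x) (iv y)).2
    have h6 := Int.lt_floor_add_one (om lam (iv x) (iv y)).2
    constructor
    · have : (-((r : ℝ) ^ 2 + 1)) ≤
          ((y.2.2 - x.2.2 - ⌊(om lam (iv x) (iv y)).2⌋ : ℤ) : ℝ) := by push_cast; linarith
      exact_mod_cast this
    · have : ((y.2.2 - x.2.2 - ⌊(om lam (iv x) (iv y)).2⌋ : ℤ) : ℝ) ≤ (r : ℝ) ^ 2 + 1 := by
        push_cast; linarith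
      exact_mod_cast this

theorem rel_injective (lam : Par) (x : V0) : Function.Injective (rel lam x) := by
  intro y z h
  simp only [rel, Prod.mk.injEq] at h
  obtain ⟨h1, h2, h3⟩ := h
  have h4 : y.1 = z.1 := by
    have := congrArg (fun t => t + x.1) h1
    simpa using this
  have h5 : iv y = iv z := by
    funext j; simp only [iv, h4]
  rw [h5] at h2 h3
  apply Prod.ext h4
  apply Prod.ext
  · omega
  · omega

theorem finite_ball (lam : Par) (x : V0) (r : ℕ) :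
    {y : V0 | d (io lam x) (io lam y) ≤ r}.Finite :=
  Set.Finite.of_injOn (f := rel lam x) (t := (box r : Set V0))
    (fun _ hy => rel_mem_box hy) (rel_injective lam x).injOn (box r).finite_toSet

theorem ncard_ball_le (lam : Par) (x : V0) (r : ℕ) :
    Set.ncard {y : V0 | d (io lam x) (io lam y) ≤ r} ≤ (2 * r + 1) ^ 8 * (2 * r ^ 2 + 3) ^ 2 := by
  rw [← card_box r, ← Set.ncard_coe_finset]
  exact Set.ncard_le_ncard_of_injOn (rel lam x) (fun _ hy => rel_mem_box hy)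
    (rel_injective lam x).injOn (box r).finite_toSet

theorem X_locallyFinite (lam : Par) (x : V0) : ((X lam).neighborSet x).Finite := by
  refine (finite_ball lam x 3).subset ?_
  intro y hy
  have h : (X lam).Adj x y := hy
  simpa using h.2

theorem X_growth (lam : Par) : ∃ (v₀ : V0) (c D : ℕ), ∀ r : ℕ,
    Set.ncard {w | (X lam).dist v₀ w ≤ r} ≤ c * (r + 1) ^ D := by
  refine ⟨(0, 0), 6 ^ 8 * 18 ^ 2, 12, fun r => ?_⟩
  have h1 : {w | (X lam).dist ((0, 0) : V0) w ≤ r} ⊆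
      {y : V0 | d (io lam (0, 0)) (io lam y) ≤ ((3 * r : ℕ) : ℝ)} := by
    intro w hw
    have h2 := d_le_dist lam (0, 0) w
    have h3 : ((X lam).dist ((0, 0) : V0) w : ℝ) ≤ r := by exact_mod_cast hw
    simp only [Set.mem_ofPred_eq]
    push_cast
    linarith
  refine (Set.ncard_le_ncard h1 (finite_ball lam _ _)).trans ?_
  refine (ncard_ball_le lam _ _).trans ?_
  have h2 : 2 * (3 * r) + 1 ≤ 6 * (r + 1) := by omega
  have h3 : 2 * (3 * r) ^ 2 + 3 ≤ 18 * (r + 1) ^ 2 := by nlinarith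
  calc (2 * (3 * r) + 1) ^ 8 * (2 * (3 * r) ^ 2 + 3) ^ 2
      ≤ (6 * (r + 1)) ^ 8 * (18 * (r + 1) ^ 2) ^ 2 :=
        Nat.mul_le_mul (Nat.pow_le_pow_left h2 8) (Nat.pow_le_pow_left h3 2)
    _ = 6 ^ 8 * 18 ^ 2 * (r + 1) ^ 12 := by ring

/-- The tile map at scale `ρ`. -/
noncomputable def tile (lam : Par) (ρ : ℝ) (x : V0) : V0 := rd (dil ρ⁻¹ (io lam x))

theorem X_asdim (lam : Par) : ∃ n : ℕ, ∀ R : ℕ, ∃ (ι : Type) (U : ι → Set V0) (D : ℕ),
    (∀ i, ∀ x ∈ U i, ∀ y ∈ U i, (X lam).dist x y ≤ D) ∧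
    (∀ x, ∃ i, x ∈ U i) ∧
    ∀ x, {i | ∃ y ∈ U i, (X lam).dist x y ≤ R}.Finite ∧
      Set.ncard {i | ∃ y ∈ U i, (X lam).dist x y ≤ R} ≤ n + 1 := by
  refine ⟨(2 * 3 + 1) ^ 8 * (2 * 3 ^ 2 + 3) ^ 2, fun R => ?_⟩
  set ρ : ℝ := 3 * R + 1 with hρ
  have hρ0 : 0 < ρ := by positivity
  refine ⟨V0, fun i => {x | tile lam ρ x = i}, 21 * (2 * (3 * R + 1)), ?_, ?_, ?_⟩
  · intro i x hx y hy
    apply dist_le
    have h1 : ∀ x : V0, tile lam ρ x = i → d (io lam x) (dil ρ (io lam i)) ≤ ρ := by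
      intro x hx
      have h2 := d_io_rd' (dil ρ⁻¹ (io lam x))
      have h3 : rd (dil ρ⁻¹ (io lam x)) = i := hx
      rw [h3] at h2
      have h4 := d_dil ρ (dil ρ⁻¹ (io lam x)) (io lam i)
      rw [dil_dil, mul_inv_cancel₀ hρ0.ne', dil_one, abs_of_pos hρ0] at h4
      rw [h4]
      calc ρ * d (dil ρ⁻¹ (io lam x)) (io lam i) ≤ ρ * 1 :=
            mul_le_mul_of_nonneg_left h2 hρ0.le
        _ = ρ := mul_one _
    have h5 := d_triangle (io lam x) (dil ρ (io lam i)) (io lam y)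
    have h6 := h1 x hx
    have h7 := h1 y hy
    rw [d_comm] at h7
    have h8 : ((2 * (3 * R + 1) : ℕ) : ℝ) = ρ + ρ := by rw [hρ]; push_cast; ring
    rw [h8]
    linarith
  · intro x
    exact ⟨tile lam ρ x, rfl⟩
  · intro x
    have hsub : {i | ∃ y ∈ {y | tile lam ρ y = i}, (X lam).dist x y ≤ R} ⊆
        {i : V0 | d (io lam (tile lam ρ x)) (io lam i) ≤ ((3 : ℕ) : ℝ)} := by
      rintro i ⟨y, hy, hxy⟩
      have hy' : tile lam ρ y = i := hy
      simp only [Set.mem_ofPred_eq]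
      rw [← hy']
      have h1 := d_rd_rd_le (dil ρ⁻¹ (io lam x)) (dil ρ⁻¹ (io lam y))
      have h2 := d_le_dist lam x y
      have h3 : ((X lam).dist x y : ℝ) ≤ R := by exact_mod_cast hxy
      rw [d_dil, abs_of_pos (inv_pos.mpr hρ0)] at h1
      have h4 : ρ⁻¹ * d (io lam x) (io lam y) ≤ 1 := by
        rw [inv_mul_le_iff₀ hρ0, mul_one, hρ]
        linarith
      push_cast
      have h5 : d (io lam (tile lam ρ x)) (io lam (tile lam ρ y))
        ≤ ρ⁻¹ * d (io lam x) (io lam y) + 2 := h1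
      linarith
    refine ⟨(finite_ball lam _ 3).subset hsub, ?_⟩
    refine ((Set.ncard_le_ncard hsub (finite_ball lam _ 3)).trans (ncard_ball_le lam _ 3)).trans ?_
    omega

theorem X_coarse (lam : Par) : ∃ K C : ℝ, 0 < K ∧ ∀ x y : V0, ∃ f : V0 → V0,
    (∀ a b : V0, ((X lam).dist a b : ℝ) / K - C ≤ ((X lam).dist (f a) (f b) : ℝ) ∧
        ((X lam).dist (f a) (f b) : ℝ) ≤ K * ((X lam).dist a b : ℝ) + C) ∧
    (∀ z : V0, ∃ a : V0, ((X lam).dist (f a) z : ℝ) ≤ C) ∧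
    ((X lam).dist (f x) y : ℝ) ≤ C := by
  refine ⟨63, 63, by norm_num, fun x y => ?_⟩
  set t : Gp lam := io lam y * (io lam x)⁻¹ with ht
  set f : V0 → V0 := fun w => rd (t * io lam w) with hf
  have hup : ∀ a b, d (io lam (f a)) (io lam (f b)) ≤ d (io lam a) (io lam b) + 2 := by
    intro a b
    have h1 := d_rd_rd_le (t * io lam a) (t * io lam b)
    rwa [d_mul_left] at h1
  have hlo : ∀ a b, d (io lam a) (io lam b) ≤ d (io lam (f a)) (io lam (f b)) + 2 := by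
    intro a b
    have h1 := le_d_rd_rd (t * io lam a) (t * io lam b)
    rwa [d_mul_left] at h1
  refine ⟨f, fun a b => ?_, fun z => ?_, ?_⟩
  · have h1 := hup a b
    have h2 := hlo a b
    have h3 := dist_le_real lam a b
    have h4 := dist_le_real lam (f a) (f b)
    have h5 := d_le_dist lam a b
    have h6 := d_le_dist lam (f a) (f b)
    constructor
    · have : ((X lam).dist a b : ℝ) ≤ 63 * ((X lam).dist (f a) (f b) : ℝ) + 63 := by linarith
      rw [sub_le_iff_le_add, div_le_iff₀ (by norm_num)]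
      nlinarith [Nat.cast_nonneg (α := ℝ) ((X lam).dist (f a) (f b))]
    · linarith
  · refine ⟨rd (t⁻¹ * io lam z), ?_⟩
    have h1 : d (io lam (f (rd (t⁻¹ * io lam z)))) (io lam z) ≤ 2 := by
      have h2 := d_io_rd (t * io lam (rd (t⁻¹ * io lam z)))
      have h3 := d_triangle (io lam (f (rd (t⁻¹ * io lam z))))
        (t * io lam (rd (t⁻¹ * io lam z))) (io lam z)
      have h4 : d (t * io lam (rd (t⁻¹ * io lam z))) (io lam z) ≤ 1 := by
        have h5 := d_io_rd (t⁻¹ * io lam z)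
        rw [← d_mul_left t, mul_inv_cancel_left] at h5
        exact h5
      have h6 : d (io lam (f (rd (t⁻¹ * io lam z)))) (t * io lam (rd (t⁻¹ * io lam z))) ≤ 1 := h2
      linarith
    have h7 := dist_le_real lam (f (rd (t⁻¹ * io lam z))) z
    linarith
  · have h1 : f x = y := by
      simp only [hf, ht]
      rw [inv_mul_cancel_right, rd_io]
    rw [h1, SimpleGraph.dist_self]
    norm_num

end Pool.Agent.Lib.MP_616471_al
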