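import Mathlib
import Pool.Agent.Lib.MP_616471_al.Grp

/-!
# Coarse simple connectivity and finite presentability
-/

namespace Pool.Agent.Lib.MP_616471_al

open Gp

section Hol

variable {k : ℕ} {H : Type} [Group H] (π : FreeGroup (Fin k) →* H)
  (hπ : Function.Surjective π)

include hπ in
theorem exists_short (h : H) : ∃ w : FreeGroup (Fin k), π w = h ∧
    ∀ w', π w' = h → w.norm ≤ w'.norm := by
  classical
  have hex : ∃ n, ∃ w : FreeGroup (Fin k), π w = h ∧ w.norm = n := by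
    obtain ⟨w, hw⟩ := hπ h
    exact ⟨w.norm, w, hw, rfl⟩
  obtain ⟨w, hw, hn⟩ := Nat.find_spec hex
  refine ⟨w, hw, fun w' hw' => ?_⟩
  rw [hn]
  exact Nat.find_min' hex ⟨w', hw', rfl⟩

/-- A shortest representative. -/
noncomputable def sh (h : H) : FreeGroup (Fin k) := (exists_short π hπ h).choose

theorem π_sh (h : H) : π (sh π hπ h) = h := (exists_short π hπ h).choose_spec.1

/-- Word length. -/
noncomputable def wl (h : H) : ℕ := (sh π hπ h).norm

theorem wl_le {h : H} {w : FreeGroup (Fin k)} (hw : π w = h) : wl π hπ h ≤ w.norm :=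
  (exists_short π hπ h).choose_spec.2 w hw

theorem wl_mul (a b : H) : wl π hπ (a * b) ≤ wl π hπ a + wl π hπ b :=
  (wl_le π hπ (w := sh π hπ a * sh π hπ b) (by rw [map_mul, π_sh, π_sh])).trans
    (FreeGroup.norm_mul_le _ _)

theorem wl_inv (a : H) : wl π hπ a⁻¹ ≤ wl π hπ a := by
  have h := wl_le π hπ (h := a⁻¹) (w := (sh π hπ a)⁻¹) (by rw [map_inv, π_sh])
  rwa [FreeGroup.norm_inv_eq] at h

@[simp] theorem wl_one : wl π hπ 1 = 0 := by
  have h := wl_le π hπ (h := 1) (w := 1) (map_one π)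
  rw [FreeGroup.norm_one] at h
  omega

/-- The relators of length at most `M`. -/
def Rel (M : ℕ) : Set (FreeGroup (Fin k)) := {w | w.norm ≤ M ∧ π w = 1}

/-- The group presented by the short relators. -/
abbrev QM (M : ℕ) : Type := FreeGroup (Fin k) ⧸ Subgroup.normalClosure (Rel π M)

/-- The local section. -/
noncomputable def ta (M : ℕ) (h : H) : QM π M := QuotientGroup.mk (sh π hπ h)

theorem mk_eq_of {M : ℕ} {u v : FreeGroup (Fin k)} (h : π u = π v) (hM : u.norm + v.norm ≤ M) :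
    (QuotientGroup.mk u : QM π M) = QuotientGroup.mk v := by
  rw [QuotientGroup.eq]
  apply Subgroup.subset_normalClosure
  constructor
  · refine (FreeGroup.norm_mul_le _ _).trans ?_
    rwa [FreeGroup.norm_inv_eq]
  · rw [map_mul, map_inv, h, inv_mul_cancel]

theorem ta_mul {M : ℕ} {a b : H} (h : wl π hπ a + wl π hπ b + wl π hπ (a * b) ≤ M) :
    ta π hπ M a * ta π hπ M b = ta π hπ M (a * b) := by
  rw [ta, ta, ta, ← QuotientGroup.mk_mul]
  apply mk_eq_of
  · rw [map_mul, π_sh, π_sh, π_sh]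
  · have := FreeGroup.norm_mul_le (sh π hπ a) (sh π hπ b)
    have h' : (sh π hπ a).norm + (sh π hπ b).norm + (sh π hπ (a * b)).norm ≤ M := h
    omega

theorem ta_one (M : ℕ) : ta π hπ M 1 = 1 := by
  rw [ta, ← QuotientGroup.mk_one]
  apply mk_eq_of
  · rw [π_sh, map_one]
  · have h1 : (sh π hπ 1).norm = 0 := wl_one π hπ
    rw [h1, FreeGroup.norm_one]
    omega

/-- Holonomy along a path. -/
noncomputable def Hol (M : ℕ) (x : ℕ → H) : ℕ → QM π M
  | 0 => 1
  | n + 1 => Hol M x n * ta π hπ M ((x n)⁻¹ * x (n + 1))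

theorem hol_homotopy {M L : ℕ} (hM : 4 * L ≤ M) (x y : ℕ → H) (n : ℕ)
    (hx : ∀ j < n, wl π hπ ((x j)⁻¹ * x (j + 1)) ≤ L)
    (hy : ∀ j < n, wl π hπ ((y j)⁻¹ * y (j + 1)) ≤ L)
    (hxy : ∀ j ≤ n, wl π hπ ((x j)⁻¹ * y j) ≤ L) :
    Hol π hπ M x n * ta π hπ M ((x n)⁻¹ * y n) = ta π hπ M ((x 0)⁻¹ * y 0) * Hol π hπ M y n := by
  induction n with
  | zero => simp [Hol]
  | succ n ih =>
    have ih' := ih (fun j hj => hx j (by omega)) (fun j hj => hy j (by omega))
      (fun j hj => hxy j (by omega))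
    rw [Hol, Hol, mul_assoc, ← mul_assoc _ _ (ta π hπ M ((y n)⁻¹ * y (n + 1))), ← ih', mul_assoc]
    congr 1
    have h1 := hx n (by omega)
    have h2 := hy n (by omega)
    have h3 := hxy n (by omega)
    have h4 := hxy (n + 1) le_rfl
    have e1 : (x n)⁻¹ * x (n + 1) * ((x (n + 1))⁻¹ * y (n + 1)) = (x n)⁻¹ * y (n + 1) := by group
    have e2 : (x n)⁻¹ * y n * ((y n)⁻¹ * y (n + 1)) = (x n)⁻¹ * y (n + 1) := by group
    have h5 := wl_mul π hπ ((x n)⁻¹ * y n) ((y n)⁻¹ * y (n + 1))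
    rw [e2] at h5
    rw [ta_mul π hπ (by rw [e1]; omega), ta_mul π hπ (by rw [e2]; omega), e1, e2]

theorem hol_const (M : ℕ) (x : ℕ → H) (n : ℕ) (hx : ∀ j ≤ n, x j = x 0) : Hol π hπ M x n = 1 := by
  induction n with
  | zero => rfl
  | succ n ih =>
    rw [Hol, ih fun j hj => hx j (by omega), hx n (by omega), hx (n + 1) le_rfl, inv_mul_cancel,
      ta_one, one_mul]

theorem hol_closed {M L : ℕ} (hM : 4 * L ≤ M) (x y : ℕ → H) (n : ℕ)
    (hx : ∀ j < n, wl π hπ ((x j)⁻¹ * x (j + 1)) ≤ L)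
    (hy : ∀ j < n, wl π hπ ((y j)⁻¹ * y (j + 1)) ≤ L)
    (hxy : ∀ j ≤ n, wl π hπ ((x j)⁻¹ * y j) ≤ L) (hxn : x n = x 0) (hyn : y n = y 0)
    (h : Hol π hπ M y n = 1) : Hol π hπ M x n = 1 := by
  have h1 := hol_homotopy π hπ hM x y n hx hy hxy
  rw [h, hxn, hyn, mul_one] at h1
  exact mul_eq_right.mp h1

theorem hol_array {M L : ℕ} (hM : 4 * L ≤ M) (n : ℕ) (m : ℕ) (Y : ℕ → ℕ → H)
    (hrow : ∀ i ≤ m, ∀ j < n, wl π hπ ((Y i j)⁻¹ * Y i (j + 1)) ≤ L)
    (hcol : ∀ i < m, ∀ j ≤ n, wl π hπ ((Y i j)⁻¹ * Y (i + 1) j) ≤ L)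
    (hclosed : ∀ i ≤ m, Y i n = Y i 0) (hlast : ∀ j ≤ n, Y m j = Y m 0) :
    Hol π hπ M (Y 0) n = 1 := by
  have key : ∀ t ≤ m, Hol π hπ M (Y (m - t)) n = 1 := by
    intro t
    induction t with
    | zero => intro _; exact hol_const π hπ M _ n hlast
    | succ t ih =>
      intro ht
      have h1 := ih (by omega)
      have h2 : m - t = m - (t + 1) + 1 := by omega
      rw [h2] at h1
      exact hol_closed π hπ hM (Y (m - (t + 1))) (Y (m - (t + 1) + 1)) n
        (hrow _ (by omega)) (hrow _ (by omega)) (hcol _ (by omega)) (hclosed _ (by omega))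
        (hclosed _ (by omega)) h1
  have h := key m le_rfl
  rwa [Nat.sub_self] at h

theorem exists_chain (w : FreeGroup (Fin k)) : ∃ (n : ℕ) (p : ℕ → FreeGroup (Fin k)),
    p 0 = 1 ∧ p n = w ∧ ∀ j < n, ((p j)⁻¹ * p (j + 1)).norm ≤ 1 := by
  have key : ∀ L : List (Fin k × Bool), ∃ (n : ℕ) (p : ℕ → FreeGroup (Fin k)),
      p 0 = 1 ∧ p n = FreeGroup.mk L ∧ ∀ j < n, ((p j)⁻¹ * p (j + 1)).norm ≤ 1 := by
    intro L
    induction L using List.reverseRecOn with
    | nil => exact ⟨0, fun _ => 1, rfl, rfl, fun j hj => absurd hj (by omega)⟩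
    | append_singleton L x ih =>
      obtain ⟨n, p, h0, hn, hp⟩ := ih
      refine ⟨n + 1, fun j => if j ≤ n then p j else FreeGroup.mk (L ++ [x]), ?_, ?_, ?_⟩
      · simp [h0]
      · simp
      · intro j hj
        rcases Nat.lt_or_ge j n with hjn | hjn
        · have h1 : j ≤ n := hjn.le
          have h2 : j + 1 ≤ n := hjn
          simp only [h1, h2, if_true]
          exact hp j hjn
        · have h1 : j = n := by omega
          subst h1
          have h2 : ¬ (j + 1 ≤ j) := by omega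
          simp only [le_refl, if_true, h2, if_false]
          rw [hn]
          have h3 : (FreeGroup.mk L)⁻¹ * FreeGroup.mk (L ++ [x]) = FreeGroup.mk [x] := by
            rw [← FreeGroup.mul_mk, inv_mul_cancel_left]
          rw [h3]
          exact FreeGroup.norm_mk_le
  obtain ⟨n, p, h0, hn, hp⟩ := key w.toWord
  rw [FreeGroup.mk_toWord] at hn
  exact ⟨n, p, h0, hn, hp⟩

theorem hol_chain {M : ℕ} (hM : 2 ≤ M) (n : ℕ) (p : ℕ → FreeGroup (Fin k)) (h0 : p 0 = 1)
    (hp : ∀ j < n, ((p j)⁻¹ * p (j + 1)).norm ≤ 1) :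
    Hol π hπ M (fun j => π (p j)) n = QuotientGroup.mk (p n) := by
  induction n with
  | zero => rw [h0]; rfl
  | succ n ih =>
    have ih' := ih fun j hj => hp j (by omega)
    have h1 := hp n (by omega)
    rw [Hol, ih', ta]
    have h2 : (QuotientGroup.mk (sh π hπ ((π (p n))⁻¹ * π (p (n + 1)))) : QM π M)
        = QuotientGroup.mk ((p n)⁻¹ * p (n + 1)) := by
      apply mk_eq_of
      · rw [π_sh, map_mul, map_inv]
      · have h3 : wl π hπ ((π (p n))⁻¹ * π (p (n + 1))) ≤ ((p n)⁻¹ * p (n + 1)).norm :=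
          wl_le π hπ (by rw [map_mul, map_inv])
        have h4 : (sh π hπ ((π (p n))⁻¹ * π (p (n + 1)))).norm
          = wl π hπ ((π (p n))⁻¹ * π (p (n + 1))) := rfl
        omega
    rw [h2, ← QuotientGroup.mk_mul, mul_inv_cancel_left]

/-- Finite presentability from contractibility of loops. -/
theorem ker_eq {L : ℕ} (hL : 1 ≤ L)
    (hcontr : ∀ (n : ℕ) (x : ℕ → H), x n = x 0 → (∀ j < n, wl π hπ ((x j)⁻¹ * x (j + 1)) ≤ 1) →
      ∃ (m : ℕ) (Y : ℕ → ℕ → H),
        (∀ i ≤ m, ∀ j < n, wl π hπ ((Y i j)⁻¹ * Y i (j + 1)) ≤ L) ∧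
        (∀ i < m, ∀ j ≤ n, wl π hπ ((Y i j)⁻¹ * Y (i + 1) j) ≤ L) ∧
        (∀ i ≤ m, Y i n = Y i 0) ∧ (∀ j ≤ n, Y m j = Y m 0) ∧
        (∀ j ≤ n, wl π hπ ((x j)⁻¹ * Y 0 j) ≤ L)) :
    π.ker = Subgroup.normalClosure (Rel π (4 * L)) := by
  apply le_antisymm
  · intro w hw
    rw [MonoidHom.mem_ker] at hw
    obtain ⟨n, p, h0, hn, hp⟩ := exists_chain w
    have hstep : ∀ j < n, wl π hπ ((π (p j))⁻¹ * π (p (j + 1))) ≤ 1 := fun j hj =>
      (wl_le π hπ (w := (p j)⁻¹ * p (j + 1)) (by rw [map_mul, map_inv])).trans (hp j hj)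
    have hclosed : π (p n) = π (p 0) := by rw [hn, hw, h0, map_one]
    obtain ⟨m, Y, hrow, hcol, hcl, hlast, hconn⟩ := hcontr n (fun j => π (p j)) hclosed hstep
    have h1 : Hol π hπ (4 * L) (Y 0) n = 1 := hol_array π hπ le_rfl n m Y hrow hcol hcl hlast
    have h2 : Hol π hπ (4 * L) (fun j => π (p j)) n = 1 :=
      hol_closed π hπ (L := L) le_rfl _ _ n (fun j hj => (hstep j hj).trans hL)
        (hrow 0 (Nat.zero_le _)) hconn hclosed (hcl 0 (Nat.zero_le _)) h1
    rw [hol_chain π hπ (by omega) n p h0 hp, hn, QuotientGroup.eq_one_iff] at h2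
    exact h2
  · apply Subgroup.normalClosure_le_normal
    intro w hw
    exact hw.2

end Hol

/-- Moving a point by a small change of the dilation parameter. -/
theorem N_dil_dil {lam : Par} {s s' ε : ℝ} (hs : |s' - s| ≤ ε) (hs2 : |s' ^ 2 - s ^ 2| ≤ 2 * ε)
    {u : Gp lam} (h1 : ε * ‖u.v‖ ≤ 1) (h2 : 2 * ε * ‖u.z‖ ≤ 1) :
    d (dil s u) (dil s' u) ≤ 1 := by
  rw [d, N_le_iff zero_le_one]
  constructor
  · have e : ((dil s u)⁻¹ * dil s' u).v = (s' - s) • u.v := by
      simp only [mul_v, inv_v, dil_v, sub_smul]; abel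
    rw [e, norm_smul, Real.norm_eq_abs]
    exact (mul_le_mul_of_nonneg_right hs (norm_nonneg _)).trans h1
  · have e : ((dil s u)⁻¹ * dil s' u).z = (s' ^ 2 - s ^ 2) • u.z := by
      simp only [mul_z, inv_z, inv_v, dil_v, dil_z, sub_smul, om_neg_left, om_smul_left,
        om_smul_right, om_self, smul_zero, neg_zero, add_zero]
      abel
    rw [e, norm_smul, Real.norm_eq_abs, one_pow]
    exact (mul_le_mul_of_nonneg_right hs2 (norm_nonneg _)).trans h2

/-- A group coarsely equivalent to `Gp lam` is finitely presented. -/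
theorem ker_eq_of_Gp {lam : Par} {k : ℕ} {H : Type} [Group H] (π : FreeGroup (Fin k) →* H)
    (hπ : Function.Surjective π) {R : ℝ} (hR : 1 ≤ R) {L : ℕ} (hL : 1 ≤ L) (ψ : H → Gp lam)
    (φ : Gp lam → H)
    (ha : ∀ h h', wl π hπ (h⁻¹ * h') ≤ 1 → d (ψ h) (ψ h') ≤ R)
    (hb : ∀ g g', d g g' ≤ R → wl π hπ ((φ g)⁻¹ * φ g') ≤ L)
    (hc : ∀ h, wl π hπ (h⁻¹ * φ (ψ h)) ≤ L) :
    π.ker = Subgroup.normalClosure (Rel π (4 * L)) := by
  apply ker_eq π hπ hL
  intro n x hxn hx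
  set u : ℕ → Gp lam := fun j => (ψ (x 0))⁻¹ * ψ (x j) with hu
  obtain ⟨m, hm⟩ := exists_nat_ge (∑ j ∈ Finset.range (n + 1), (‖(u j).v‖ + 2 * ‖(u j).z‖) + 1)
  have hS : 0 ≤ ∑ j ∈ Finset.range (n + 1), (‖(u j).v‖ + 2 * ‖(u j).z‖) :=
    Finset.sum_nonneg fun j _ => by positivity
  have hm1 : (1 : ℝ) ≤ m := by linarith
  have hm0 : (0 : ℝ) < m := by linarith
  have hm0' : 0 < m := by exact_mod_cast hm0
  have hub : ∀ j ≤ n, ‖(u j).v‖ + 2 * ‖(u j).z‖ ≤ m := by
    intro j hj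
    have h1 : ‖(u j).v‖ + 2 * ‖(u j).z‖ ≤
        ∑ j ∈ Finset.range (n + 1), (‖(u j).v‖ + 2 * ‖(u j).z‖) :=
      Finset.single_le_sum (f := fun j => ‖(u j).v‖ + 2 * ‖(u j).z‖) (a := j)
        (fun j _ => by positivity) (Finset.mem_range.mpr (by omega))
    linarith
  set s : ℕ → ℝ := fun i => 1 - (i : ℝ) / m with hs
  have hs0 : s 0 = 1 := by simp [hs]
  have hsm : s m = 0 := by simp [hs, div_self hm0.ne']
  have hs01 : ∀ i ≤ m, 0 ≤ s i ∧ s i ≤ 1 := by
    intro i hi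
    have h1 : (i : ℝ) / m ≤ 1 := by rw [div_le_one hm0]; exact_mod_cast hi
    have h2 : 0 ≤ (i : ℝ) / m := by positivity
    simp only [hs]
    constructor <;> linarith
  refine ⟨m, fun i j => φ (ψ (x 0) * dil (s i) (u j)), ?_, ?_, ?_, ?_, ?_⟩
  · intro i hi j hj
    apply hb
    rw [d_mul_left, d_dil, abs_of_nonneg (hs01 i hi).1]
    have h1 : d (u j) (u (j + 1)) ≤ R := by
      simp only [hu]
      rw [d_mul_left]
      exact ha _ _ (hx j hj)
    calc s i * d (u j) (u (j + 1)) ≤ 1 * d (u j) (u (j + 1)) :=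
          mul_le_mul_of_nonneg_right (hs01 i hi).2 (d_nonneg _ _)
      _ ≤ R := by rw [one_mul]; exact h1
  · intro i hi j hj
    apply hb
    rw [d_mul_left]
    refine le_trans ?_ hR
    have hdiff : s (i + 1) - s i = -(1 / (m : ℝ)) := by
      simp only [hs]
      push_cast
      field_simp
      ring
    apply N_dil_dil (ε := 1 / m)
    · rw [hdiff, abs_neg, abs_of_pos (by positivity)]
    · have h1 : s (i + 1) ^ 2 - s i ^ 2 = (s (i + 1) - s i) * (s (i + 1) + s i) := by ring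
      rw [h1, hdiff, abs_mul, abs_neg, abs_of_pos (by positivity : 0 < 1 / (m : ℝ)), mul_comm]
      refine mul_le_mul_of_nonneg_right ?_ (by positivity)
      have h2 := hs01 i (by omega)
      have h3 := hs01 (i + 1) (by omega)
      rw [abs_of_nonneg (by linarith)]
      linarith
    · have h1 := hub j hj
      rw [div_mul_eq_mul_div, one_mul, div_le_one hm0]
      have := norm_nonneg (u j).z
      linarith
    · have h1 := hub j hj
      rw [mul_one_div, div_mul_eq_mul_div, div_le_one hm0]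
      have := norm_nonneg (u j).v
      linarith
  · intro i _
    simp only [hu, hxn]
  · intro j _
    simp only [hsm, dil_zero]
  · intro j _
    simp only [hs0, dil_one, hu, mul_inv_cancel_left]
    exact hc (x j)

end Pool.Agent.Lib.MP_616471_al
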