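import Mathlib
import Pool.Agent.Lib.MP_616471_al.NetProps
import Pool.Agent.Lib.MP_616471_al.Pres
import Pool.Agent.Lib.MP_616471_al.Alg

/-!
# Counting: some graph is not quasi-isometric to any finitely generated group
-/

namespace Pool.Agent.Lib.MP_616471_al

open Gp

/-! ### Cayley graphs and word length -/

section Cayley

variable {k : ℕ} {H : Type} [Group H]

/-- The Cayley graph. -/
abbrev CG (S : Set H) : SimpleGraph H := SimpleGraph.fromRel (fun g h : H => ∃ s ∈ S, h = g * s)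

theorem walk_letter (σ : Fin k → H) (x : Fin k × Bool) (g : H) :
    ∃ p : (CG (Set.range σ)).Walk g (g * FreeGroup.lift σ (FreeGroup.mk [x])), p.length ≤ 1 := by
  obtain ⟨i, b⟩ := x
  have hval : FreeGroup.lift σ (FreeGroup.mk [(i, b)]) = cond b (σ i) (σ i)⁻¹ := by
    rw [FreeGroup.lift_mk]
    simp
  rw [hval]
  by_cases heq : g = g * cond b (σ i) (σ i)⁻¹
  · exact ⟨(SimpleGraph.Walk.nil' g).copy rfl heq, by
      rw [SimpleGraph.Walk.length_copy]; exact Nat.zero_le _⟩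
  · have hadj : (CG (Set.range σ)).Adj g (g * cond b (σ i) (σ i)⁻¹) := by
      rw [SimpleGraph.fromRel_adj]
      refine ⟨heq, ?_⟩
      cases b
      · right
        exact ⟨σ i, ⟨i, rfl⟩, by simp⟩
      · left
        exact ⟨σ i, ⟨i, rfl⟩, by simp⟩
    exact ⟨SimpleGraph.Walk.cons hadj SimpleGraph.Walk.nil, le_rfl⟩

theorem walk_word (σ : Fin k → H) (L : List (Fin k × Bool)) (g : H) :
    ∃ p : (CG (Set.range σ)).Walk g (g * FreeGroup.lift σ (FreeGroup.mk L)),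
      p.length ≤ L.length := by
  induction L generalizing g with
  | nil =>
    have h : g = g * FreeGroup.lift σ (FreeGroup.mk []) := by
      rw [← FreeGroup.one_eq_mk, map_one, mul_one]
    exact ⟨(SimpleGraph.Walk.nil' g).copy rfl h, by
      rw [SimpleGraph.Walk.length_copy]; exact Nat.zero_le _⟩
  | cons x L ih =>
    obtain ⟨p, hp⟩ := walk_letter σ x g
    obtain ⟨q, hq⟩ := ih (g * FreeGroup.lift σ (FreeGroup.mk [x]))
    have h : g * FreeGroup.lift σ (FreeGroup.mk [x]) * FreeGroup.lift σ (FreeGroup.mk L)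
        = g * FreeGroup.lift σ (FreeGroup.mk (x :: L)) := by
      rw [mul_assoc, ← map_mul, FreeGroup.mul_mk]; rfl
    refine ⟨(p.append q).copy rfl h, ?_⟩
    rw [SimpleGraph.Walk.length_copy, SimpleGraph.Walk.length_append, List.length_cons]
    omega

variable (σ : Fin k → H) (hσ : Function.Surjective (FreeGroup.lift σ))

include hσ

theorem walk_wl (g h : H) : ∃ p : (CG (Set.range σ)).Walk g h,
    p.length ≤ wl (FreeGroup.lift σ) hσ (g⁻¹ * h) := by
  obtain ⟨p, hp⟩ := walk_word σ (sh (FreeGroup.lift σ) hσ (g⁻¹ * h)).toWord g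
  have e : g * FreeGroup.lift σ (FreeGroup.mk (sh (FreeGroup.lift σ) hσ (g⁻¹ * h)).toWord) = h := by
    rw [FreeGroup.mk_toWord, π_sh, mul_inv_cancel_left]
  refine ⟨p.copy rfl e, ?_⟩
  rw [SimpleGraph.Walk.length_copy]
  exact hp

theorem CG_connected : (CG (Set.range σ)).Connected := by
  have : Nonempty H := ⟨1⟩
  refine ⟨fun g h => ?_⟩
  obtain ⟨p, _⟩ := walk_wl σ hσ g h
  exact p.reachable

theorem dist_le_wl (g h : H) :
    (CG (Set.range σ)).dist g h ≤ wl (FreeGroup.lift σ) hσ (g⁻¹ * h) := by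
  obtain ⟨p, hp⟩ := walk_wl σ hσ g h
  exact (SimpleGraph.dist_le p).trans hp

theorem wl_adj {g h : H} (hadj : (CG (Set.range σ)).Adj g h) :
    wl (FreeGroup.lift σ) hσ (g⁻¹ * h) ≤ 1 := by
  have hgen : ∀ i, wl (FreeGroup.lift σ) hσ (σ i) ≤ 1 := by
    intro i
    have h1 := wl_le (FreeGroup.lift σ) hσ (h := σ i) (w := FreeGroup.mk [(i, true)])
      (by rw [FreeGroup.lift_mk]; simp)
    exact h1.trans FreeGroup.norm_mk_le
  rw [SimpleGraph.fromRel_adj] at hadj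
  rcases hadj.2 with ⟨s, ⟨i, rfl⟩, hs⟩ | ⟨s, ⟨i, rfl⟩, hs⟩
  · rw [hs, inv_mul_cancel_left]
    exact hgen i
  · rw [hs]
    have e : (h * σ i)⁻¹ * h = (σ i)⁻¹ := by group
    rw [e]
    exact (wl_inv _ _ _).trans (hgen i)

theorem wl_le_dist (g h : H) :
    wl (FreeGroup.lift σ) hσ (g⁻¹ * h) ≤ (CG (Set.range σ)).dist g h := by
  obtain ⟨p, hp⟩ := (CG_connected σ hσ).exists_walk_length_eq_dist g h
  rw [← hp]
  clear hp
  induction p with
  | nil => simp
  | @cons a b c hab p ih =>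
    have h1 := wl_adj σ hσ hab
    have h2 := wl_mul (FreeGroup.lift σ) hσ (a⁻¹ * b) (b⁻¹ * c)
    have e : a⁻¹ * b * (b⁻¹ * c) = a⁻¹ * c := by group
    rw [e] at h2
    rw [SimpleGraph.Walk.length_cons]
    omega

theorem dist_eq_wl (g h : H) :
    (CG (Set.range σ)).dist g h = wl (FreeGroup.lift σ) hσ (g⁻¹ * h) :=
  le_antisymm (dist_le_wl σ hσ g h) (wl_le_dist σ hσ g h)

end Cayley

/-! ### Codes of finite presentations -/

/-- Finite presentations. -/
abbrev Code : Type := Σ k : ℕ, Finset (FreeGroup (Fin k))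

/-- The presented group. -/
abbrev QC (c : Code) : Type :=
  FreeGroup (Fin c.1) ⧸ Subgroup.normalClosure (c.2 : Set (FreeGroup (Fin c.1)))

/-- `q` has length at most `r`. -/
def LL (c : Code) (q : QC c) (r : ℝ) : Prop :=
  ∃ u : FreeGroup (Fin c.1), (QuotientGroup.mk u : QC c) = q ∧ (u.norm : ℝ) ≤ r

theorem LL.mul {c : Code} {q q' : QC c} {r r' : ℝ} (h : LL c q r) (h' : LL c q' r') :
    LL c (q * q') (r + r') := by
  obtain ⟨u, hu, hr⟩ := h
  obtain ⟨v, hv, hr'⟩ := h'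
  refine ⟨u * v, by rw [QuotientGroup.mk_mul, hu, hv], ?_⟩
  have h1 : ((u * v).norm : ℝ) ≤ (u.norm : ℝ) + (v.norm : ℝ) := by
    exact_mod_cast FreeGroup.norm_mul_le u v
  linarith

theorem LL.inv {c : Code} {q : QC c} {r : ℝ} (h : LL c q r) : LL c q⁻¹ r := by
  obtain ⟨u, hu, hr⟩ := h
  exact ⟨u⁻¹, by rw [QuotientGroup.mk_inv, hu], by rwa [FreeGroup.norm_inv_eq]⟩

/-- The net of `Gp lam` is quasi-isometric to the group presented by `c`. -/
def QIc (lam : Par) (c : Code) : Prop :=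
  ∃ (Φ : V0 → QC c) (K C : ℝ), 1 ≤ K ∧ 0 ≤ C ∧
    (∀ x y, LL c ((Φ x)⁻¹ * Φ y) (K * d (io lam x) (io lam y) + C)) ∧
    (∀ x y r, LL c ((Φ x)⁻¹ * Φ y) r → d (io lam x) (io lam y) ≤ K * r + C) ∧
    ∀ q, ∃ x, LL c ((Φ x)⁻¹ * q) C

theorem finite_norm_le (k M : ℕ) : {w : FreeGroup (Fin k) | w.norm ≤ M}.Finite :=
  Set.Finite.preimage (f := FreeGroup.toWord) (s := {l : List (Fin k × Bool) | l.length ≤ M})
    FreeGroup.toWord_injective.injOn (List.finite_length_le _ _)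

theorem QIc_of {lam : Par} {k : ℕ} {T : Finset (FreeGroup (Fin k))} {H : Type} [Group H]
    (π : FreeGroup (Fin k) →* H) (hσ : Function.Surjective π)
    (hker : π.ker = Subgroup.normalClosure (T : Set (FreeGroup (Fin k))))
    {φ : V0 → H} {K C : ℝ} (hK : 0 < K) (hC : 0 ≤ C)
    (hup : ∀ x y : V0, (wl π hσ ((φ x)⁻¹ * φ y) : ℝ) ≤
      K * (21 * d (io lam x) (io lam y) + 21) + C)
    (hlo : ∀ x y : V0, d (io lam x) (io lam y) ≤
      3 * (K * ((wl π hσ ((φ x)⁻¹ * φ y) : ℝ) + C)))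
    (xs : H → V0) (hxs' : ∀ h, (wl π hσ ((φ (xs h))⁻¹ * h) : ℝ) ≤ C) : QIc lam ⟨k, T⟩ := by
  have hmk : ∀ u v : FreeGroup (Fin k),
      ((QuotientGroup.mk u : QC ⟨k, T⟩) = QuotientGroup.mk v ↔ π u = π v) := by
    intro u v
    rw [QuotientGroup.eq]
    change u⁻¹ * v ∈ Subgroup.normalClosure (T : Set (FreeGroup (Fin k))) ↔ _
    rw [← hker, MonoidHom.mem_ker, map_mul, map_inv, inv_mul_eq_one]
  obtain ⟨K₁, hK₁, hK₂, hK₃⟩ : ∃ K₁ : ℝ, 1 ≤ K₁ ∧ K * 21 ≤ K₁ ∧ 3 * K ≤ K₁ :=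
    ⟨max 1 (max (K * 21) (3 * K)), le_max_left _ _, (le_max_left _ _).trans (le_max_right _ _),
      (le_max_right _ _).trans (le_max_right _ _)⟩
  have hKC : 0 ≤ 3 * K * C := by positivity
  have hK21 : 0 ≤ K * 21 := by positivity
  obtain ⟨C₁, hC₁, hC₂⟩ : ∃ C₁ : ℝ, C₁ = K * 21 + C + 3 * K * C ∧ 0 ≤ C₁ :=
    ⟨K * 21 + C + 3 * K * C, rfl, by linarith⟩
  let Φ : V0 → QC ⟨k, T⟩ := fun x => QuotientGroup.mk (sh π hσ (φ x))
  have hΦ : ∀ x, Φ x = QuotientGroup.mk (sh π hσ (φ x)) := fun _ => rfl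
  have part1 : ∀ x y, LL ⟨k, T⟩ ((Φ x)⁻¹ * Φ y) (K₁ * d (io lam x) (io lam y) + C₁) := by
    intro x y
    refine ⟨sh π hσ ((φ x)⁻¹ * φ y), ?_, ?_⟩
    · rw [hΦ, hΦ, ← QuotientGroup.mk_inv, ← QuotientGroup.mk_mul, hmk, map_mul, map_inv, π_sh,
        π_sh, π_sh]
    · have h1 := hup x y
      have h2 : ((sh π hσ ((φ x)⁻¹ * φ y)).norm : ℝ) = (wl π hσ ((φ x)⁻¹ * φ y) : ℝ) := rfl
      rw [h2]
      have h3 : K * 21 * d (io lam x) (io lam y) ≤ K₁ * d (io lam x) (io lam y) :=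
        mul_le_mul_of_nonneg_right hK₂ (d_nonneg _ _)
      linarith
  have part2 : ∀ x y r, LL ⟨k, T⟩ ((Φ x)⁻¹ * Φ y) r →
      d (io lam x) (io lam y) ≤ K₁ * r + C₁ := by
    intro x y r hLL
    obtain ⟨u, hu, hr⟩ := hLL
    rw [hΦ, hΦ, ← QuotientGroup.mk_inv, ← QuotientGroup.mk_mul, hmk, map_mul, map_inv, π_sh,
      π_sh] at hu
    have h1 : (wl π hσ ((φ x)⁻¹ * φ y) : ℝ) ≤ r := by
      have := wl_le π hσ hu
      have h2 : (wl π hσ ((φ x)⁻¹ * φ y) : ℝ) ≤ u.norm := by exact_mod_cast this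
      linarith
    have hr0 : 0 ≤ r := (Nat.cast_nonneg _).trans hr
    have h2 := hlo x y
    have h3 : 3 * K * r ≤ K₁ * r := mul_le_mul_of_nonneg_right hK₃ hr0
    have h4 : K * ((wl π hσ ((φ x)⁻¹ * φ y) : ℝ) + C) ≤ K * (r + C) :=
      mul_le_mul_of_nonneg_left (by linarith) hK.le
    linarith
  have part3 : ∀ q, ∃ x, LL ⟨k, T⟩ ((Φ x)⁻¹ * q) C₁ := by
    intro q
    obtain ⟨w, rfl⟩ := QuotientGroup.mk_surjective q
    refine ⟨xs (π w), sh π hσ ((φ (xs (π w)))⁻¹ * π w), ?_, ?_⟩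
    · rw [hΦ, ← QuotientGroup.mk_inv, ← QuotientGroup.mk_mul, hmk, map_mul, map_inv, π_sh, π_sh]
    · have h1 := hxs' (π w)
      have h2 : ((sh π hσ ((φ (xs (π w)))⁻¹ * π w)).norm : ℝ)
        = (wl π hσ ((φ (xs (π w)))⁻¹ * π w) : ℝ) := rfl
      rw [h2]
      linarith
  exact ⟨Φ, K₁, C₁, hK₁, hC₂, part1, part2, part3⟩

theorem exists_code {lam : Par} {H : Type} [Group H] {S : Set H} (hS : S.Finite)
    (hgen : Subgroup.closure S = ⊤) {φ : V0 → H} {K C : ℝ} (hK : 0 < K)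
    (hqi : ∀ a b : V0, ((X lam).dist a b : ℝ) / K - C ≤ ((CG S).dist (φ a) (φ b) : ℝ) ∧
      ((CG S).dist (φ a) (φ b) : ℝ) ≤ K * ((X lam).dist a b : ℝ) + C)
    (hon : ∀ h : H, ∃ a : V0, ((CG S).dist (φ a) h : ℝ) ≤ C) : ∃ c : Code, QIc lam c := by
  classical
  -- enumerate the generators
  obtain ⟨k, σ, hσS⟩ : ∃ (k : ℕ) (σ : Fin k → H), Set.range σ = S := by
    obtain ⟨k, e⟩ := hS.fin_param
    obtain ⟨σ, _, hσ⟩ := e
    exact ⟨k, σ, hσ⟩
  subst hσS
  have hσ : Function.Surjective (FreeGroup.lift σ) := by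
    rw [← MonoidHom.range_eq_top, FreeGroup.range_lift_eq_closure, hgen]
  set π := FreeGroup.lift σ with hπ
  have hC : 0 ≤ C := by
    obtain ⟨a, ha⟩ := hon 1
    exact (Nat.cast_nonneg _).trans ha
  have hdw : ∀ g h : H, ((CG (Set.range σ)).dist g h : ℝ) = (wl π hσ (g⁻¹ * h) : ℝ) := by
    intro g h
    rw [dist_eq_wl σ hσ g h]
  have hup : ∀ x y : V0, (wl π hσ ((φ x)⁻¹ * φ y) : ℝ) ≤
      K * (21 * d (io lam x) (io lam y) + 21) + C := by
    intro x y
    have h1 := (hqi x y).2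
    rw [hdw] at h1
    have h2 := mul_le_mul_of_nonneg_left (dist_le_real lam x y) hK.le
    linarith
  have hlo : ∀ x y : V0, d (io lam x) (io lam y) ≤
      3 * (K * ((wl π hσ ((φ x)⁻¹ * φ y) : ℝ) + C)) := by
    intro x y
    have h1 := (hqi x y).1
    rw [hdw, sub_le_iff_le_add, div_le_iff₀ hK] at h1
    have h2 := d_le_dist lam x y
    nlinarith
  choose xs hxs using hon
  have hxs' : ∀ h, (wl π hσ ((φ (xs h))⁻¹ * h) : ℝ) ≤ C := fun h => by
    rw [← hdw]; exact hxs h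
  -- finite presentability
  set R : ℝ := max 1 (3 * (K * ((2 * C + 1) + C))) with hR
  have hR1 : 1 ≤ R := le_max_left _ _
  obtain ⟨L, hL⟩ := exists_nat_ge (K * (21 * (R + 2) + 21) + C + 1)
  have hKR : 0 ≤ K * (21 * (R + 2) + 21) := by positivity
  have hL1 : 1 ≤ L := by
    have : (1 : ℝ) ≤ L := by linarith
    exact_mod_cast this
  have hker := ker_eq_of_Gp (lam := lam) π hσ hR1 hL1 (fun h => io lam (xs h)) (fun g => φ (rd g))
    (by
      intro h h' hh
      have h1 : (wl π hσ ((φ (xs h))⁻¹ * φ (xs h')) : ℝ) ≤ 2 * C + 1 := by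
        have e : (φ (xs h))⁻¹ * φ (xs h') = ((φ (xs h))⁻¹ * h) * (h⁻¹ * h')
            * ((φ (xs h'))⁻¹ * h')⁻¹ := by group
        have w1 := wl_mul π hσ (((φ (xs h))⁻¹ * h) * (h⁻¹ * h')) (((φ (xs h'))⁻¹ * h')⁻¹)
        have w2 := wl_mul π hσ ((φ (xs h))⁻¹ * h) (h⁻¹ * h')
        have w3 := wl_inv π hσ ((φ (xs h'))⁻¹ * h')
        rw [← e] at w1
        have w4 : (wl π hσ ((φ (xs h))⁻¹ * φ (xs h')) : ℝ) ≤ (wl π hσ ((φ (xs h))⁻¹ * h) : ℝ)
            + 1 + (wl π hσ ((φ (xs h'))⁻¹ * h') : ℝ) := by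
          have : wl π hσ ((φ (xs h))⁻¹ * φ (xs h')) ≤ wl π hσ ((φ (xs h))⁻¹ * h)
            + 1 + wl π hσ ((φ (xs h'))⁻¹ * h') := by omega
          exact_mod_cast this
        have w5 := hxs' h
        have w6 := hxs' h'
        linarith
      refine le_trans (hlo _ _) (le_trans ?_ (le_max_right _ _))
      have h2 : K * ((wl π hσ ((φ (xs h))⁻¹ * φ (xs h')) : ℝ) + C) ≤ K * ((2 * C + 1) + C) :=
        mul_le_mul_of_nonneg_left (by linarith) hK.le
      linarith)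
    (by
      intro g g' hgg
      have h1 := hup (rd g) (rd g')
      have h2 := d_rd_rd_le g g'
      have h3 : K * (21 * d (io lam (rd g)) (io lam (rd g')) + 21) ≤ K * (21 * (R + 2) + 21) :=
        mul_le_mul_of_nonneg_left (by linarith) hK.le
      have h4 : (wl π hσ ((φ (rd g))⁻¹ * φ (rd g')) : ℝ) ≤ L := by linarith
      exact_mod_cast h4)
    (by
      intro h
      simp only [rd_io]
      have h1 := wl_inv π hσ ((φ (xs h))⁻¹ * h)
      rw [mul_inv_rev, inv_inv] at h1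
      have h2 := hxs' h
      have h3 : (wl π hσ (h⁻¹ * φ (xs h)) : ℝ) ≤ wl π hσ ((φ (xs h))⁻¹ * h) := by
        exact_mod_cast h1
      have h4 : (wl π hσ (h⁻¹ * φ (xs h)) : ℝ) ≤ L := by linarith
      exact_mod_cast h4)
  have hfin : (Rel π (4 * L)).Finite := (finite_norm_le k (4 * L)).subset fun w hw => hw.1
  obtain ⟨T, hT⟩ : ∃ T : Finset (FreeGroup (Fin k)), (T : Set (FreeGroup (Fin k))) = Rel π (4 * L) :=
    ⟨hfin.toFinset, hfin.coe_toFinset⟩
  rw [← hT] at hker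
  exact ⟨⟨k, T⟩, QIc_of π hσ hker hK hC hup hlo xs hxs'⟩

/-- Two parameters with a common code are related by a cross ratio. -/
theorem crs_of_code {lam lam' : Par} {c : Code} (h : QIc lam c) (h' : QIc lam' c) :
    ∃ σ : Fin 4 → Fin 4, lam.1 = crs lam' σ := by
  obtain ⟨Φ, K, C, hK, hC, hup, hlo, hon⟩ := h
  obtain ⟨Φ', K', C', hK', hC', hup', hlo', hon'⟩ := h'
  choose xs hxs using hon'
  set f : Gp lam → Gp lam' := fun g => io lam' (xs (Φ (rd g))) with hf
  have h1 : ∀ g h, d (f g) (f h) ≤ (K' * K) * d g h + (K' * (C' + (K * 2 + C) + C') + C') := by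
    intro g h
    have e : (Φ' (xs (Φ (rd g))))⁻¹ * Φ' (xs (Φ (rd h)))
        = ((Φ' (xs (Φ (rd g))))⁻¹ * Φ (rd g)) * ((Φ (rd g))⁻¹ * Φ (rd h))
          * ((Φ' (xs (Φ (rd h))))⁻¹ * Φ (rd h))⁻¹ := by group
    have h2 := ((hxs (Φ (rd g))).mul (hup (rd g) (rd h))).mul (hxs (Φ (rd h))).inv
    rw [← e] at h2
    have h3 := hlo' _ _ _ h2
    have h4 := d_rd_rd_le g h
    have h5 : K * d (io lam (rd g)) (io lam (rd h)) ≤ K * (d g h + 2) :=
      mul_le_mul_of_nonneg_left h4 (by linarith)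
    have h6 : K' * (C' + (K * d (io lam (rd g)) (io lam (rd h)) + C) + C')
        ≤ K' * (C' + (K * (d g h + 2) + C) + C') :=
      mul_le_mul_of_nonneg_left (by linarith) (by linarith)
    calc d (f g) (f h) ≤ _ := h3
      _ ≤ _ := add_le_add h6 le_rfl
      _ = (K' * K) * d g h + (K' * (C' + (K * 2 + C) + C') + C') := by ring
  have h2 : ∀ g h, d g h ≤ (K' * K) * d (f g) (f h) + (K * (C' + C' + C') + C + 2) := by
    intro g h
    have e : (Φ (rd g))⁻¹ * Φ (rd h)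
        = ((Φ' (xs (Φ (rd g))))⁻¹ * Φ (rd g))⁻¹
          * ((Φ' (xs (Φ (rd g))))⁻¹ * Φ' (xs (Φ (rd h))))
          * ((Φ' (xs (Φ (rd h))))⁻¹ * Φ (rd h)) := by group
    have h2 := ((hxs (Φ (rd g))).inv.mul (hup' (xs (Φ (rd g))) (xs (Φ (rd h))))).mul
      (hxs (Φ (rd h)))
    rw [← e] at h2
    have h3 := hlo _ _ _ h2
    have h4 := le_d_rd_rd g h
    have h5 : d (io lam' (xs (Φ (rd g)))) (io lam' (xs (Φ (rd h)))) = d (f g) (f h) := rfl
    rw [h5] at h3
    calc d g h ≤ d (io lam (rd g)) (io lam (rd h)) + 2 := h4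
      _ ≤ K * (C' + (K' * d (f g) (f h) + C') + C') + C + 2 := by linarith
      _ = (K' * K) * d (f g) (f h) + (K * (C' + C' + C') + C + 2) := by ring
  set C₀ := (K' * (C' + (K * 2 + C) + C') + C') + (K * (C' + C' + C') + C + 2) with hC₀
  have p1 : 0 ≤ K' * (C' + (K * 2 + C) + C') + C' := by positivity
  have p2 : 0 ≤ K * (C' + C' + C') + C + 2 := by positivity
  have hKK : 1 ≤ K' * K := by nlinarith
  obtain ⟨a, ha⟩ := limit_relation (f := f) (K := K' * K) (C := C₀)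
    (fun g h => (h1 g h).trans (by linarith)) (fun g h => (h2 g h).trans (by linarith)) hKK
    (by linarith)
  exact cross_ratio ha

theorem countable_code : Countable Code := by
  have h : ∀ k : ℕ, Countable (FreeGroup (Fin k)) := fun k =>
    (FreeGroup.toWord_injective (α := Fin k)).countable
  infer_instance

theorem exists_lam : ∃ lam : Par, ¬ ∃ c : Code, QIc lam c := by
  by_contra hcon
  push Not at hcon
  choose code hcode using hcon
  have hfib : ∀ c : Code, (code ⁻¹' {c}).Finite := by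
    intro c
    rcases (code ⁻¹' {c}).eq_empty_or_nonempty with he | ⟨lam', hlam'⟩
    · rw [he]; exact Set.finite_empty
    · have hlam'' : code lam' = c := hlam'
      have hsub : (code ⁻¹' {c}) ⊆ (fun lam : Par => lam.1) ⁻¹'
          (Set.range fun σ : Fin 4 → Fin 4 => crs lam' σ) := by
        intro lam hlam
        have hl : code lam = c := hlam
        have q1 := hcode lam
        have q2 := hcode lam'
        rw [hl] at q1
        rw [hlam''] at q2
        obtain ⟨σ, hσ⟩ := crs_of_code q1 q2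
        exact ⟨σ, hσ.symm⟩
      refine Set.Finite.subset ?_ hsub
      exact (Set.finite_range _).preimage Subtype.val_injective.injOn
  have hc := countable_code
  have huniv : (Set.univ : Set Par) = ⋃ c, code ⁻¹' {c} := by
    ext lam; simp
  have hcount : (Set.univ : Set Par).Countable := by
    rw [huniv]
    exact Set.countable_iUnion fun c => (hfib c).countable
  rw [Set.countable_univ_iff] at hcount
  have h1 : Cardinal.mk Par ≤ Cardinal.aleph0 := Cardinal.mk_le_aleph0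
  have h2 : Cardinal.mk Par = Cardinal.continuum := Cardinal.mk_Ioo_real zero_lt_one
  rw [h2] at h1
  exact absurd h1 (not_le.mpr Cardinal.aleph0_lt_continuum)

end Pool.Agent.Lib.MP_616471_al
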